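import Pool.Agent.Lib.MP_10e784_agHA.Defs
import Pool.Agent.Lib.MP_10e784_agH.PB

/-!
# LEAF A1: the product `(a x⁴ + b z⁴) Q`

MODELS: `MP_10e784_agH/PB.lean` (`pol_coeff`, `pol_deg`, the private `pb_hev`, `pb_map`, `fe_mulF`; copy what you need), `MP_10e784_agH/PC.lean` (`rf_add`), `MP_10e784_agH/SI.lean` (`mulF_bd`).
PROOF.  `pol_mul4`: both sides have degree `≤ n + 4`, same coefficients (`pol_coeff`).  `fe_mul4`: as `fe_mulF` (homogenisation of the product; `fe` of the form with polynomial `C a X⁴ + C b` in degree `4` is `q4`; or directly: the coefficient number `i` of the product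
is `a Q_(i-4) + b Q_i`).  `r4_add`: `pol (f + mul4 a b Q) = pol f + (C a X⁴ + C b) pol Q`, `resultant_add_mul_right`.  `r4_map`: `resultant_map_map`.  `mul4_bd`: the coefficient number `i` is `a Q_(i-4) + b Q_i`.
-/

set_option autoImplicit false

namespace HZ

open Finset Polynomial MWS HY

variable {R S : Type*} [CommRing R] [CommRing S]

private theorem A1_map (φ : R →+* S) {k : ℕ} (f : Fin k → R) :
    pol (fun i => φ (f i)) = (pol f).map φ := by
  unfold pol
  rw [Polynomial.map_sum]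
  refine Finset.sum_congr rfl fun i _ => ?_
  rw [Polynomial.map_monomial]

private theorem A1_hev {m : ℕ} (f : Fin (m + 1) → R) (x z : R) :
    MvPolynomial.eval ![x, z] ((pol f).homogenize m) = fe f x z := by
  unfold pol fe
  rw [Polynomial.homogenize_finsetSum, map_sum]
  refine Finset.sum_congr rfl fun i _ => ?_
  rw [Polynomial.homogenize_monomial (Nat.lt_succ_iff.1 i.2), MvPolynomial.eval_monomial,
    Finsupp.update_eq_add_single (by simp), Finsupp.prod_add_index', Finsupp.prod_single_index,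
    Finsupp.prod_single_index]
  · simp [mul_assoc]
  · simp
  · simp
  · intro a
    exact pow_zero _
  · intro a b c
    exact pow_add _ _ _

private theorem A1_pol (a b : R) : pol (![b, 0, 0, 0, a] : Fin (4 + 1) → R) = C a * X ^ 4 + C b := by
  unfold pol
  rw [Fin.sum_univ_five]
  simp only [Matrix.cons_val, map_zero, add_zero, Fin.isValue, Fin.val_zero,
    ← C_mul_X_pow_eq_monomial, pow_zero, mul_one]
  rw [add_comm]
  rfl

private theorem A1_fe (a b x z : R) : fe (![b, 0, 0, 0, a] : Fin (4 + 1) → R) x z = q4 a b x z := by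
  unfold fe q4
  rw [Fin.sum_univ_five]
  simp only [Matrix.cons_val, zero_mul, add_zero, Fin.isValue, Fin.val_zero, pow_zero, mul_one]
  norm_num
  ring

private theorem A1_deg (a b : R) : (C a * X ^ 4 + C b : R[X]).natDegree ≤ 4 := by
  rw [← A1_pol]
  exact pol_deg _

private theorem A1_pol_add {k : ℕ} (f g : Fin k → R) : pol (f + g) = pol f + pol g := by
  unfold pol
  rw [← Finset.sum_add_distrib]
  refine Finset.sum_congr rfl (fun i _ => ?_)
  rw [Pi.add_apply, map_add]

theorem q4_map (φ : R →+* S) (a b x z : R) : q4 (φ a) (φ b) (φ x) (φ z) = φ (q4 a b x z) := by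
  unfold q4
  rw [map_add, map_mul, map_mul, map_pow, map_pow]

theorem pol_mul4 {n : ℕ} (a b : R) (Q : Fin (n + 1) → R) : pol (mul4 a b Q) = (C a * X ^ 4 + C b) * pol Q := by
  ext i
  rw [pol_coeff]
  by_cases h : i < n + 4 + 1
  · rw [dif_pos h]
    rfl
  · rw [dif_neg h]
    symm
    refine Polynomial.coeff_eq_zero_of_natDegree_lt ?_
    have h0 := A1_deg a b
    have h3 := pol_deg Q
    have a1 : ((C a * X ^ 4 + C b) * pol Q).natDegree ≤ (C a * X ^ 4 + C b : R[X]).natDegree + (pol Q).natDegree :=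
      Polynomial.natDegree_mul_le
    omega

theorem fe_mul4 {n : ℕ} (a b : R) (Q : Fin (n + 1) → R) (x z : R) : fe (mul4 a b Q) x z = q4 a b x z * fe Q x z := by
  rw [← A1_hev, pol_mul4]
  have e : n + 4 = 4 + n := by omega
  rw [e, Polynomial.homogenize_mul _ _ (A1_deg a b) (pol_deg Q), map_mul, A1_hev, ← A1_pol a b,
    A1_hev, A1_fe]

theorem r4_add {n : ℕ} (a b : R) (f : Fin (n + 4 + 1) → R) (Q : Fin (n + 1) → R) : r4 a b (f + mul4 a b Q) = r4 a b f := by
  unfold r4
  rw [A1_pol_add, pol_mul4]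
  have hQ : (pol Q).natDegree ≤ n := pol_deg Q
  exact resultant_add_mul_right _ _ _ _ _ (by omega) (A1_deg a b)

theorem r4_map (φ : R →+* S) {m : ℕ} (a b : R) (f : Fin (m + 1) → R) :
    r4 (φ a) (φ b) (fun i => φ (f i)) = φ (r4 a b f) := by
  unfold r4
  rw [A1_map, ← resultant_map_map]
  rw [Polynomial.map_add, Polynomial.map_mul, Polynomial.map_pow, map_C, map_C, map_X]

theorem mul4_bd {n : ℕ} (a b : ℤ) (Q : Fin (n + 1) → ℤ) {H : ℕ} (hQ : ∀ i, |Q i| ≤ (H : ℤ)) (i : Fin (n + 4 + 1)) :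
    |mul4 a b Q i| ≤ (|a| + |b|) * (H : ℤ) := by
  have hH : (0 : ℤ) ≤ H := Int.natCast_nonneg H
  have h0 : ∀ i, |(pol Q).coeff i| ≤ (H : ℤ) := by
    intro i
    rw [pol_coeff]
    split_ifs
    · exact hQ _
    · rw [abs_zero]
      exact hH
  show |((C a * X ^ 4 + C b) * pol Q).coeff i| ≤ (|a| + |b|) * (H : ℤ)
  rw [add_mul, mul_assoc, coeff_add, coeff_C_mul, coeff_C_mul, coeff_X_pow_mul', add_mul]
  refine (abs_add_le _ _).trans (add_le_add ?_ ?_)
  · rw [abs_mul]
    refine mul_le_mul_of_nonneg_left ?_ (abs_nonneg _)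
    split_ifs
    · exact h0 _
    · rw [abs_zero]
      exact hH
  · rw [abs_mul]
    exact mul_le_mul_of_nonneg_left (h0 _) (abs_nonneg _)

end HZ
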