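import Pool.Agent.Lib.MP_10e784_agHA.Defs
import Pool.Agent.Lib.MP_10e784_agH.PB

/-!
# LEAF A2: common zeros modulo `p`

MODEL: `dvd_rf` in `MP_10e784_agH/PD.lean` (private lemmas `PD_ev`, `PD_map`, `PD_lt`, `PD_rf`: the same with `C a X⁴ + C b`, degree `4`, in place of `pol v`, degree `2`).
PROOF.  In `ZMod p`, `r4` of the reductions (`resultant_map_map`).  If `p ∣ z` then `p ∤ x` and both leading coefficients `a`, `f m` vanish modulo `p`: `resultant_eq_zero_of_lt_lt`.  If `p ∤ z`: `t = x / z` is a common zero of the two polynomials: `exists_mul_add_mul_eq_C_resultant`, evaluate at `t`.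
-/

set_option autoImplicit false

namespace HZ

open Finset Polynomial MWS HY

private theorem A2_ev {K : Type*} [Field K] {k : ℕ} (f : Fin k → K) (t : K) :
    (pol f).eval t = ∑ i : Fin k, f i * t ^ (i : ℕ) := by
  unfold pol
  rw [eval_finsetSum]
  exact Finset.sum_congr rfl fun i _ => eval_monomial

private theorem A2_map {R S : Type*} [CommRing R] [CommRing S] (φ : R →+* S) {k : ℕ} (f : Fin k → R) :
    (pol f).map φ = pol (fun i => φ (f i)) := by
  unfold pol
  rw [Polynomial.map_sum]
  exact Finset.sum_congr rfl fun i _ => map_monomial φ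

private theorem A2_lt {K : Type*} [Field K] {g : K[X]} {m : ℕ} (hm : 1 ≤ m) (h : g.natDegree ≤ m)
    (h0 : g.coeff m = 0) : g.natDegree < m := by
  rcases lt_or_eq_of_le h with h1 | h1
  · exact h1
  · have h2 : g.leadingCoeff = 0 := by
      rw [leadingCoeff, h1, h0]
    rw [leadingCoeff_eq_zero.1 h2, natDegree_zero]
    omega

private theorem A2_deg {K : Type*} [Field K] (a b : K) : (C a * X ^ 4 + C b).natDegree ≤ 4 := by
  compute_degree

private theorem A2_rf {K : Type*} [Field K] {m : ℕ} (hm : 1 ≤ m) (a b : K) (f : Fin (m + 1) → K) (x z : K)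
    (hxz : x ≠ 0 ∨ z ≠ 0) (h1 : q4 a b x z = 0) (h2 : fe f x z = 0) : r4 a b f = 0 := by
  unfold r4
  by_cases hz : z = 0
  · have hx : x ≠ 0 := hxz.resolve_right fun h => h hz
    subst hz
    have e1 : a = 0 := by
      unfold q4 at h1
      have h3 : a * x ^ 4 = 0 := by linear_combination h1
      exact (mul_eq_zero.1 h3).resolve_right (pow_ne_zero 4 hx)
    have e2 : f (Fin.last m) = 0 := by
      unfold fe at h2
      rw [Fin.sum_univ_castSucc] at h2
      have h3 : ∑ i : Fin m, f i.castSucc * x ^ ((i.castSucc : Fin (m + 1)) : ℕ) *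
          0 ^ (m - ((i.castSucc : Fin (m + 1)) : ℕ)) = 0 := by
        apply Finset.sum_eq_zero
        intro i _
        have h4 : m - ((i.castSucc : Fin (m + 1)) : ℕ) ≠ 0 := by
          have h5 := i.isLt
          rw [Fin.val_castSucc]
          omega
        rw [zero_pow h4, mul_zero]
      rw [h3, zero_add, Fin.val_last, Nat.sub_self, pow_zero, mul_one] at h2
      exact (mul_eq_zero.1 h2).resolve_right (pow_ne_zero m hx)
    apply resultant_eq_zero_of_lt_lt
    · apply A2_lt (by norm_num) (A2_deg a b)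
      rw [e1]
      simp
    · apply A2_lt hm (pol_deg f)
      rw [pol_coeff, dif_pos (by omega)]
      exact e2
  · obtain ⟨t, rfl⟩ : ∃ t, x = t * z := ⟨x / z, by field_simp⟩
    have e1 : (C a * X ^ 4 + C b).eval t = 0 := by
      have h3 : z ^ 4 * (C a * X ^ 4 + C b).eval t = 0 := by
        unfold q4 at h1
        simp only [eval_add, eval_mul, eval_C, eval_pow, eval_X]
        linear_combination h1
      exact (mul_eq_zero.1 h3).resolve_left (pow_ne_zero 4 hz)
    have e2 : (pol f).eval t = 0 := by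
      have h3 : z ^ m * (pol f).eval t = 0 := by
        rw [A2_ev, ← h2, fe, Finset.mul_sum]
        apply Finset.sum_congr rfl
        intro i _
        have h4 : (i : ℕ) + (m - (i : ℕ)) = m := by
          have := i.isLt
          omega
        calc z ^ m * (f i * t ^ (i : ℕ)) = z ^ ((i : ℕ) + (m - (i : ℕ))) * (f i * t ^ (i : ℕ)) := by rw [h4]
          _ = f i * (t * z) ^ (i : ℕ) * z ^ (m - (i : ℕ)) := by
            rw [pow_add, mul_pow]
            ring
      exact (mul_eq_zero.1 h3).resolve_left (pow_ne_zero m hz)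
    obtain ⟨P, Q, _, _, h3⟩ := exists_mul_add_mul_eq_C_resultant (C a * X ^ 4 + C b) (pol f) (m := 4) (n := m)
      (A2_deg a b) (pol_deg f) (Or.inl (by norm_num))
    have h4 := congrArg (Polynomial.eval t) h3
    rw [eval_add, eval_mul, eval_mul, e1, e2, zero_mul, zero_mul, add_zero, eval_C] at h4
    exact h4.symm

private theorem A2_cop {p : ℕ} [Fact p.Prime] {x z : ℤ} (hc : IsCoprime x z) :
    Int.castRingHom (ZMod p) x ≠ 0 ∨ Int.castRingHom (ZMod p) z ≠ 0 := by
  by_contra h
  push Not at h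
  obtain ⟨a, b, hab⟩ := hc
  have h1 := congrArg (Int.castRingHom (ZMod p)) hab
  rw [map_add, map_mul, map_mul, h.1, h.2, mul_zero, mul_zero, add_zero, map_one] at h1
  exact zero_ne_one h1

private theorem A2_iff {p : ℕ} (a : ℤ) : Int.castRingHom (ZMod p) a = 0 ↔ (p : ℤ) ∣ a := by
  rw [eq_intCast]
  exact ZMod.intCast_zmod_eq_zero_iff_dvd a p

theorem dvd_r4 {p m : ℕ} (hp : p.Prime) (hm : 1 ≤ m) {a b : ℤ} {f : Fin (m + 1) → ℤ} {x z : ℤ} (hc : IsCoprime x z)
    (h1 : (p : ℤ) ∣ q4 a b x z) (h2 : (p : ℤ) ∣ fe f x z) : (p : ℤ) ∣ r4 a b f := by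
  have : Fact p.Prime := ⟨hp⟩
  rw [← A2_iff] at h1 h2 ⊢
  have h1' : q4 (Int.castRingHom (ZMod p) a) (Int.castRingHom (ZMod p) b) (Int.castRingHom (ZMod p) x)
      (Int.castRingHom (ZMod p) z) = 0 := by
    rw [← h1]
    unfold q4
    simp only [map_add, map_mul, map_pow]
  have h2' : fe (fun i => Int.castRingHom (ZMod p) (f i)) (Int.castRingHom (ZMod p) x)
      (Int.castRingHom (ZMod p) z) = 0 := by
    rw [← h2]
    unfold fe
    simp only [map_sum, map_mul, map_pow]
  have h3 := A2_rf hm _ _ _ _ _ (A2_cop (p := p) hc) h1' h2'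
  unfold r4 at h3 ⊢
  have h4 : (C (Int.castRingHom (ZMod p) a) * X ^ 4 + C (Int.castRingHom (ZMod p) b) : (ZMod p)[X]) =
      (C a * X ^ 4 + C b : ℤ[X]).map (Int.castRingHom (ZMod p)) := by
    simp only [Polynomial.map_add, Polynomial.map_mul, map_C, Polynomial.map_pow, map_X]
  rw [h4, ← A2_map, resultant_map_map] at h3
  exact h3

end HZ
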