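import Pool.Agent.Lib.MP_10e784_agHA.A2

/-!
# LEAF A3: the square class of the value of the quartic form

MODEL: `sol_data` in `MP_10e784_agH/PE.lean` (the private `PE_sq`: every nonzero integer is `d k²` with `d` squarefree).
PROOF.  `q4 a b x z = d k²` with `d` squarefree, `k ≠ 0`.  `y² = g d k² F`, so `k ∣ y` (`Int.pow_dvd_pow_iff`) and `g d F = (y / k)²`.  Let `p ∣ d` be prime and `p ∤ g`, `p ∤ F(x, z)`: then `p ∣ (y / k)`, `p² ∣ g d F`, so `p² ∣ d`: contradiction.  If `p ∣ g` then `p ∣ g r4`; if `p ∣ F(x, z)`: `p ∣ q4 a b x z`, so `p ∣ r4` (`dvd_r4`).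
-/

set_option autoImplicit false

namespace HZ

open Finset Polynomial MWS HY

private theorem A3_sq (N : ℤ) (hN : N ≠ 0) : ∃ d k : ℤ, N = d * k ^ 2 ∧ Squarefree d := by
  obtain ⟨a, b, hab, ha⟩ := Nat.sq_mul_squarefree N.natAbs
  have h1 : ((b : ℤ) ^ 2 * (a : ℤ)) = |N| := by
    rw [← Int.natCast_natAbs, ← hab]
    push_cast
    ring
  have h2 : Squarefree (a : ℤ) := Int.squarefree_natCast.2 ha
  rcases abs_choice N with h | h
  · refine ⟨a, b, ?_, h2⟩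
    rw [h] at h1
    rw [← h1]
    ring
  · refine ⟨-a, b, ?_, fun x hx => h2 x (dvd_neg.1 hx)⟩
    rw [h] at h1
    linear_combination h1

theorem sol_data4 {m : ℕ} (hm : 1 ≤ m) (g a b : ℤ) (f : Fin (m + 1) → ℤ) {x z y : ℤ} (hc : IsCoprime x z)
    (hy : y ^ 2 = g * q4 a b x z * fe f x z) (h0 : q4 a b x z ≠ 0) :
    ∃ d k : ℤ, q4 a b x z = d * k ^ 2 ∧ Squarefree d ∧
      (∀ p : ℕ, p.Prime → (p : ℤ) ∣ d → (p : ℤ) ∣ g * r4 a b f) ∧ IsSquare (g * d * fe f x z) := by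
  obtain ⟨d, k, hdk, hsq⟩ := A3_sq (q4 a b x z) h0
  have hk : k ≠ 0 := by
    intro h
    apply h0
    rw [hdk, h]
    ring
  have h1 : k ^ 2 * (g * d * fe f x z) = y ^ 2 := by
    rw [hy, hdk]
    ring
  have h2 : k ∣ y := by
    rw [← Int.pow_dvd_pow_iff (n := 2) two_ne_zero]
    exact ⟨_, h1.symm⟩
  obtain ⟨s, hs⟩ := h2
  have h3 : g * d * fe f x z = s ^ 2 := by
    rw [hs, mul_pow k s] at h1
    exact mul_left_cancel₀ (pow_ne_zero 2 hk) h1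
  refine ⟨d, k, hdk, hsq, fun p hp hpd => ?_, ⟨s, by rw [h3, sq]⟩⟩
  have hpp : Prime (p : ℤ) := Nat.prime_iff_prime_int.1 hp
  have hpq : (p : ℤ) ∣ q4 a b x z := by
    rw [hdk]
    exact Dvd.dvd.mul_right hpd _
  by_contra hcon
  have h6 : ¬ (p : ℤ) ∣ fe f x z := fun h => hcon (Dvd.dvd.mul_left (dvd_r4 hp hm hc hpq h) g)
  have h7 : ¬ (p : ℤ) ∣ g := fun h => hcon (Dvd.dvd.mul_right h _)
  have h8 : ¬ (p : ℤ) ∣ g * fe f x z := by
    intro h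
    rcases hpp.dvd_or_dvd h with h | h
    · exact h7 h
    · exact h6 h
  have h9 : d * (g * fe f x z) = s ^ 2 := by
    rw [← h3]
    ring
  have h10 : (p : ℤ) ∣ s := hpp.dvd_of_dvd_pow (h9 ▸ Dvd.dvd.mul_right hpd _)
  have h11 : (p : ℤ) ^ 2 ∣ d * (g * fe f x z) := by
    rw [h9]
    exact pow_dvd_pow_of_dvd h10 2
  have h12 := hpp.pow_dvd_of_dvd_mul_right 2 h8 h11
  rw [sq] at h12
  exact hpp.not_isUnit (hsq _ h12)

end HZ
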