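import Pool.Agent.Lib.MP_10e784_agHA.Defs
import Pool.Agent.Lib.MP_10e784_agW.RA
import Pool.Agent.Lib.MP_10e784_agW.RB

/-!
# LEAF A4: the point of `Y² = X³ + 81 a b d² X` and its reductions

MODEL: `exists_pt` in `MP_10e784_agH/PG.lean` (private `PG_inv`).
PROOF.  `z = 0`: `P = 0` (`WeierstrassCurve.Affine.Point.zero`), `rd p P = none` by definition, and `p ∣ z` for all `p`.
`z ≠ 0`: `X = 9 a d x² / z²`, `Y = 27 a d² x k / z³`: `Y² = 729 a² d⁴ x² k² / z⁶` and `X³ + 81 a b d² X = 729 a² d³ x² (a x⁴ + b z⁴) / z⁶`, equal because `a x⁴ + b z⁴ = d k²`.  Nonsingular: `EW_nons` (`MP_10e784_agW/RA.lean`) with `dsc (81 a b d²) 0 = 4 (81 a b d²)³ ≠ 0`.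
`rd p (.some X Y h) = if p ∣ X.den then none else some (rc p X, rc p Y)`.  Let `p ≥ 5`, `p ∤ a d`.  If `p ∤ z`: `X` is `p`-integral, `rc p X = 9 a d x² (z²)⁻¹` (`rc_int`, `rc_mul`, `rc` of the inverse as in `PG_inv`).
If `p ∣ z`: `p ∤ x`, so `p ∤ 9 a d x²`; `X z² = 9 a d x²`; if `p ∤ X.den` then `rc p X · rc p (z²) = rc p (9 a d x²)`, `0 = 9 a d x²` in `ZMod p`: contradiction; so `p ∣ X.den`.
-/

set_option autoImplicit false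

namespace HZ

open Finset MWS HY

private theorem A4_inv {p : ℕ} (hp : p.Prime) {V : ℤ} (hV : ¬ (p : ℤ) ∣ V) :
    ¬ p ∣ ((V : ℚ)⁻¹).den ∧ rc p ((V : ℚ)⁻¹) = ((V : ℤ) : ZMod p)⁻¹ := by
  have := Fact.mk hp
  have h1 : ¬ p ∣ ((V : ℚ)⁻¹).den := by
    intro h
    have h2 : (((V : ℚ)⁻¹).den : ℤ) ∣ V := by
      have h3 := Rat.den_dvd 1 V
      rw [Rat.divInt_eq_div, Int.cast_one, one_div] at h3
      exact h3
    exact hV ((Int.natCast_dvd_natCast.2 h).trans h2)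
  refine ⟨h1, ?_⟩
  rw [rc_cast]
  have hVQ : (V : ℚ) ≠ 0 := by
    intro h
    apply hV
    rw [Int.cast_eq_zero.1 h]
    exact dvd_zero _
  have h4 := rc_mul hp (rc_int hp V).1 h1
  rw [mul_inv_cancel₀ hVQ, (rc_int hp V).2] at h4
  have h5 : rc p (1 : ℚ) = 1 := by
    have h6 := (rc_int hp 1).2
    rw [Int.cast_one, Int.cast_one] at h6
    exact h6
  rw [h5, rc_cast] at h4
  exact eq_inv_of_mul_eq_one_right h4.2.symm

private theorem A4_eq {a b d k x z : ℤ} (hz : z ≠ 0) (h : q4 a b x z = d * k ^ 2) :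
    (27 * a * d ^ 2 * x * k / (z : ℚ) ^ 3 : ℚ) ^ 2 =
      (((9 * (a * d) * x ^ 2 : ℤ) : ℚ) * ((z ^ 2 : ℤ) : ℚ)⁻¹) ^ 3 +
        ((81 * (a * b * d ^ 2) : ℤ) : ℚ) * (((9 * (a * d) * x ^ 2 : ℤ) : ℚ) * ((z ^ 2 : ℤ) : ℚ)⁻¹) +
        ((0 : ℤ) : ℚ) := by
  have hzQ : (z : ℚ) ≠ 0 := Int.cast_ne_zero.2 hz
  have h1 : (a : ℚ) * (x : ℚ) ^ 4 + b * (z : ℚ) ^ 4 = d * (k : ℚ) ^ 2 := by
    unfold q4 at h
    exact_mod_cast h
  push_cast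
  field_simp
  linear_combination (-729 * (a : ℚ) ^ 2 * (d : ℚ) ^ 3 * (x : ℚ) ^ 2) * h1

theorem exists_pt4 {a b d k x z : ℤ} (ha : a ≠ 0) (hb : b ≠ 0) (hd : d ≠ 0) (hc : IsCoprime x z)
    (h : q4 a b x z = d * k ^ 2) :
    ∃ P : Pt ℚ (81 * (a * b * d ^ 2)) 0, ∀ p : ℕ, p.Prime → 5 ≤ p → ¬ (p : ℤ) ∣ a * d →
      ((p : ℤ) ∣ z → rd p P = none) ∧
      (¬ (p : ℤ) ∣ z → ∃ η : ZMod p, rd p P =
        some (9 * ((a : ZMod p) * (d : ZMod p)) * (x : ZMod p) ^ 2 * ((z : ZMod p) ^ 2)⁻¹, η)) := by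
  rcases eq_or_ne z 0 with rfl | hz
  · refine ⟨.zero, fun p _ _ _ => ⟨fun _ => rfl, fun hz => absurd (dvd_zero _) hz⟩⟩
  have hdsc : ((dsc (81 * (a * b * d ^ 2)) 0 : ℤ) : ℚ) ≠ 0 := by
    apply Int.cast_ne_zero.2
    unfold dsc
    have h1 : (81 * (a * b * d ^ 2) : ℤ) ≠ 0 :=
      mul_ne_zero (by norm_num) (mul_ne_zero (mul_ne_zero ha hb) (pow_ne_zero 2 hd))
    have h2 := pow_ne_zero 3 h1
    omega
  obtain ⟨X, hX⟩ : ∃ X : ℚ, X = ((9 * (a * d) * x ^ 2 : ℤ) : ℚ) * ((z ^ 2 : ℤ) : ℚ)⁻¹ := ⟨_, rfl⟩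
  obtain ⟨Y, hY⟩ : ∃ Y : ℚ, Y = 27 * a * d ^ 2 * x * k / (z : ℚ) ^ 3 := ⟨_, rfl⟩
  have heq : Y ^ 2 = X ^ 3 + ((81 * (a * b * d ^ 2) : ℤ) : ℚ) * X + ((0 : ℤ) : ℚ) := by
    rw [hX, hY]
    exact A4_eq hz h
  have hns := (EW_nons (F := ℚ) (81 * (a * b * d ^ 2)) 0 two_ne_zero hdsc X Y).2 heq
  refine ⟨.some X Y hns, fun p hp hp5 hpa => ?_⟩
  have hfact := Fact.mk hp
  have h3 : rd p (.some X Y hns : Pt ℚ (81 * (a * b * d ^ 2)) 0) =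
      if p ∣ X.den then none else some (rc p X, rc p Y) := rfl
  have hpr : Prime (p : ℤ) := Nat.prime_iff_prime_int.1 hp
  refine ⟨fun hpz => ?_, fun hpz => ?_⟩
  · rw [h3, if_pos]
    by_contra hden
    have hX2 : X * ((z ^ 2 : ℤ) : ℚ) = ((9 * (a * d) * x ^ 2 : ℤ) : ℚ) := by
      have : ((z ^ 2 : ℤ) : ℚ) ≠ 0 := Int.cast_ne_zero.2 (pow_ne_zero 2 hz)
      rw [hX, mul_assoc, inv_mul_cancel₀ this, mul_one]
    have h4 := rc_mul hp hden (rc_int hp (z ^ 2)).1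
    rw [hX2, (rc_int hp _).2, (rc_int hp _).2] at h4
    have h5 : (((z ^ 2 : ℤ)) : ZMod p) = 0 := by
      rw [ZMod.intCast_zmod_eq_zero_iff_dvd]
      exact dvd_pow hpz two_ne_zero
    have h6 := h4.2
    rw [h5, mul_zero, ZMod.intCast_zmod_eq_zero_iff_dvd] at h6
    rcases hpr.dvd_or_dvd h6 with h7 | h7
    · rcases hpr.dvd_or_dvd h7 with h8 | h8
      · have h9 : p ∣ 9 := by exact_mod_cast h8
        have h10 : p ∣ 3 := by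
          have : (9 : ℕ) = 3 ^ 2 := by norm_num
          rw [this] at h9
          exact hp.dvd_of_dvd_pow h9
        have := Nat.le_of_dvd (by norm_num) h10
        omega
      · exact hpa h8
    · have h8 := hpr.dvd_of_dvd_pow h7
      obtain ⟨u, v, huv⟩ := hc
      have h9 : (p : ℤ) ∣ 1 := by
        rw [← huv]
        exact dvd_add (Dvd.dvd.mul_left h8 u) (Dvd.dvd.mul_left hpz v)
      exact hpr.not_isUnit (isUnit_of_dvd_one h9)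
  · have hpz2 : ¬ (p : ℤ) ∣ z ^ 2 := fun h7 => hpz (hpr.dvd_of_dvd_pow h7)
    have hi := A4_inv hp hpz2
    have h1 := rc_mul hp (rc_int hp (9 * (a * d) * x ^ 2)).1 hi.1
    rw [← hX] at h1
    refine ⟨rc p Y, ?_⟩
    rw [h3, if_neg h1.1, h1.2, hi.2, (rc_int hp _).2]
    push_cast
    rfl

end HZ
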