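import Pool.Agent.Lib.MP_10e784_agHA.Defs
import Pool.Agent.Lib.MP_10e784_agH.PA
import Pool.Agent.Lib.MP_10e784_agH.SA
import Pool.Agent.Lib.MP_10e784_agH.SB

/-!
# LEAF A5: the density of the local condition

MODEL: `loc_dens` in `MP_10e784_agH/SC.lean` (private `SC_e`, `SC_nz`); `dens2` (`SA.lean`), `evv_dich`, `evv_ne`, `fe_evv` (`SB.lean`), `fe_smul` (`PA.lean`).
PROOF.  All the conditions of `Loc4` are invariant under `(x, z) ↦ (t x, t z)`, `t ≠ 0` (`q4` is multiplied by `t⁴`, replace `s` by `t² s`; the last expression is multiplied by `t ^ (n + 4)`, a square as `n` is even).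
For `c ≠ 0` there is `e` such that for all `Q`: if the conditions hold for some `t c`, `t ≠ 0`, then `IsSquare (∑ i, Q i * evv n c i + e)`: if there is no `s ≠ 0` with `q4 a b c = d s²` then `e = 0` works (the hypothesis is impossible); otherwise
`g d (fe f c + d s² fe Q c) = g (d s)² (fe Q c + fe f c / (d s²))`: this is `g`-times a square times `..`.  So with `g` not a square the condition is that `g (fe Q c + e)` is a square: use `evv n c` replaced by the vector `g • evv n c`, that is `IsSquare (∑ i, Q i * (g * evv n c i) + g * e)`.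
The candidates: if `ζ = none` then `z = 0`: `(x, z) = x (1, 0)`.  If `ζ = some (ξ, η)` then `z ≠ 0` and `x² / z² = ξ / (9 a d)`: if `ξ / (9 a d) = r²` is a square: `(x, z) = z (± r, 1)`, candidates `c₁ = (r, 1)`, `c₂ = (-r, 1)`; if not: `Loc4` is empty.
`dens2` for `v₁ = g • evv n c₁`, `v₂ = g • evv n c₂` (the dichotomy follows from `evv_dich`; for linear independence scale by the unit `g`: `LinearIndependent.units_smul` or `LinearIndependent.pair_iff`).
-/

set_option autoImplicit false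

namespace HZ

open Finset MWS HY

private theorem A5_e {p : ℕ} [Fact p.Prime] {n : ℕ} (hn : Even n) (g a b d : ZMod p) (hd : d ≠ 0)
    (f : Fin (n + 4 + 1) → ZMod p) (c : ZMod p × ZMod p) :
    ∃ e : ZMod p, ∀ (Q : Fin (n + 1) → ZMod p) (t : ZMod p), t ≠ 0 →
      (∃ s, s ≠ 0 ∧ q4 a b (t * c.1) (t * c.2) = d * s ^ 2) →
      IsSquare (g * d * (fe f (t * c.1) (t * c.2) +
        q4 a b (t * c.1) (t * c.2) * fe Q (t * c.1) (t * c.2))) →
      IsSquare (∑ i, Q i * (g • evv n c) i + e) := by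
  have hq : ∀ t : ZMod p, q4 a b (t * c.1) (t * c.2) = t ^ 4 * q4 a b c.1 c.2 := by
    intro t
    unfold q4
    ring
  by_cases hS : ∃ s, s ≠ 0 ∧ q4 a b c.1 c.2 = d * s ^ 2
  · obtain ⟨s, hs0, hs⟩ := hS
    obtain ⟨m, rfl⟩ := hn
    refine ⟨g * (fe f c.1 c.2 / (d * s ^ 2)), ?_⟩
    intro Q t ht _ hsq
    have h0 : ∑ i, Q i * (g • evv (m + m) c) i = g * fe Q c.1 c.2 := by
      rw [fe_evv, Finset.mul_sum]
      refine Finset.sum_congr rfl fun i _ => ?_
      rw [Pi.smul_apply, smul_eq_mul]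
      ring
    rw [h0]
    rw [fe_smul, fe_smul, hq, hs] at hsq
    obtain ⟨r, hr⟩ := hsq
    have hτ : d * s * t ^ (m + 2) ≠ 0 := mul_ne_zero (mul_ne_zero hd hs0) (pow_ne_zero _ ht)
    refine ⟨r / (d * s * t ^ (m + 2)), ?_⟩
    rw [div_mul_div_comm, ← hr, eq_div_iff (mul_ne_zero hτ hτ)]
    have h6 : t ^ (m + m + 4) = t ^ (m + 2) * t ^ (m + 2) := by
      rw [← pow_add]
      congr 1
      omega
    have h7 : t ^ 4 * t ^ (m + m) = t ^ (m + 2) * t ^ (m + 2) := by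
      rw [← pow_add, ← pow_add]
      congr 1
      omega
    have h8 : fe f c.1 c.2 / (d * s ^ 2) * (d * s ^ 2) = fe f c.1 c.2 :=
      div_mul_cancel₀ _ (mul_ne_zero hd (pow_ne_zero 2 hs0))
    rw [h6]
    linear_combination (g * d * (t ^ (m + 2) * t ^ (m + 2))) * h8 -
      (g * d * (d * s ^ 2) * fe Q c.1 c.2) * h7
  · refine ⟨0, ?_⟩
    intro Q t ht hk _
    exfalso
    apply hS
    obtain ⟨s, hs0, hs⟩ := hk
    refine ⟨s / t ^ 2, div_ne_zero hs0 (pow_ne_zero 2 ht), ?_⟩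
    rw [hq] at hs
    have ht4 : t ^ 4 ≠ 0 := pow_ne_zero 4 ht
    apply mul_left_cancel₀ ht4
    rw [hs, div_pow]
    field_simp

private theorem A5_dich {p : ℕ} [Fact p.Prime] {n : ℕ} (hn : Even n) {g : ZMod p} (hg : g ≠ 0)
    (c₁ c₂ : ZMod p × ZMod p) (h1 : c₁ ≠ 0) (h2 : c₂ ≠ 0) :
    (∃ t : ZMod p, t ≠ 0 ∧ g • evv n c₂ = t ^ 2 • (g • evv n c₁)) ∨
      LinearIndependent (ZMod p) ![g • evv n c₁, g • evv n c₂] := by
  rcases evv_dich hn c₁ c₂ h1 h2 with ⟨t, ht, h⟩ | h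
  · left
    exact ⟨t, ht, by rw [h, smul_comm]⟩
  · right
    rw [LinearIndependent.pair_iff] at h ⊢
    intro s t hst
    rw [smul_smul, smul_smul] at hst
    obtain ⟨k1, k2⟩ := h _ _ hst
    exact ⟨(mul_eq_zero.1 k1).resolve_right hg, (mul_eq_zero.1 k2).resolve_right hg⟩

private theorem A5_nz {p : ℕ} [Fact p.Prime] (hp : 29 ≤ p) : (9 : ZMod p) ≠ 0 := by
  intro h
  have h1 : ((9 : ℕ) : ZMod p) = 0 := by exact_mod_cast h
  rw [ZMod.natCast_eq_zero_iff] at h1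
  have := Nat.le_of_dvd (by norm_num) h1
  omega

private theorem A5_fin {p : ℕ} [Fact p.Prime] (hp : 29 ≤ p) {n : ℕ} (hn : Even n) (g a b d : ZMod p)
    (hg : g ≠ 0) (hd : d ≠ 0) (f : Fin (n + 4 + 1) → ZMod p) (ζ : Option (ZMod p × ZMod p))
    (c : Fin 2 → ZMod p × ZMod p) (hc0 : ∀ i, c i ≠ 0)
    (hc : ∀ x z : ZMod p, (x ≠ 0 ∨ z ≠ 0) → (z = 0 → ζ = none) →
      (z ≠ 0 → ∃ η, ζ = some (9 * (a * d) * x ^ 2 * (z ^ 2)⁻¹, η)) →
      ∃ i, ∃ t, t ≠ 0 ∧ x = t * (c i).1 ∧ z = t * (c i).2) :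
    (Nat.card (Loc4 p n g a b d f ζ) : ℝ) ≤ 4 / 5 * (p : ℝ) ^ (n + 1) := by
  obtain ⟨e₀, he₀⟩ := A5_e hn g a b d hd f (c 0)
  obtain ⟨e₁, he₁⟩ := A5_e hn g a b d hd f (c 1)
  have hsub : Loc4 p n g a b d f ζ ⊆
      {Q : Fin (n + 1) → ZMod p | IsSquare (∑ i, Q i * (g • evv n (c 0)) i + e₀) ∨
        IsSquare (∑ i, Q i * (g • evv n (c 1)) i + e₁)} := by
    rintro Q ⟨x, z, hxz, hk, hz0, hz1, hsq⟩
    obtain ⟨i, t, ht, hx, hz⟩ := hc x z hxz hz0 hz1
    rw [hx, hz] at hk hsq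
    fin_cases i
    · exact Or.inl (he₀ Q t ht hk hsq)
    · exact Or.inr (he₁ Q t ht hk hsq)
  have hcard := Nat.card_mono (Set.toFinite _) hsub
  have hd2 := dens2 hp (g • evv n (c 0)) (g • evv n (c 1)) (smul_ne_zero hg (evv_ne n (c 0) (hc0 0)))
    (A5_dich hn hg (c 0) (c 1) (hc0 0) (hc0 1)) e₀ e₁
  rw [Fintype.card_fin] at hd2
  refine le_trans ?_ hd2
  exact_mod_cast hcard

theorem loc_dens4 {p : ℕ} [Fact p.Prime] (hp : 29 ≤ p) {n : ℕ} (hn : Even n) (g a b d : ZMod p) (hg : g ≠ 0) (ha : a ≠ 0)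
    (hd : d ≠ 0) (f : Fin (n + 4 + 1) → ZMod p) (ζ : Option (ZMod p × ZMod p)) :
    (Nat.card (Loc4 p n g a b d f ζ) : ℝ) ≤ 4 / 5 * (p : ℝ) ^ (n + 1) := by
  rcases ζ with _ | ⟨ξ, η⟩
  · refine A5_fin hp hn g a b d hg hd f none (fun _ => (1, 0))
      (fun _ h => one_ne_zero (congrArg Prod.fst h : (1 : ZMod p) = 0)) ?_
    intro x z hxz _ hz1
    have hz : z = 0 := by
      by_contra hz
      obtain ⟨η, hη⟩ := hz1 hz
      exact absurd hη (by simp)
    refine ⟨0, x, ?_, (mul_one x).symm, ?_⟩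
    · rcases hxz with h | h
      · exact h
      · exact absurd hz h
    · change z = x * 0
      rw [hz, mul_zero]
  · obtain ⟨r, hr⟩ : ∃ r : ZMod p, ∀ y : ZMod p, 9 * (a * d) * y ^ 2 = ξ → y = r ∨ y = -r := by
      by_cases h : ∃ r : ZMod p, 9 * (a * d) * r ^ 2 = ξ
      · obtain ⟨r, h⟩ := h
        refine ⟨r, fun y hy => ?_⟩
        have h1 : y ^ 2 = r ^ 2 :=
          mul_left_cancel₀ (mul_ne_zero (A5_nz hp) (mul_ne_zero ha hd)) (hy.trans h.symm)
        exact sq_eq_sq_iff_eq_or_eq_neg.1 h1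
      · exact ⟨0, fun y hy => absurd ⟨y, hy⟩ h⟩
    refine A5_fin hp hn g a b d hg hd f (some (ξ, η)) ![(r, 1), (-r, 1)] ?_ ?_
    · intro i
      fin_cases i
      · exact fun h => one_ne_zero (congrArg Prod.snd h : (1 : ZMod p) = 0)
      · exact fun h => one_ne_zero (congrArg Prod.snd h : (1 : ZMod p) = 0)
    · intro x z _ hz0 hz1
      have hz : z ≠ 0 := fun h => absurd (hz0 h) (by simp)
      obtain ⟨η', hη⟩ := hz1 hz
      have hξ : ξ = 9 * (a * d) * x ^ 2 * (z ^ 2)⁻¹ := (Prod.mk.inj (Option.some.inj hη)).1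
      have h1 : 9 * (a * d) * (x / z) ^ 2 = ξ := by
        rw [hξ, div_pow, div_eq_mul_inv]
        ring
      have hx : x = z * (x / z) := (mul_div_cancel₀ x hz).symm
      rcases hr _ h1 with h | h
      · refine ⟨0, z, hz, ?_, ?_⟩
        · change x = z * r
          rw [← h]
          exact hx
        · change z = z * 1
          rw [mul_one]
      · refine ⟨1, z, hz, ?_, ?_⟩
        · change x = z * -r
          rw [← h]
          exact hx
        · change z = z * 1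
          rw [mul_one]

end HZ
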