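import Pool.Agent.Lib.MP_10e784_agHA.A1
import Pool.Agent.Lib.MP_10e784_agH.PA
import Pool.Agent.Lib.MP_10e784_agW.RC
import Pool.Agent.Lib.MP_10e784_agW.RD

/-!
# LEAF A6: the local condition for a solution

MODEL: `mem_loc` in `MP_10e784_agH/SF.lean`.
PROOF.  `q4_ne`: if `a x⁴ + b z⁴ = 0` in `ZMod p`: `z = 0` gives `a x⁴ = 0`, `x ≠ 0`, so `a = 0` and `-(a b) = 0` is a square; `z ≠ 0`: `-(a b) = a · (-b) = a² (x / z)⁴` is a square.
`mem_loc4`: `p ≠ 2`, `p ∤ dsc`: `na (81 a b d²) 0 p = p` (`RD_neg`), `kill` gives `(p + 1) • R = 0`, so `L • R = 0` for all `R : Pt (ZMod p) ..`, and `rd p P = rd p r₀` (`rd_class`).  The conditions of `Loc4` for the residues of `x`, `z`: `(x, z) ≠ 0` by coprimality; `s = k` (`k ≠ 0` modulo `p` as `p ∤ q4 a b x z`); `z = 0` modulo `p` iff `p ∣ z`; the last one from `hsq` (`fe_add`, `fe_mul4`, `fe_map`, `q4_map` for `Int.castRingHom (ZMod p)`).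
-/

set_option autoImplicit false

namespace HZ

open Finset MWS HY

theorem q4_ne {p : ℕ} [Fact p.Prime] {a b : ZMod p} (hab : ¬ IsSquare (-(a * b))) {x z : ZMod p} (h : x ≠ 0 ∨ z ≠ 0) :
    q4 a b x z ≠ 0 := by
  intro h0
  unfold q4 at h0
  by_cases hz : z = 0
  · have hx : x ≠ 0 := by
      rcases h with h | h
      · exact h
      · exact absurd hz h
    have h1 : a * x ^ 4 = 0 := by
      rw [hz] at h0
      linear_combination h0
    have ha : a = 0 := (mul_eq_zero.1 h1).resolve_right (pow_ne_zero 4 hx)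
    exact hab ⟨0, by rw [ha]; ring⟩
  · refine hab ⟨a * x ^ 2 / z ^ 2, ?_⟩
    rw [div_mul_div_comm, eq_div_iff (mul_ne_zero (pow_ne_zero 2 hz) (pow_ne_zero 2 hz))]
    linear_combination (-a) * h0

theorem mem_loc4 {n : ℕ} (g a b : ℤ) (f : Fin (n + 4 + 1) → ℤ) (Q : Fin (n + 1) → ℤ) {x z d k : ℤ} (hc : IsCoprime x z)
    (hk : q4 a b x z = d * k ^ 2) (hsq : IsSquare (g * d * fe (f + mul4 a b Q) x z)) {p : ℕ} (hp : p.Prime) (hp5 : 5 ≤ p)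
    (h1 : ¬ IsSquare (-1 : ZMod p)) (hq : ¬ (p : ℤ) ∣ q4 a b x z) (hd : ¬ (p : ℤ) ∣ dsc (81 * (a * b * d ^ 2)) 0) {L : ℕ}
    (hL : p + 1 ∣ L) (P r₀ Q' : Pt ℚ (81 * (a * b * d ^ 2)) 0) (hP : P = r₀ + L • Q')
    (hPr : ((p : ℤ) ∣ z → rd p P = none) ∧
      (¬ (p : ℤ) ∣ z → ∃ η : ZMod p, rd p P =
        some (9 * ((a : ZMod p) * (d : ZMod p)) * (x : ZMod p) ^ 2 * ((z : ZMod p) ^ 2)⁻¹, η))) :
    cf p Q ∈ Loc4 p n (g : ZMod p) (a : ZMod p) (b : ZMod p) (d : ZMod p) (cf p f) (rd p r₀) := by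
  have : Fact p.Prime := ⟨hp⟩
  have hp2 : p ≠ 2 := by omega
  have hxz : ((x : ℤ) : ZMod p) ≠ 0 ∨ ((z : ℤ) : ZMod p) ≠ 0 := by
    by_contra hcon
    push Not at hcon
    obtain ⟨e1, e2⟩ := hcon
    obtain ⟨u, v, huv⟩ := hc
    have e3 : ((u * x + v * z : ℤ) : ZMod p) = ((1 : ℤ) : ZMod p) := by rw [huv]
    push_cast at e3
    rw [e1, e2] at e3
    simp at e3
  have hq4 : q4 (a : ZMod p) (b : ZMod p) (x : ZMod p) (z : ZMod p) = ((q4 a b x z : ℤ) : ZMod p) :=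
    q4_map (Int.castRingHom (ZMod p)) a b x z
  have hne : ((q4 a b x z : ℤ) : ZMod p) ≠ 0 := fun h => hq ((ZMod.intCast_zmod_eq_zero_iff_dvd _ _).1 h)
  have hkill : ∀ R : Pt (ZMod p) (81 * (a * b * d ^ 2)) 0, L • R = 0 := by
    intro R
    obtain ⟨t, rfl⟩ := hL
    rw [mul_comm (p + 1) t, mul_nsmul', kill hp2 hd (RD_neg hp2 _ h1), nsmul_zero]
  have hrd : rd p P = rd p r₀ := by
    rw [hP]
    exact rd_class hp2 hd L hkill r₀ Q'
  refine ⟨((x : ℤ) : ZMod p), ((z : ℤ) : ZMod p), hxz, ?_, ?_, ?_, ?_⟩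
  · refine ⟨((k : ℤ) : ZMod p), ?_, ?_⟩
    · intro h0
      apply hne
      rw [hk]
      push_cast
      rw [h0]
      ring
    · rw [hq4, hk]
      push_cast
      ring
  · intro hz
    rw [← hrd]
    exact hPr.1 ((ZMod.intCast_zmod_eq_zero_iff_dvd _ _).1 hz)
  · intro hz
    rw [← hrd]
    exact hPr.2 fun h => hz ((ZMod.intCast_zmod_eq_zero_iff_dvd _ _).2 h)
  · obtain ⟨y, hy⟩ := hsq
    refine ⟨((y : ℤ) : ZMod p), ?_⟩
    have h3 : fe (cf p f) ((x : ℤ) : ZMod p) ((z : ℤ) : ZMod p) = ((fe f x z : ℤ) : ZMod p) :=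
      fe_map (Int.castRingHom (ZMod p)) f x z
    have h4 : fe (cf p Q) ((x : ℤ) : ZMod p) ((z : ℤ) : ZMod p) = ((fe Q x z : ℤ) : ZMod p) :=
      fe_map (Int.castRingHom (ZMod p)) Q x z
    have h5 : ((g * d * fe (f + mul4 a b Q) x z : ℤ) : ZMod p) = ((y * y : ℤ) : ZMod p) := by rw [hy]
    rw [fe_add, fe_mul4] at h5
    rw [h3, h4, hq4]
    push_cast at h5 ⊢
    exact h5

end HZ
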