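import Pool.Agent.Lib.MP_10e784_agH.SDefs

/-!
# LEAF A7: few classes for the curves `Y² = X³ + 81 a b d² X`

MODEL: the private `SL_R2`, `SL_few` in `MP_10e784_agH/SL.lean` (store: `MP_10e784_agH_SL.lean`, lines 15 - 130).
PROOF.  `hR 0 (a b d²)`: `81 (a b d²) - 27 · 0² = 81 (a b d²)`, `54 · 0³ - 243 (0 · ..) = 0` (rewrite the arguments of `Few` along these equalities).  The prime factors of `a b d²` are prime factors of `a b` or of `N`; those of `0² - 4 (a b d²)` are `2` or of the same kind: the number is at most `(w + ω(a b)) + (1 + w + ω(a b)) + C0 ≤ t`.  `Few` is monotone in `t` (`SL_few`).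
-/

set_option autoImplicit false

namespace HZ

open Finset MWS HY

/-- `Few` is monotone -/
private theorem A7_few {A B : ℤ} {t t' : ℕ} (h : t ≤ t') (hF : Few A B t) : Few A B t' := by
  obtain ⟨r, hr⟩ := hF
  refine ⟨fun i => if hi : (i : ℕ) < 2 ^ t then r ⟨i, hi⟩ else 0, fun P => ?_⟩
  obtain ⟨i, Q, hQ⟩ := hr P
  have hi : (i : ℕ) < 2 ^ t' := lt_of_lt_of_le i.2 (Nat.pow_le_pow_right (by norm_num) h)
  refine ⟨⟨i, hi⟩, Q, ?_⟩
  show P = (if hi : (i : ℕ) < 2 ^ t then r ⟨(i : ℕ), hi⟩ else 0) + 2 • Q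
  rw [dif_pos i.2]
  exact hQ

theorem few4 {C0 : ℕ} (hR : ∀ a b : ℤ, b ≠ 0 → a ^ 2 - 4 * b ≠ 0 →
    Few (81 * b - 27 * a ^ 2) (54 * a ^ 3 - 243 * (a * b))
      (b.natAbs.primeFactors.card + (a ^ 2 - 4 * b).natAbs.primeFactors.card + C0))
    {a b N : ℤ} (ha : a ≠ 0) (hb : b ≠ 0) (hN : N ≠ 0) {w t : ℕ} (hw : N.natAbs.primeFactors.card ≤ w)
    (ht : 2 * w + (2 * (a * b).natAbs.primeFactors.card + C0 + 1) ≤ t) (d : ℤ) (hd : d ≠ 0)
    (hdN : ∀ p : ℕ, p.Prime → (p : ℤ) ∣ d → (p : ℤ) ∣ N) : Few (81 * (a * b * d ^ 2)) 0 t := by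
  have hab : a * b ≠ 0 := mul_ne_zero ha hb
  have hβ : a * b * d ^ 2 ≠ 0 := mul_ne_zero hab (pow_ne_zero 2 hd)
  have h4 : (0 : ℤ) ^ 2 - 4 * (a * b * d ^ 2) ≠ 0 := by
    have : (0 : ℤ) ^ 2 - 4 * (a * b * d ^ 2) = (-4) * (a * b * d ^ 2) := by ring
    rw [this]
    exact mul_ne_zero (by norm_num) hβ
  have key := hR 0 (a * b * d ^ 2) hβ h4
  have e1 : 81 * (a * b * d ^ 2) - 27 * (0 : ℤ) ^ 2 = 81 * (a * b * d ^ 2) := by ring
  have e2 : 54 * (0 : ℤ) ^ 3 - 243 * (0 * (a * b * d ^ 2)) = 0 := by ring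
  rw [e1, e2] at key
  have hsub : ∀ p : ℕ, p.Prime → (p : ℤ) ∣ a * b * d ^ 2 →
      p ∈ (a * b).natAbs.primeFactors ∪ N.natAbs.primeFactors := by
    intro p hp hpd
    rw [Finset.mem_union]
    rcases (Nat.prime_iff_prime_int.1 hp).dvd_or_dvd hpd with h | h
    · exact Or.inl (Nat.mem_primeFactors.2 ⟨hp, Int.natCast_dvd.1 h, Int.natAbs_ne_zero.2 hab⟩)
    · have h1 := hdN p hp ((Nat.prime_iff_prime_int.1 hp).dvd_of_dvd_pow h)
      exact Or.inr (Nat.mem_primeFactors.2 ⟨hp, Int.natCast_dvd.1 h1, Int.natAbs_ne_zero.2 hN⟩)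
  have hU : ((a * b).natAbs.primeFactors ∪ N.natAbs.primeFactors).card ≤ (a * b).natAbs.primeFactors.card + w :=
    (Finset.card_union_le _ _).trans (Nat.add_le_add_left hw _)
  have c1 : (a * b * d ^ 2).natAbs.primeFactors.card ≤ (a * b).natAbs.primeFactors.card + w := by
    refine (Finset.card_le_card fun p hp => ?_).trans hU
    obtain ⟨hp1, hp2, _⟩ := Nat.mem_primeFactors.1 hp
    exact hsub p hp1 (Int.natCast_dvd.2 hp2)
  have c2 : ((0 : ℤ) ^ 2 - 4 * (a * b * d ^ 2)).natAbs.primeFactors.card ≤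
      1 + ((a * b).natAbs.primeFactors.card + w) := by
    have hsub2 : ((0 : ℤ) ^ 2 - 4 * (a * b * d ^ 2)).natAbs.primeFactors ⊆
        {2} ∪ ((a * b).natAbs.primeFactors ∪ N.natAbs.primeFactors) := by
      intro p hp
      obtain ⟨hp1, hp2, _⟩ := Nat.mem_primeFactors.1 hp
      have hp3 : (p : ℤ) ∣ (0 : ℤ) ^ 2 - 4 * (a * b * d ^ 2) := Int.natCast_dvd.2 hp2
      have hp4 : (p : ℤ) ∣ 2 ^ 2 * (a * b * d ^ 2) := by
        have : (2 : ℤ) ^ 2 * (a * b * d ^ 2) = -((0 : ℤ) ^ 2 - 4 * (a * b * d ^ 2)) := by ring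
        rw [this]
        exact (dvd_neg).2 hp3
      rw [Finset.mem_union]
      rcases (Nat.prime_iff_prime_int.1 hp1).dvd_or_dvd hp4 with h | h
      · have h2 := (Nat.prime_iff_prime_int.1 hp1).dvd_of_dvd_pow h
        have h3 : p ∣ 2 := by exact_mod_cast h2
        exact Or.inl (Finset.mem_singleton.2 ((Nat.prime_dvd_prime_iff_eq hp1 Nat.prime_two).1 h3))
      · exact Or.inr (hsub p hp1 h)
    refine (Finset.card_le_card hsub2).trans ((Finset.card_union_le _ _).trans ?_)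
    rw [Finset.card_singleton]
    exact Nat.add_le_add_left hU 1
  refine A7_few ?_ key
  omega

end HZ
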