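import Pool.Agent.Lib.MP_10e784_agHA.A1
import Pool.Agent.Lib.MP_10e784_agHA.A3
import Pool.Agent.Lib.MP_10e784_agHA.A4
import Pool.Agent.Lib.MP_10e784_agHA.A5
import Pool.Agent.Lib.MP_10e784_agHA.A6
import Pool.Agent.Lib.MP_10e784_agH.PF
import Pool.Agent.Lib.MP_10e784_agBS.S3
import Pool.Agent.Lib.MP_10e784_agBS.S7
import Pool.Agent.Lib.MP_10e784_agV.VM

/-!
# LEAF A8: the sieve for fixed `f`

MODEL: `one_fibre` in `MP_10e784_agH/SG.lean` (private `SG_union`, `SG_count`, `SG_box`: copy them); here it is simpler: one curve, one square class.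
PROOF.  `N = g r4 a b f ≠ 0`, `T' = {p ∈ S : p ∤ N}`: `|T'| ≥ |S| - w`.  If `T' = ∅` the left side is at most `(2 h + 1) ^ (n + 1) ≤ (4 h) ^ (n + 1)` (`SG_box`; `h ≥ 1` from the empty product `≤ ∏ ≤ h`).
`T' ≠ ∅`, `p₀ ∈ T'`.  `s` = the set of `dset` (`MP_10e784_agH/PF.lean`) for `N`.  For every `d ∈ s` with `d ≠ 0` whose prime factors divide `N`: `few_cls` (`MP_10e784_agBS/S7.lean`) with `hF d` and `p₀` (`p ∤ dsc (81 a b d²) 0 = 4 (81 a b d²)³` for `p ∈ T'`: `p ≥ 29`, `p ∤ a b` as `-(a b)` is not a square modulo `p`, `p ∤ d` as `p ∤ N`): representatives `r d : Fin (L ^ (t + 1)) → Pt ..`.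
Let `Q` be in the box with a solution `(x, z, y)` of `f + mul4 a b Q`: `q4 a b x z ≠ 0` (`q4_ne` modulo `p₀` and `q4_map`), `sol_data4` (with `r4_add`), `exists_pt4`, class `i`; for `p ∈ T'`: `mem_loc4` gives `cf p Q ∈ Loc4 p n g a b d (cf p f) (rd p (r d i))`.
So the set is contained in the union over `d ∈ s`, `i` of `{Q in the box : ∀ p ∈ T', cf p Q ∈ Loc4 ..}` (for the `d` not as above: the empty set), and each has at most `(4 h) ^ (n + 1) (4/5) ^ |T'|` elements (`SG_count`, `loc_dens4`; `g, a, d ≠ 0` modulo `p ∈ T'`: `p ∣ g` would give `p ∣ N`).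
-/

set_option autoImplicit false

namespace HZ

open Finset MWS HY

private theorem A8_union {ι I : Type} [Fintype ι] [DecidableEq ι] [Fintype I] {h : ℕ} (Q : (ι → ℤ) → Prop)
    (R : I → (ι → ℤ) → Prop) (hQ : ∀ c, (∀ i, |c i| ≤ (h : ℤ)) → Q c → ∃ a, R a c) (T : ℝ)
    (hR : ∀ a, (Nat.card {c : ι → ℤ // (∀ i, |c i| ≤ (h : ℤ)) ∧ R a c} : ℝ) ≤ T) :
    (Nat.card {c : ι → ℤ // (∀ i, |c i| ≤ (h : ℤ)) ∧ Q c} : ℝ) ≤ (Fintype.card I : ℝ) * T := by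
  have h1 := VM_union (ι := ι) (H := h) (N := Fintype.card I) Q (fun k => R ((Fintype.equivFin I).symm k))
    (by
      intro c hc hQc
      obtain ⟨a, ha⟩ := hQ c hc hQc
      exact ⟨Fintype.equivFin I a, by simpa using ha⟩)
    1 T zero_le_one (fun k => by
      rw [mul_one]
      exact hR _)
  simpa using h1

private theorem A8_count {n h : ℕ} (T : Finset ℕ) (hT : ∀ p ∈ T, p.Prime) (hq : ∏ p ∈ T, p ≤ h)
    (R : (Fin (n + 1) → ℤ) → Prop) (Z : (p : ℕ) → Set (Fin (n + 1) → ZMod p))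
    (hZ : ∀ p ∈ T, (Nat.card (Z p) : ℝ) ≤ 4 / 5 * (p : ℝ) ^ (n + 1)) (hR : ∀ Q, R Q → ∀ p ∈ T, cf p Q ∈ Z p) :
    (Nat.card {Q : Fin (n + 1) → ℤ // (∀ i, |Q i| ≤ (h : ℤ)) ∧ R Q} : ℝ) ≤
      (4 * (h : ℝ)) ^ (n + 1) * (4 / 5) ^ T.card := by
  classical
  rw [VM_card]
  have hb := box_crt (ι := Fin (n + 1)) T hT (fun _ => h) (fun _ => hq)
    (fun p b => if b ∈ Z p then (1 : ℝ) else 0)
    (fun p b => by split_ifs <;> norm_num) (fun _ => 4 / 5)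
    (fun p hp hne => by
      have h3 := hZ p hp
      rw [sum_boole]
      refine le_trans (le_of_eq ?_) (h3.trans (le_of_eq ?_))
      · rw [Nat.card_eq_fintype_card, Fintype.card_subtype]
      · simp)
  rw [prod_const, prod_const, card_univ, Fintype.card_fin] at hb
  refine le_trans ?_ hb
  rw [card_filter]
  push_cast
  refine sum_le_sum fun c _ => ?_
  rw [prod_boole]
  by_cases hc : R c
  · rw [if_pos hc, if_pos]
    exact fun p hp => hR c hc p hp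
  · rw [if_neg hc]
    split_ifs <;> norm_num

private theorem A8_box {n h : ℕ} (hh : 1 ≤ h) (Q : (Fin (n + 1) → ℤ) → Prop) :
    (Nat.card {c : Fin (n + 1) → ℤ // (∀ i, |c i| ≤ (h : ℤ)) ∧ Q c} : ℝ) ≤ (4 * (h : ℝ)) ^ (n + 1) := by
  classical
  rw [VM_card h Q]
  have h1 : ((Fintype.piFinset (fun _ : Fin (n + 1) => Icc (-(h : ℤ)) h)).filter Q).card ≤ (2 * h + 1) ^ (n + 1) := by
    refine (card_filter_le _ _).trans ?_
    rw [Fintype.card_piFinset, Finset.prod_const, Int.card_Icc, card_univ, Fintype.card_fin]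
    refine Nat.pow_le_pow_left ?_ _
    omega
  have h2 : (((Fintype.piFinset (fun _ : Fin (n + 1) => Icc (-(h : ℤ)) h)).filter Q).card : ℝ) ≤
      ((2 * h + 1 : ℕ) : ℝ) ^ (n + 1) := by
    exact_mod_cast h1
  refine h2.trans ?_
  have h3 : (1 : ℝ) ≤ h := by exact_mod_cast hh
  refine pow_le_pow_left₀ (by positivity) ?_ _
  push_cast
  linarith

theorem one_fibre4 {n : ℕ} (hn : Even n) {g a b : ℤ} (ha : a ≠ 0) (hb : b ≠ 0) (f : Fin (n + 4 + 1) → ℤ)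
    (hR : g * r4 a b f ≠ 0) {w t : ℕ} (hw : (g * r4 a b f).natAbs.primeFactors.card ≤ w)
    (hF : ∀ d : ℤ, d ≠ 0 → (∀ p : ℕ, p.Prime → (p : ℤ) ∣ d → (p : ℤ) ∣ g * r4 a b f) → Few (81 * (a * b * d ^ 2)) 0 t)
    (S : Finset ℕ) {h L : ℕ} (hL : 1 ≤ L)
    (hS : ∀ p ∈ S, p.Prime ∧ 29 ≤ p ∧ ¬ IsSquare (-1 : ZMod p) ∧ ¬ IsSquare ((-(a * b) : ℤ) : ZMod p) ∧ p + 1 ∣ L ∧
      2 * p + 1 ≤ L) (hq : ∏ p ∈ S, p ≤ h) :
    (Nat.card {Q : Fin (n + 1) → ℤ // (∀ i, |Q i| ≤ (h : ℤ)) ∧ Sol4 g a b (f + mul4 a b Q)} : ℝ) ≤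
      2 ^ (w + 1) * (L : ℝ) ^ (t + 1) * ((4 * (h : ℝ)) ^ (n + 1) * (4 / 5) ^ (S.card - w)) := by
  classical
  obtain ⟨M, hMd⟩ : ∃ M : ℤ, M = g * r4 a b f := ⟨_, rfl⟩
  rw [← hMd] at hR hw hF
  have hprod : ∀ T : Finset ℕ, T ⊆ S → ∏ p ∈ T, p ≤ ∏ p ∈ S, p := fun T hT =>
    Finset.prod_le_prod_of_subset_of_one_le' hT fun p hp _ => (hS p hp).1.one_lt.le
  have hh : 1 ≤ h := by
    have := (hprod ∅ (Finset.empty_subset S)).trans hq
    simpa using this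
  obtain ⟨T', hT'def⟩ : ∃ T' : Finset ℕ, T' = S.filter fun p : ℕ => ¬ (p : ℤ) ∣ M := ⟨_, rfl⟩
  have hT'S : T' ⊆ S := by
    rw [hT'def]
    exact Finset.filter_subset _ _
  have hT'M : ∀ p ∈ T', ¬ (p : ℤ) ∣ M := fun p hp => by
    rw [hT'def] at hp
    exact (Finset.mem_filter.1 hp).2
  have hcard : S.card - w ≤ T'.card := by
    have h1 : (S.filter fun p : ℕ => (p : ℤ) ∣ M) ⊆ M.natAbs.primeFactors := by
      intro p hp
      rw [Finset.mem_filter] at hp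
      rw [Nat.mem_primeFactors]
      exact ⟨(hS p hp.1).1, Int.natCast_dvd.1 hp.2, by simpa using hR⟩
    have h2 := (Finset.card_le_card h1).trans hw
    have h3 := Finset.card_filter_add_card_filter_not (s := S) (fun p : ℕ => (p : ℤ) ∣ M)
    rw [hT'def]
    omega
  have hL1 : (1 : ℝ) ≤ (L : ℝ) := by exact_mod_cast hL
  have hC : (1 : ℝ) ≤ 2 ^ (w + 1) * (L : ℝ) ^ (t + 1) :=
    one_le_mul_of_one_le_of_one_le (one_le_pow₀ one_le_two) (one_le_pow₀ hL1)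
  have hpow : ((4 : ℝ) / 5) ^ T'.card ≤ (4 / 5) ^ (S.card - w) :=
    pow_le_pow_of_le_one (by norm_num) (by norm_num) hcard
  have h4h : (0 : ℝ) ≤ (4 * (h : ℝ)) ^ (n + 1) := by positivity
  suffices hmain : (Nat.card {Q : Fin (n + 1) → ℤ // (∀ i, |Q i| ≤ (h : ℤ)) ∧ Sol4 g a b (f + mul4 a b Q)} : ℝ) ≤
      2 ^ (w + 1) * (L : ℝ) ^ (t + 1) * ((4 * (h : ℝ)) ^ (n + 1) * (4 / 5) ^ T'.card) by
    refine hmain.trans ?_
    refine mul_le_mul_of_nonneg_left (mul_le_mul_of_nonneg_left hpow h4h) (by linarith)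
  rcases T'.eq_empty_or_nonempty with hT | ⟨p₀, hp₀⟩
  · rw [hT, Finset.card_empty, pow_zero, mul_one]
    refine (A8_box hh _).trans ?_
    nlinarith
  obtain ⟨s, hs1, hs2⟩ := dset hR hw
  obtain ⟨N, hN⟩ : ∃ N : ℕ, N = L ^ (t + 1) := ⟨_, rfl⟩
  -- the primes do not divide a, b
  have hab : ∀ p ∈ S, ¬ (p : ℤ) ∣ a * b := by
    intro p hp h1
    refine (hS p hp).2.2.2.1 ?_
    rw [(ZMod.intCast_zmod_eq_zero_iff_dvd (-(a * b)) p).2 ((dvd_neg).2 h1)]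
    exact IsSquare.zero
  have hdp : ∀ d : ℤ, (∀ p : ℕ, p.Prime → (p : ℤ) ∣ d → (p : ℤ) ∣ M) → ∀ p ∈ T', ¬ (p : ℤ) ∣ d :=
    fun d hd p hp h1 => hT'M p hp (hd p (hS p (hT'S hp)).1 h1)
  have hdsc : ∀ d : ℤ, (∀ p : ℕ, p.Prime → (p : ℤ) ∣ d → (p : ℤ) ∣ M) → ∀ p ∈ T',
      ¬ (p : ℤ) ∣ dsc (81 * (a * b * d ^ 2)) 0 := by
    intro d hd p hp h1
    obtain ⟨c1, c2, -⟩ := hS p (hT'S hp)
    have hp' : Prime (p : ℤ) := Nat.prime_iff_prime_int.1 c1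
    have e1 : dsc (81 * (a * b * d ^ 2)) 0 = 2 ^ 2 * (3 ^ 4 * (a * b * d ^ 2)) ^ 3 := by
      unfold dsc
      ring
    rw [e1] at h1
    have hsmall : ∀ r : ℕ, r ≤ 3 → 1 ≤ r → ¬ (p : ℤ) ∣ (r : ℤ) := by
      intro r hr1 hr2 h2
      have h3 := Nat.le_of_dvd (by omega) (Int.natCast_dvd_natCast.1 h2)
      omega
    rcases hp'.dvd_or_dvd h1 with h2 | h2
    · exact hsmall 2 (by norm_num) (by norm_num) (by exact_mod_cast hp'.dvd_of_dvd_pow h2)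
    · rcases hp'.dvd_or_dvd (hp'.dvd_of_dvd_pow h2) with h3 | h3
      · exact hsmall 3 (by norm_num) (by norm_num) (by exact_mod_cast hp'.dvd_of_dvd_pow h3)
      · rcases hp'.dvd_or_dvd h3 with h4 | h4
        · exact hab p (hT'S hp) h4
        · exact hdp d hd p hp (hp'.dvd_of_dvd_pow h4)
  have hcls : ∀ d : ℤ, ∃ r : Fin N → Pt ℚ (81 * (a * b * d ^ 2)) 0, d ≠ 0 →
      (∀ p : ℕ, p.Prime → (p : ℤ) ∣ d → (p : ℤ) ∣ M) → ∀ P, ∃ i, ∃ Q', P = r i + L • Q' := by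
    intro d
    by_cases hd : d ≠ 0 ∧ ∀ p : ℕ, p.Prime → (p : ℤ) ∣ d → (p : ℤ) ∣ M
    · obtain ⟨hd0, hd1⟩ := hd
      obtain ⟨b1, b2, -, -, -, b6⟩ := hS p₀ (hT'S hp₀)
      have hpd := hdsc d hd1 p₀ hp₀
      have hd' : dsc (81 * (a * b * d ^ 2)) 0 ≠ 0 := by
        intro h0
        exact hpd (by rw [h0]; exact dvd_zero _)
      obtain ⟨r, hr⟩ := few_cls hd' (hF d hd0 hd1) b1 (by omega) hpd b6
      rw [hN]
      exact ⟨r, fun _ _ => hr⟩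
    · exact ⟨fun _ => 0, fun h1 h2 => absurd ⟨h1, h2⟩ hd⟩
  choose r hr using hcls
  -- the conditions
  let Rr : {x // x ∈ s} × Fin N → (Fin (n + 1) → ℤ) → Prop := fun c Q =>
    (c.1 : ℤ) ≠ 0 ∧ (∀ p : ℕ, p.Prime → (p : ℤ) ∣ (c.1 : ℤ) → (p : ℤ) ∣ M) ∧
    ∀ p ∈ T', cf p Q ∈ Loc4 p n (g : ZMod p) (a : ZMod p) (b : ZMod p) (((c.1 : ℤ) : ℤ) : ZMod p) (cf p f)
      (rd p (r c.1 c.2))
  have hun := A8_union (ι := Fin (n + 1)) (I := {x // x ∈ s} × Fin N) (h := h)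
    (fun Q => Sol4 g a b (f + mul4 a b Q)) Rr ?_ ((4 * (h : ℝ)) ^ (n + 1) * (4 / 5) ^ T'.card) ?_
  · refine hun.trans ?_
    refine mul_le_mul_of_nonneg_right ?_ (by positivity)
    rw [Fintype.card_prod, Fintype.card_fin, Fintype.card_coe, hN]
    push_cast
    refine mul_le_mul_of_nonneg_right ?_ (by positivity)
    exact_mod_cast hs1
  · -- a solution satisfies one of the conditions
    rintro Q - ⟨x, z, y, hc, hy⟩
    have hq0 : ∀ p ∈ S, ¬ (p : ℤ) ∣ q4 a b x z := by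
      intro p hp h0
      obtain ⟨c1, -, -, c4, -⟩ := hS p hp
      have : Fact p.Prime := ⟨c1⟩
      have h1 : ¬ IsSquare (-((a : ZMod p) * (b : ZMod p))) := by
        have e1 : (-((a : ZMod p) * (b : ZMod p))) = ((-(a * b) : ℤ) : ZMod p) := by push_cast; rfl
        rw [e1]
        exact c4
      refine q4_ne h1 (x := ((x : ℤ) : ZMod p)) (z := ((z : ℤ) : ZMod p)) ?_ ?_
      · by_contra hcon
        push Not at hcon
        have hx : (p : ℤ) ∣ x := (ZMod.intCast_zmod_eq_zero_iff_dvd x p).1 hcon.1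
        have hz : (p : ℤ) ∣ z := (ZMod.intCast_zmod_eq_zero_iff_dvd z p).1 hcon.2
        have hu := hc.isUnit_of_dvd' hx hz
        exact (Nat.prime_iff_prime_int.1 c1).not_isUnit hu
      · have h2 := q4_map (Int.castRingHom (ZMod p)) a b x z
        have h3 : (Int.castRingHom (ZMod p)) (q4 a b x z) = 0 :=
          (ZMod.intCast_zmod_eq_zero_iff_dvd _ p).2 h0
        rw [h3] at h2
        exact h2
    have hne : q4 a b x z ≠ 0 := by
      intro h0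
      exact hq0 p₀ (hT'S hp₀) (by rw [h0]; exact dvd_zero _)
    obtain ⟨d, k, hk, hsf, hdM, hsq⟩ := sol_data4 (m := n + 4) (by omega) g a b (f + mul4 a b Q) hc hy hne
    rw [r4_add, ← hMd] at hdM
    have hd0 : d ≠ 0 := by
      intro h0
      rw [h0, zero_mul] at hk
      exact hne hk
    obtain ⟨P, hP⟩ := exists_pt4 ha hb hd0 hc hk
    obtain ⟨i, Q', hPa⟩ := hr d hd0 hdM P
    refine ⟨(⟨d, hs2 d hsf hdM⟩, i), hd0, hdM, fun p hp => ?_⟩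
    obtain ⟨c1, c2, c3, c4, c5, c6⟩ := hS p (hT'S hp)
    refine mem_loc4 g a b f Q hc hk hsq c1 (by omega) c3 (hq0 p (hT'S hp)) (hdsc d hdM p hp) c5 P _ Q' hPa
      (hP p c1 (by omega) ?_)
    intro h1
    have hp' : Prime (p : ℤ) := Nat.prime_iff_prime_int.1 c1
    rcases hp'.dvd_or_dvd h1 with h2 | h2
    · exact hab p (hT'S hp) (dvd_mul_of_dvd_left h2 b)
    · exact hdp d hdM p hp h2
  · -- the number for one condition
    rintro ⟨d, i⟩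
    by_cases hV : (d : ℤ) ≠ 0 ∧ ∀ p : ℕ, p.Prime → (p : ℤ) ∣ (d : ℤ) → (p : ℤ) ∣ M
    · obtain ⟨v0, v1⟩ := hV
      refine A8_count T' (fun p hp => (hS p (hT'S hp)).1) ((hprod T' hT'S).trans hq) _
        (fun p => Loc4 p n (g : ZMod p) (a : ZMod p) (b : ZMod p) (((d : ℤ) : ℤ) : ZMod p) (cf p f)
          (rd p (r d i))) (fun p hp => ?_) (fun Q hQ p hp => hQ.2.2 p hp)
      obtain ⟨c1, c2, -⟩ := hS p (hT'S hp)
      have : Fact p.Prime := ⟨c1⟩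
      refine loc_dens4 c2 hn _ _ _ _ (fun h0 => ?_) (fun h0 => ?_) (fun h0 => ?_) _ _
      · refine hT'M p hp ?_
        rw [hMd]
        exact dvd_mul_of_dvd_left ((ZMod.intCast_zmod_eq_zero_iff_dvd g p).1 h0) _
      · exact hab p (hT'S hp) (dvd_mul_of_dvd_left ((ZMod.intCast_zmod_eq_zero_iff_dvd a p).1 h0) b)
      · exact hdp d v1 p hp ((ZMod.intCast_zmod_eq_zero_iff_dvd (d : ℤ) p).1 h0)
    · have h0 : Nat.card {c : Fin (n + 1) → ℤ // (∀ i, |c i| ≤ (h : ℤ)) ∧ Rr (d, i) c} = 0 := by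
        have : IsEmpty {c : Fin (n + 1) → ℤ // (∀ i, |c i| ≤ (h : ℤ)) ∧ Rr (d, i) c} :=
          ⟨fun z => hV ⟨z.2.2.1, z.2.2.2.1⟩⟩
        exact Nat.card_of_isEmpty
      rw [h0]
      push_cast
      positivity

end HZ
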