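import Pool.Agent.Lib.MP_10e784_agHA.A1

/-!
# LEAF A9: averaging over the shifts by `(a x⁴ + b z⁴) Q`

MODEL: `average` in `MP_10e784_agH/SI.lean` (private `SI_card`).
PROOF.  The map `(F, Q) ↦ (F - mul4 a b Q, Q)` is injective from the pairs with `|F_i| ≤ H`, `Pr F`, `|Q_i| ≤ H` to the pairs `(F', Q)` with `|F'_i| ≤ (1 + |a| + |b|) H`, `|Q_i| ≤ H`, `Pr (F' + mul4 a b Q)` (`mul4_bd`); the number of `Q` is `(2 H + 1) ^ (n + 1)`.
-/

set_option autoImplicit false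

namespace HZ

open Finset MWS HY

private theorem A9_card {α : Type*} {p : α → Prop} (s : Finset α) (h : ∀ x, x ∈ s ↔ p x) :
    Nat.card {x // p x} = s.card := Nat.subtype_card s h

theorem average4 {n : ℕ} (a b : ℤ) {H : ℕ} (Pr : (Fin (n + 4 + 1) → ℤ) → Prop) :
    Nat.card {F : Fin (n + 4 + 1) → ℤ // (∀ i, |F i| ≤ (H : ℤ)) ∧ Pr F} * (2 * H + 1) ^ (n + 1) ≤
      ∑ F ∈ Fintype.piFinset (fun _ : Fin (n + 4 + 1) => Icc (-((1 + |a| + |b|) * (H : ℤ))) ((1 + |a| + |b|) * (H : ℤ))),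
        Nat.card {Q : Fin (n + 1) → ℤ // (∀ i, |Q i| ≤ (H : ℤ)) ∧ Pr (F + mul4 a b Q)} := by
  classical
  set BQ : Finset (Fin (n + 1) → ℤ) := Fintype.piFinset (fun _ => Icc (-(H : ℤ)) H) with hBQ
  set A : Finset (Fin (n + 4 + 1) → ℤ) :=
    (Fintype.piFinset (fun _ => Icc (-(H : ℤ)) (H : ℤ))).filter Pr with hA
  set BF : Finset (Fin (n + 4 + 1) → ℤ) :=
    Fintype.piFinset (fun _ => Icc (-((1 + |a| + |b|) * (H : ℤ))) ((1 + |a| + |b|) * (H : ℤ))) with hBF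
  have h1 : Nat.card {F : Fin (n + 4 + 1) → ℤ // (∀ i, |F i| ≤ (H : ℤ)) ∧ Pr F} = A.card := by
    refine A9_card A fun F => ?_
    rw [hA, mem_filter, Fintype.mem_piFinset]
    simp only [mem_Icc, abs_le]
  have h2 : ∀ F : Fin (n + 4 + 1) → ℤ,
      Nat.card {Q : Fin (n + 1) → ℤ // (∀ i, |Q i| ≤ (H : ℤ)) ∧ Pr (F + mul4 a b Q)} =
        (BQ.filter fun Q => Pr (F + mul4 a b Q)).card := by
    intro F
    refine A9_card _ fun Q => ?_
    rw [hBQ, mem_filter, Fintype.mem_piFinset]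
    simp only [mem_Icc, abs_le]
  have h3 : BQ.card = (2 * H + 1) ^ (n + 1) := by
    rw [hBQ, Fintype.card_piFinset, prod_const, card_univ, Fintype.card_fin, Int.card_Icc]
    have h4 : ((H : ℤ) + 1 - -(H : ℤ)).toNat = 2 * H + 1 := by omega
    rw [h4]
  rw [h1, ← h3, ← card_product]
  simp only [h2]
  rw [← card_sigma]
  refine card_le_card_of_injOn
    (fun x => (⟨x.1 - mul4 a b x.2, x.2⟩ : (_ : Fin (n + 4 + 1) → ℤ) × (Fin (n + 1) → ℤ))) ?_ ?_
  · rintro ⟨F, Q⟩ hx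
    have hx' := mem_product.1 (mem_coe.1 hx)
    have hF := mem_filter.1 hx'.1
    have hF1 := Fintype.mem_piFinset.1 hF.1
    have hQ1 := Fintype.mem_piFinset.1 hx'.2
    refine mem_coe.2 (mem_sigma.2 ⟨?_, mem_filter.2 ⟨hx'.2, ?_⟩⟩)
    · show F - mul4 a b Q ∈ BF
      rw [hBF, Fintype.mem_piFinset]
      intro i
      have h5 := mul4_bd a b Q (H := H) (fun i => abs_le.2 (mem_Icc.1 (hQ1 i))) i
      have h6 := abs_le.1 h5
      have h7 := mem_Icc.1 (hF1 i)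
      rw [mem_Icc, Pi.sub_apply]
      constructor
      · linarith [h6.2, h7.1]
      · linarith [h6.1, h7.2]
    · show Pr (F - mul4 a b Q + mul4 a b Q)
      rw [sub_add_cancel]
      exact hF.2
  · rintro ⟨F, Q⟩ _ ⟨F', Q'⟩ _ h
    have h5 : F - mul4 a b Q = F' - mul4 a b Q' := congrArg Sigma.fst h
    have h6 : Q = Q' := congrArg (fun x : (_ : Fin (n + 4 + 1) → ℤ) × (Fin (n + 1) → ℤ) => x.2) h
    subst h6
    have h7 : F = F' := by
      have := congrArg (fun G => G + mul4 a b Q) h5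
      simpa using this
    rw [h7]

end HZ
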