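import Pool.Agent.Lib.MP_10e784_agH.SDefs

/-!
# The curves `y² = g (a x⁴ + b z⁴) F(x, z)` with a fixed quartic form: definitions
-/

set_option autoImplicit false

namespace HZ

open Finset Polynomial MWS HY

section
variable {R : Type*} [CommRing R]

/-- the value of the quartic form `a x⁴ + b z⁴` -/
def q4 (a b x z : R) : R := a * x ^ 4 + b * z ^ 4

/-- the coefficients of the product of `a x⁴ + b z⁴` and `Q` -/
noncomputable def mul4 {n : ℕ} (a b : R) (Q : Fin (n + 1) → R) : Fin (n + 4 + 1) → R :=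
  fun i => ((C a * X ^ 4 + C b) * pol Q).coeff i

/-- the resultant of `a x⁴ + b z⁴` and `f` -/
noncomputable def r4 {m : ℕ} (a b : R) (f : Fin (m + 1) → R) : R := resultant (C a * X ^ 4 + C b) (pol f) 4 m

end

/-- a coprime integral solution -/
def Sol4 {m : ℕ} (g a b : ℤ) (f : Fin (m + 1) → ℤ) : Prop :=
  ∃ x z y : ℤ, IsCoprime x z ∧ y ^ 2 = g * q4 a b x z * fe f x z

/-- the local condition: `Q` such that the curve `y² = g (a x⁴ + b z⁴) (f + (a x⁴ + b z⁴) Q)` has a point `(x, z)` modulo `p` with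
`a x⁴ + b z⁴ = d · square`, which gives on `Y² = X³ + 81 a b d² X` a point with reduction `ζ` -/
def Loc4 (p n : ℕ) (g a b d : ZMod p) (f : Fin (n + 4 + 1) → ZMod p) (ζ : Option (ZMod p × ZMod p)) :
    Set (Fin (n + 1) → ZMod p) :=
  {Q | ∃ x z : ZMod p, (x ≠ 0 ∨ z ≠ 0) ∧ (∃ s, s ≠ 0 ∧ q4 a b x z = d * s ^ 2) ∧ (z = 0 → ζ = none) ∧
    (z ≠ 0 → ∃ η, ζ = some (9 * (a * d) * x ^ 2 * (z ^ 2)⁻¹, η)) ∧
    IsSquare (g * d * (fe f x z + q4 a b x z * fe Q x z))}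

open Classical in
/-- the primes `p` in `(x / K, x]` such that `-1` and `D` are not squares modulo `p` and all prime factors of `p + 1` are at most
`x ^ (1 / A)` -/
noncomputable def S2 (D : ℤ) (A K x : ℝ) : Finset ℕ :=
  (Ioc ⌊x / K⌋₊ ⌊x⌋₊).filter fun p =>
    p.Prime ∧ ¬ IsSquare (-1 : ZMod p) ∧ ¬ IsSquare ((D : ℤ) : ZMod p) ∧ ∀ q : ℕ, q.Prime → q ∣ p + 1 → (q : ℝ) ^ A ≤ x

end HZ
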