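import Pool.Agent.Lib.MP_10e784_agHA.Defs

/-!
# Local solubility of `y² = (a x⁴ + b z⁴) F`: definitions
-/

set_option autoImplicit false

namespace HZ

open Finset Polynomial MWS HY

/-- the curve `y² = (a x⁴ + b z⁴) F` has a point over the field `K` -/
def SolK4 (K : Type) [Field K] (a b : ℤ) {m : ℕ} (f : Fin (m + 1) → ℤ) : Prop :=
  ∃ x z y : K, (x ≠ 0 ∨ z ≠ 0) ∧ y ^ 2 = ((a : K) * x ^ 4 + (b : K) * z ^ 4) * fe (fun i => ((f i : ℤ) : K)) x z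

/-- `(a x⁴ + b z⁴) F` is a constant times a square modulo `p` -/
def Bad4 (p : ℕ) (a b : ℤ) {m : ℕ} (f : Fin (m + 1) → ℤ) : Prop :=
  ∃ (c : ZMod p) (s : (ZMod p)[X]), (C (a : ZMod p) * X ^ 4 + C (b : ZMod p)) * pol (cf p f) = C c * s ^ 2

/-- the forms of the box with leading coefficient `a u`, `0 < u`, `u ≡ 1` modulo `M` -/
def T4 (a : ℤ) (M H : ℕ) {m : ℕ} (f : Fin (m + 1) → ℤ) : Prop :=
  (∀ k, |f k| ≤ (H : ℤ)) ∧ ∃ u : ℤ, 0 < u ∧ (M : ℤ) ∣ u - 1 ∧ f (Fin.last m) = a * u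

/-- the coefficient of `X ^ j` in the remainder of `a ^ m f` modulo `a X⁴ + b` -/
def rem4 (a b : ℤ) (j : ℕ) {m : ℕ} (f : Fin (m + 1) → ℤ) : ℤ :=
  ∑ i : Fin (m + 1), if (i : ℕ) % 4 = j then a ^ (m - (i : ℕ) / 4) * (-b) ^ ((i : ℕ) / 4) * f i else 0

end HZ
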