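import Pool.Agent.Lib.MP_10e784_agHA.E0
import Pool.Agent.Lib.MP_10e784_agHA.A1
import Pool.Agent.Lib.MP_10e784_agH.PA
import Pool.Agent.Lib.MP_10e784_agH.EA
import Pool.Agent.Lib.MP_10e784_agH.EC

/-!
# LEAF E1: everywhere locally soluble

MODEL: `ED.lean`, `EC.lean` in `MP_10e784_agH` (and `MP_10e784_agHE/A.lean` in the store archive MP_10e784_ag_Hyp3.tgz: `sol_p2`, `sol_lead2`, `els2`).
PROOF.  `P1` = the maximum of that of `many_x (m + 4)` and `4`.  The point `(1, 0)`: `(a · 1 + b · 0) f_m = a² u`, a square if `u` is: real numbers (`BLS.sq_real`, `u > 0`), `p = 2` (`BLS.sq_two`, `8 ∣ u - 1`), `2 < p ≤ P0` (`BLS.sq_odd`, `p ∣ P0! ∣ u - 1`).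
`p > P0`: not `Bad4`, so `many_x` for `(C a * X ^ 4 + C b) * pol (cf p f)` (degree `≤ m + 4`) gives `x` in `ZMod p` where the value is a nonzero square; lift `x` to `x₀ : ℤ`, the point `(x₀, 1)`: `BLS.sq_unit` as in `sol_p2` (`pol_eval`, `fe_map`, `q4_map`).
-/

set_option autoImplicit false

namespace HZ

open Polynomial HY

private theorem E1_p {p : ℕ} [Fact p.Prime] (hp : p ≠ 2) (a b : ℤ) {m : ℕ} (f : Fin (m + 1) → ℤ) (x : ZMod p)
    (h0 : ((C (a : ZMod p) * X ^ 4 + C (b : ZMod p)) * pol (cf p f)).eval x ≠ 0)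
    (hs : IsSquare (((C (a : ZMod p) * X ^ 4 + C (b : ZMod p)) * pol (cf p f)).eval x)) : SolK4 ℚ_[p] a b f := by
  obtain ⟨x₀, hx₀⟩ := ZMod.intCast_surjective x
  obtain ⟨V, hV⟩ : ∃ V : ℤ, V = (a * x₀ ^ 4 + b * 1 ^ 4) * fe f x₀ 1 := ⟨_, rfl⟩
  have hf : ∀ (R : Type) [CommRing R], fe (fun j => ((f j : ℤ) : R)) ((x₀ : ℤ) : R) 1 = ((fe f x₀ 1 : ℤ) : R) := by
    intro R _
    have h := fe_map (Int.castRingHom R) f x₀ 1
    rw [map_one] at h
    exact h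
  have hVR : ∀ (R : Type) [CommRing R], ((a : R) * ((x₀ : ℤ) : R) ^ 4 + (b : R) * 1 ^ 4) *
      fe (fun j => ((f j : ℤ) : R)) ((x₀ : ℤ) : R) 1 = ((V : ℤ) : R) := by
    intro R _
    rw [hf, hV]
    push_cast
    ring
  have hev : ((C (a : ZMod p) * X ^ 4 + C (b : ZMod p)) * pol (cf p f)).eval x = ((V : ℤ) : ZMod p) := by
    rw [eval_mul, eval_add, eval_mul, eval_C, eval_C, eval_pow, eval_X, pol_eval, ← hx₀, ← hVR (ZMod p), one_pow,
      mul_one]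
    rfl
  rw [hev] at h0 hs
  obtain ⟨t, ht⟩ := hs
  have ht0 : t ≠ 0 := by
    rintro rfl
    apply h0
    rw [ht, mul_zero]
  have h1 : PadicInt.toZMod ((V : ℤ) : ℤ_[p]) = t ^ 2 := by
    rw [map_intCast, ht, sq]
  obtain ⟨s, hs, -⟩ := BLS.sq_unit p hp ((V : ℤ) : ℤ_[p]) t ht0 h1
  refine ⟨((x₀ : ℤ) : ℚ_[p]), 1, (s : ℚ_[p]), Or.inr one_ne_zero, ?_⟩
  rw [hVR ℚ_[p]]
  have h2 : (((V : ℤ) : ℤ_[p]) : ℚ_[p]) = ((s ^ 2 : ℤ_[p]) : ℚ_[p]) := by rw [hs]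
  rw [PadicInt.coe_intCast, PadicInt.coe_pow] at h2
  exact h2.symm

private theorem E1_lead (K : Type) [Field K] (a b u : ℤ) {m : ℕ} (f : Fin (m + 1) → ℤ) (hu : f (Fin.last m) = a * u)
    (h : IsSquare ((u : ℤ) : K)) : SolK4 K a b f := by
  obtain ⟨y, hy⟩ := h
  refine ⟨1, 0, (a : K) * y, Or.inl one_ne_zero, ?_⟩
  have hf : fe (fun i => ((f i : ℤ) : K)) 1 0 = ((f (Fin.last m) : ℤ) : K) := by
    unfold fe
    rw [Finset.sum_eq_single (Fin.last m)]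
    · rw [Fin.val_last, one_pow, Nat.sub_self, pow_zero, mul_one, mul_one]
    · intro i _ hi
      have h3 : (i : ℕ) < m := Fin.val_lt_last hi
      rw [zero_pow (by omega), mul_zero]
    · intro h
      exact absurd (Finset.mem_univ _) h
  rw [hf, hu, Int.cast_mul, hy]
  ring

private theorem E1_deg {R : Type*} [CommRing R] {m : ℕ} (a b : R) (f : Fin (m + 1) → R) :
    ((C a * X ^ 4 + C b) * pol f).natDegree ≤ m + 4 := by
  have h3 := pol_deg f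
  have h0 : (C a * X ^ 4 + C b : R[X]).natDegree ≤ 4 := by
    refine natDegree_add_le_of_degree_le ((natDegree_C_mul_X_pow_le a 4)) ?_
    rw [natDegree_C]
    exact Nat.zero_le _
  have a1 : ((C a * X ^ 4 + C b) * pol f).natDegree ≤ 4 + m :=
    Polynomial.natDegree_mul_le.trans (add_le_add h0 h3)
  omega

theorem els4 (m : ℕ) (a b : ℤ) : ∃ P1 : ℕ, 4 ≤ P1 ∧ ∀ P0 : ℕ, P1 ≤ P0 → ∀ (H : ℕ) (f : Fin (m + 1) → ℤ),
    T4 a (8 * P0.factorial) H f → (∀ (p : ℕ) (_ : Fact p.Prime), P0 < p → ¬ Bad4 p a b f) →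
    SolK4 ℝ a b f ∧ ∀ (p : ℕ) [Fact p.Prime], SolK4 ℚ_[p] a b f := by
  obtain ⟨P1, hP1⟩ := many_x (m + 4)
  refine ⟨max P1 4, le_max_right _ _, fun P0 h0 H f hf hB => ?_⟩
  obtain ⟨_, u, hu0, hu1, hu2⟩ := hf
  refine ⟨E1_lead ℝ a b u f hu2 (BLS.sq_real _ hu0), fun p hp => ?_⟩
  have hP1' : P1 ≤ P0 := (le_max_left _ _).trans h0
  rcases lt_or_ge P0 p with h | h
  · have h2 : p ≠ 2 := by
      have := le_trans (le_max_right P1 4) h0
      omega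
    obtain ⟨x, hx0, hxs⟩ := hP1 p (hP1'.trans h.le) _ (E1_deg (a : ZMod p) (b : ZMod p) (cf p f)) (hB p hp h)
    exact E1_p h2 a b f x hx0 hxs
  · rcases eq_or_ne p 2 with h2 | h2
    · subst h2
      refine E1_lead _ a b u f hu2 ?_
      apply BLS.sq_two
      refine dvd_trans ?_ hu1
      push_cast
      exact dvd_mul_right _ _
    · refine E1_lead _ a b u f hu2 ?_
      apply BLS.sq_odd p h2
      refine dvd_trans ?_ hu1
      exact_mod_cast (dvd_mul_of_dvd_right ((Nat.Prime.dvd_factorial hp.out).mpr h) 8)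

end HZ
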