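import Pool.Agent.Lib.MP_10e784_agHA.E0
import Pool.Agent.Lib.MP_10e784_agH.PB

/-!
# LEAF E2: bad forms are divisible by the quartic form

MODEL: `dvd_of_bad` in `MP_10e784_agH/EF.lean`.
PROOF.  `q = C a * X ^ 4 + C b` over `ZMod p`, `a, b ≠ 0`, `p ≠ 2`: `4 q - X q' = 4 b`, a unit (`q' = 4 a X³`), so `q` is separable and squarefree.  `q F = C c * s²`.  `c = 0`: `q F = 0`, `F = 0`.  `c ≠ 0`: `q ∣ s²`, so `q ∣ s` (`Squarefree.dvd_pow_iff_dvd`), `q² ∣ q F`, `q ∣ F`.  So in both cases `q ∣ F = pol (cf p f)`.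
`R = ∑_(j < 4) C (rem4 a b j f) X ^ j` over `ZMod p`: `q ∣ C (a ^ m) * F - R`: for every `i`: `q ∣ C (a ^ m) * X ^ i - C (a ^ (m - i / 4) * (-b) ^ (i / 4)) * X ^ (i % 4)`, because `i = 4 k + j`, `(a X⁴)^k - (-b)^k` is a multiple of `a X⁴ + b` (`sub_dvd_pow_sub_pow`).
So `q ∣ R`, of degree `≤ 3 < 4 = natDegree q`: `R = 0` (`Polynomial.eq_zero_of_dvd_of_natDegree_lt`), all coefficients `rem4 a b j f` are `0` modulo `p`.
-/

set_option autoImplicit false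

namespace HZ

open Finset Polynomial HY

private theorem E2_sq {K : Type*} [Field K] {a b : K} (hb : b ≠ 0) (h2 : (2 : K) ≠ 0) :
    Squarefree (C a * X ^ 4 + C b : K[X]) := by
  have h4 : (4 * b : K) ≠ 0 := by
    have : (4 : K) = 2 * 2 := by norm_num
    rw [this]
    exact mul_ne_zero (mul_ne_zero h2 h2) hb
  have hd : derivative (C a * X ^ 4 + C b : K[X]) = C (4 * a) * X ^ 3 := by
    simp only [derivative_add, derivative_mul, derivative_C, derivative_X_pow, zero_mul, zero_add, add_zero]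
    simp only [map_mul, map_ofNat, Nat.cast_ofNat]
    ring
  have h1 : C 4 * (C a * X ^ 4 + C b : K[X]) + (-X) * derivative (C a * X ^ 4 + C b : K[X]) = C (4 * b) := by
    rw [hd]
    simp only [map_mul, map_ofNat]
    ring
  have h3 : (C a * X ^ 4 + C b : K[X]).Separable := by
    refine ⟨C (4 * b)⁻¹ * C 4, C (4 * b)⁻¹ * (-X), ?_⟩
    rw [mul_assoc, mul_assoc, ← mul_add, h1, ← C_mul, inv_mul_cancel₀ h4, C_1]
  exact h3.squarefree

private theorem E2_deg {K : Type*} [Field K] {a b : K} (ha : a ≠ 0) : (C a * X ^ 4 + C b : K[X]).natDegree = 4 := by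
  rw [natDegree_add_C, natDegree_C_mul_X_pow _ _ ha]

private theorem E2_main {K : Type*} [Field K] {P F s : K[X]} {c : K} (hP : Squarefree P) (h0 : P ≠ 0)
    (h : P * F = C c * s ^ 2) : P ∣ F := by
  by_cases hc : c = 0
  · rw [hc, C_0, zero_mul] at h
    rw [(mul_eq_zero.1 h).resolve_left h0]
    exact dvd_zero _
  · have h1 : P ∣ s ^ 2 := by
      have h2 : P ∣ C c⁻¹ * (C c * s ^ 2) := Dvd.dvd.mul_left ⟨_, h.symm⟩ _
      rwa [← mul_assoc, ← C_mul, inv_mul_cancel₀ hc, C_1, one_mul] at h2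
    obtain ⟨t, ht⟩ := (hP.dvd_pow_iff_dvd two_ne_zero).1 h1
    refine ⟨C c * t ^ 2, mul_left_cancel₀ h0 ?_⟩
    rw [h, ht]
    ring

private theorem E2_mono {K : Type*} [Field K] (a b c : K) {m i : ℕ} (hi : i ≤ m) :
    (C a * X ^ 4 + C b : K[X]) ∣ C (a ^ m) * monomial i c - C (a ^ (m - i / 4) * (-b) ^ (i / 4) * c) * X ^ (i % 4) := by
  obtain ⟨k, hk⟩ : ∃ k, k = i / 4 := ⟨_, rfl⟩
  obtain ⟨j, hj⟩ : ∃ j, j = i % 4 := ⟨_, rfl⟩
  have hij : i = 4 * k + j := by omega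
  have hkm : k ≤ m := by omega
  rw [← hk, ← hj]
  have h1 : (C a * X ^ 4 + C b : K[X]) ∣ (C a * X ^ 4) ^ k - (-C b) ^ k := by
    have h2 := sub_dvd_pow_sub_pow (C a * X ^ 4 : K[X]) (-C b) k
    rwa [sub_neg_eq_add] at h2
  have h3 : C (a ^ m) * monomial i c - C (a ^ (m - k) * (-b) ^ k * c) * X ^ j =
      C (a ^ (m - k)) * C c * X ^ j * ((C a * X ^ 4) ^ k - (-C b) ^ k) := by
    rw [← C_mul_X_pow_eq_monomial, hij]
    have h4 : a ^ m = a ^ (m - k) * a ^ k := by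
      rw [← pow_add, Nat.sub_add_cancel hkm]
    rw [h4]
    simp only [map_mul, map_pow, map_neg]
    ring
  rw [h3]
  exact Dvd.dvd.mul_left h1 _

theorem rem_dvd {p : ℕ} [Fact p.Prime] (hp : p ≠ 2) {a b : ℤ} (ha : ¬ (p : ℤ) ∣ a) (hb : ¬ (p : ℤ) ∣ b) {m : ℕ}
    (f : Fin (m + 1) → ℤ) (h : Bad4 p a b f) (j : ℕ) (hj : j < 4) : (p : ℤ) ∣ rem4 a b j f := by
  have ha' : (a : ZMod p) ≠ 0 := fun h => ha ((ZMod.intCast_zmod_eq_zero_iff_dvd a p).mp h)
  have hb' : (b : ZMod p) ≠ 0 := fun h => hb ((ZMod.intCast_zmod_eq_zero_iff_dvd b p).mp h)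
  have h2 : (2 : ZMod p) ≠ 0 := by
    intro h2
    have h3 : ((2 : ℕ) : ZMod p) = 0 := by exact_mod_cast h2
    rw [ZMod.natCast_eq_zero_iff] at h3
    exact hp (((Nat.prime_dvd_prime_iff_eq (Fact.out : p.Prime) Nat.prime_two).mp h3))
  obtain ⟨q, hq⟩ : ∃ q : (ZMod p)[X], q = C (a : ZMod p) * X ^ 4 + C (b : ZMod p) := ⟨_, rfl⟩
  have hqd : q.natDegree = 4 := by
    rw [hq]
    exact E2_deg ha'
  have hq0 : q ≠ 0 := by
    intro h0
    rw [h0, natDegree_zero] at hqd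
    omega
  obtain ⟨c, s, hs⟩ := h
  have hF : q ∣ pol (cf p f) := by
    refine E2_main (s := s) (c := c) ?_ hq0 ?_
    · rw [hq]
      exact E2_sq hb' h2
    · rw [hq]
      exact hs
  obtain ⟨R, hR⟩ : ∃ R : (ZMod p)[X], R = ∑ i : Fin (m + 1),
      C ((a : ZMod p) ^ (m - (i : ℕ) / 4) * (-(b : ZMod p)) ^ ((i : ℕ) / 4) * ((f i : ℤ) : ZMod p)) * X ^ ((i : ℕ) % 4) := ⟨_, rfl⟩
  have hd : q ∣ C ((a : ZMod p) ^ m) * pol (cf p f) - R := by
    rw [hR]
    unfold pol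
    rw [Finset.mul_sum, ← Finset.sum_sub_distrib]
    refine Finset.dvd_sum fun i _ => ?_
    rw [hq]
    exact E2_mono _ _ _ (by omega)
  have hqR : q ∣ R := by
    have h1 : q ∣ C ((a : ZMod p) ^ m) * pol (cf p f) := Dvd.dvd.mul_left hF _
    exact (dvd_sub_right h1).mp hd
  have hRd : R.natDegree < q.natDegree := by
    rw [hqd, hR]
    refine lt_of_le_of_lt (natDegree_sum_le_of_forall_le _ _ (n := 3) fun i _ => ?_) (by norm_num)
    refine (natDegree_C_mul_X_pow_le _ _).trans ?_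
    omega
  have hR0 : R = 0 := Polynomial.eq_zero_of_dvd_of_natDegree_lt hqR hRd
  have hcoef : R.coeff j = ((rem4 a b j f : ℤ) : ZMod p) := by
    rw [hR, finsetSum_coeff]
    unfold rem4
    rw [Int.cast_sum]
    refine Finset.sum_congr rfl fun i _ => ?_
    rw [coeff_C_mul_X_pow]
    by_cases hij : (i : ℕ) % 4 = j
    · rw [if_pos hij.symm, if_pos hij]
      push_cast
      rfl
    · rw [if_neg (fun h => hij h.symm), if_neg hij]
      simp
  rw [← ZMod.intCast_zmod_eq_zero_iff_dvd, ← hcoef, hR0, coeff_zero]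

end HZ
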