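import Pool.Agent.Lib.MP_10e784_agHA.E0

/-!
# LEAF E3: counting with one prime

PROOF.  `U` = the set of the integers `x = a u`, `0 < u`, `M ∣ u - 1`, `|x| ≤ H`: `u = 1 + j M`, `0 ≤ j ≤ (H - 1) / M`, at most `H / M + 1` elements, `≤ 2 H / M` as `M ≤ H`; at least `H / (2 |a| M)` if `2 |a| ≤ H` (all `j` with `|a| (1 + j M) ≤ H`: `⌊(H / |a| - 1) / M⌋ + 1 ≥ (H / |a| - 1) / M ≥ H / (2 |a| M)`).
`T4` = the box with the last coordinate in `U`: `cnt_low`: at least `H / (2 |a| M) · (2 H + 1) ^ m`.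
`cnt_p`: `p ∤ a`.  `f ↦ (f_0 / p, f_1 / p, f_2, .., f_m)` (`Int` division) is injective on the set: if `f`, `f'` have the same image then `rem4 a b 0 f - rem4 a b 0 f' = a ^ m (f_0 - f'_0)` (only the term `i = 0` differs, `0 % 4 = 0`, `1 % 4 = 1`), divisible by `p`, so `f_0 ≡ f'_0` modulo `p`, and `f_0 / p = f'_0 / p`, so `f_0 = f'_0`; in the same way `f_1 = f'_1` (the coefficient of `f_1` in `rem4 a b 1` is `a ^ m`).
The values: `f_0 / p`, `f_1 / p` in `[-(H / p) - 1, H / p]`, at most `2 H / p + 2` values, `f_2, .., f_(m-1)` at most `2 H + 1 ≤ 3 H` values, `f_m` in `U` (`m ≥ 2`).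
`cnt_zero`: `f ↦ (f_1, .., f_m)` is injective on `rem4 a b 0 f = 0` (`a ^ m ≠ 0`).
(In Lean: the image in a `Fintype.piFinset` with different sets for the coordinates, `Finset.card_le_card_of_injOn`, `Fintype.card_piFinset`.)
-/

set_option autoImplicit false

namespace HZ

open Finset HY

open Classical in
/-- the possible leading coefficients -/
private noncomputable def E3_U (a : ℤ) (M H : ℕ) : Finset ℤ :=
  (Icc (-(H : ℤ)) H).filter fun x => ∃ u : ℤ, 0 < u ∧ (M : ℤ) ∣ u - 1 ∧ x = a * u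

private theorem E3_mem_U {a : ℤ} {M H : ℕ} {x : ℤ} :
    x ∈ E3_U a M H ↔ |x| ≤ (H : ℤ) ∧ ∃ u : ℤ, 0 < u ∧ (M : ℤ) ∣ u - 1 ∧ x = a * u := by
  classical
  unfold E3_U
  rw [mem_filter, mem_Icc, abs_le]

private theorem E3_U_card {a : ℤ} (ha : a ≠ 0) {M H : ℕ} (hM : 1 ≤ M) (hMH : M ≤ H) :
    ((E3_U a M H).card : ℝ) ≤ 2 * (H : ℝ) / M := by
  classical
  have hsub : E3_U a M H ⊆ (range ((H - 1) / M + 1)).image fun j : ℕ => a * (1 + (j : ℤ) * M) := by
    intro x hx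
    obtain ⟨hx1, u, hu, ⟨t, ht⟩, rfl⟩ := E3_mem_U.1 hx
    have hM0 : (0 : ℤ) < (M : ℤ) := by exact_mod_cast hM
    have ht0 : 0 ≤ t := by
      by_contra hneg
      push Not at hneg
      have h1 : (M : ℤ) * t ≤ (M : ℤ) * (-1) := mul_le_mul_of_nonneg_left (by omega) hM0.le
      have h2 : (1 : ℤ) ≤ M := by exact_mod_cast hM
      omega
    obtain ⟨j, rfl⟩ := Int.eq_ofNat_of_zero_le ht0
    rw [mem_image]
    refine ⟨j, ?_, ?_⟩
    · rw [mem_range]
      have h1 : u ≤ |a * u| := by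
        rw [abs_mul]
        have h2 : (1 : ℤ) ≤ |a| := Int.one_le_abs ha
        have h3 : u ≤ |u| := le_abs_self u
        nlinarith [abs_nonneg u]
      have h2 : (M : ℤ) * (j : ℤ) + 1 ≤ H := by omega
      have h3 : M * j + 1 ≤ H := by exact_mod_cast h2
      have h4 : j ≤ (H - 1) / M := by
        rw [Nat.le_div_iff_mul_le hM, mul_comm]
        omega
      omega
    · have h1 : u = 1 + (j : ℤ) * M := by
        rw [mul_comm]
        omega
      rw [h1]
  have h1 : (E3_U a M H).card ≤ (H - 1) / M + 1 := by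
    refine (card_le_card hsub).trans (card_image_le.trans ?_)
    rw [card_range]
  have h2 : ((E3_U a M H).card : ℝ) ≤ (((H - 1) / M : ℕ) : ℝ) + 1 := by exact_mod_cast h1
  have hM0 : (0 : ℝ) < (M : ℝ) := by exact_mod_cast hM
  have h3 : (((H - 1) / M : ℕ) : ℝ) ≤ ((H - 1 : ℕ) : ℝ) / M := Nat.cast_div_le
  have h4 : ((H - 1 : ℕ) : ℝ) / M ≤ (H : ℝ) / M := by
    apply div_le_div_of_nonneg_right _ hM0.le
    exact_mod_cast Nat.sub_le H 1
  have h5 : (1 : ℝ) ≤ (H : ℝ) / M := by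
    rw [le_div_iff₀ hM0, one_mul]
    exact_mod_cast hMH
  have h6 : 2 * (H : ℝ) / M = (H : ℝ) / M + (H : ℝ) / M := by ring
  rw [h6]
  linarith

private theorem E3_U_low {a : ℤ} (ha : a ≠ 0) {M H : ℕ} (hM : 1 ≤ M) (hH : 2 * |a| ≤ (H : ℤ)) :
    (H : ℝ) / (2 * |(a : ℝ)| * M) ≤ ((E3_U a M H).card : ℝ) := by
  classical
  obtain ⟨A, hA⟩ : ∃ A : ℕ, A = a.natAbs := ⟨_, rfl⟩
  have hA0 : 0 < A := by
    rw [hA]
    exact Int.natAbs_pos.2 ha
  have hAa : (A : ℤ) = |a| := by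
    rw [hA]
    exact Int.natCast_natAbs a
  have hAr : (A : ℝ) = |(a : ℝ)| := by
    have h1 : ((A : ℤ) : ℝ) = ((|a| : ℤ) : ℝ) := by rw [hAa]
    rw [Int.cast_abs] at h1
    exact_mod_cast h1
  have hH2 : 2 * A ≤ H := by
    rw [← hAa] at hH
    exact_mod_cast hH
  obtain ⟨N, hN⟩ : ∃ N : ℕ, N = H / A := ⟨_, rfl⟩
  have hN1 : N * A ≤ H := by
    rw [hN]
    exact Nat.div_mul_le_self H A
  have hN2 : H < (N + 1) * A := by
    rw [hN]
    have := Nat.lt_div_mul_add (a := H) hA0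
    rw [add_mul, one_mul]
    exact this
  have hN3 : 2 ≤ N := by
    rw [hN, Nat.le_div_iff_mul_le hA0]
    exact hH2
  have hJ : (N - 1) / M + 1 ≤ (E3_U a M H).card := by
    rw [← card_range ((N - 1) / M + 1)]
    refine card_le_card_of_injOn (fun j : ℕ => a * (1 + (j : ℤ) * M)) ?_ ?_
    · intro j hj
      have hj' : j ∈ range ((N - 1) / M + 1) := hj
      rw [mem_range, Nat.lt_succ_iff, Nat.le_div_iff_mul_le hM] at hj'
      have h1 : 1 + j * M ≤ N := by omega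
      refine E3_mem_U.2 ⟨?_, 1 + (j : ℤ) * M, by positivity, ⟨j, by ring⟩, rfl⟩
      rw [abs_mul, ← hAa, abs_of_nonneg (by positivity)]
      have h2 : A * (1 + j * M) ≤ H := by
        calc A * (1 + j * M) ≤ A * N := Nat.mul_le_mul_left A h1
          _ = N * A := mul_comm _ _
          _ ≤ H := hN1
      exact_mod_cast h2
    · intro j _ j' _ hjj
      have h1 : (1 + (j : ℤ) * M) = 1 + (j' : ℤ) * M := mul_left_cancel₀ ha hjj
      have hM0 : (M : ℤ) ≠ 0 := by
        have : M ≠ 0 := by omega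
        exact_mod_cast this
      have h2 : (j : ℤ) * M = (j' : ℤ) * M := by omega
      exact_mod_cast mul_right_cancel₀ hM0 h2
  have hM0 : (0 : ℝ) < (M : ℝ) := by exact_mod_cast hM
  have hA0' : (0 : ℝ) < (A : ℝ) := by exact_mod_cast hA0
  have h1 : (N : ℝ) ≤ M * (((N - 1) / M + 1 : ℕ) : ℝ) := by
    have h2 := Nat.lt_div_mul_add (a := N - 1) hM
    have h3 : N ≤ M * ((N - 1) / M + 1) := by
      rw [mul_add, mul_one, mul_comm]
      omega
    exact_mod_cast h3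
  have h2 : (H : ℝ) ≤ 2 * A * N := by
    have h3 : H ≤ 2 * A * N := by nlinarith
    exact_mod_cast h3
  have h3 : (((N - 1) / M + 1 : ℕ) : ℝ) ≤ ((E3_U a M H).card : ℝ) := by exact_mod_cast hJ
  rw [← hAr, div_le_iff₀ (by positivity)]
  calc (H : ℝ) ≤ 2 * A * N := h2
    _ ≤ 2 * A * (M * ((E3_U a M H).card : ℝ)) := by
        apply mul_le_mul_of_nonneg_left _ (by positivity)
        exact h1.trans (mul_le_mul_of_nonneg_left h3 hM0.le)
    _ = ((E3_U a M H).card : ℝ) * (2 * A * M) := by ring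

private theorem E3_inj {m : ℕ} (Q : (Fin (m + 1) → ℤ) → Prop) (F : (Fin (m + 1) → ℤ) → (Fin (m + 1) → ℤ))
    (s : Fin (m + 1) → Finset ℤ) (h1 : ∀ f, Q f → ∀ k, F f k ∈ s k)
    (h2 : ∀ f f', Q f → Q f' → F f = F f' → f = f') : Nat.card {f // Q f} ≤ ∏ k, (s k).card := by
  classical
  have h3 : Nat.card {f // Q f} ≤ Nat.card {g // g ∈ Fintype.piFinset s} := by
    refine Nat.card_le_card_of_injective
      (fun f => (⟨F f.1, Fintype.mem_piFinset.2 (h1 f.1 f.2)⟩ : {g // g ∈ Fintype.piFinset s})) ?_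
    intro f f' hff
    exact Subtype.ext (h2 f.1 f'.1 f.2 f'.2 (congrArg Subtype.val hff))
  have h4 : Nat.card {g // g ∈ Fintype.piFinset s} = ∏ k, (s k).card := by
    rw [Nat.card_eq_fintype_card, Fintype.card_coe, Fintype.card_piFinset]
  rwa [h4] at h3

private theorem E3_Icc (H : ℕ) : (Icc (-(H : ℤ)) H).card = 2 * H + 1 := by
  rw [Int.card_Icc]
  omega

private theorem E3_rem {m : ℕ} {a b : ℤ} {j : ℕ} (hj : j < 4) (k0 : Fin (m + 1)) (hk0 : (k0 : ℕ) = j)
    (f f' : Fin (m + 1) → ℤ) (h : ∀ k : Fin (m + 1), (k : ℕ) % 4 = j → k ≠ k0 → f k = f' k) :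
    rem4 a b j f - rem4 a b j f' = a ^ m * (f k0 - f' k0) := by
  unfold rem4
  rw [← sum_sub_distrib, sum_eq_single k0]
  · rw [if_pos (by omega), if_pos (by omega)]
    have h1 : (k0 : ℕ) / 4 = 0 := by omega
    rw [h1, pow_zero, Nat.sub_zero]
    ring
  · intro k _ hk
    by_cases hk4 : (k : ℕ) % 4 = j
    · rw [if_pos hk4, if_pos hk4, h k hk4 hk, sub_self]
    · rw [if_neg hk4, if_neg hk4, sub_self]
  · intro hk
    exact absurd (mem_univ k0) hk

private theorem E3_T4 {a : ℤ} {M H m : ℕ} {f : Fin (m + 1) → ℤ} (h : T4 a M H f) :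
    f (Fin.last m) ∈ E3_U a M H := by
  obtain ⟨h1, u, hu, hMu, hf⟩ := h
  exact E3_mem_U.2 ⟨h1 _, u, hu, hMu, hf⟩

theorem cnt_low {m : ℕ} {a : ℤ} (ha : a ≠ 0) {M H : ℕ} (hM : 1 ≤ M) (hH : 2 * |a| ≤ (H : ℤ)) :
    (H : ℝ) ^ (m + 1) / (2 * |(a : ℝ)| * M) ≤ (Nat.card {f : Fin (m + 1) → ℤ // T4 a M H f} : ℝ) := by
  classical
  have h1 : Nat.card {f : Fin (m + 1) → ℤ // T4 a M H f} =
      (Fintype.piFinset fun k : Fin (m + 1) =>
        if k = Fin.last m then E3_U a M H else Icc (-(H : ℤ)) H).card := by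
    refine Nat.subtype_card _ fun f => ?_
    rw [Fintype.mem_piFinset]
    constructor
    · intro h
      have h2 := h (Fin.last m)
      rw [if_pos rfl] at h2
      obtain ⟨h3, h4⟩ := E3_mem_U.1 h2
      refine ⟨fun k => ?_, h4⟩
      have h5 := h k
      split_ifs at h5 with hk
      · rw [hk]
        exact h3
      · rw [mem_Icc] at h5
        exact abs_le.2 h5
    · intro h k
      split_ifs with hk
      · rw [hk]
        exact E3_T4 h
      · rw [mem_Icc]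
        exact abs_le.1 (h.1 k)
  rw [h1, Fintype.card_piFinset, Fin.prod_univ_castSucc, if_pos rfl]
  have h2 : ∏ i : Fin m, (if (Fin.castSucc i) = Fin.last m then E3_U a M H else Icc (-(H : ℤ)) H).card =
      (2 * H + 1) ^ m := by
    have h3 : ∀ i : Fin m, (if (Fin.castSucc i) = Fin.last m then E3_U a M H else Icc (-(H : ℤ)) H).card =
        2 * H + 1 := by
      intro i
      rw [if_neg (Fin.castSucc_lt_last i).ne, E3_Icc]
    rw [prod_congr rfl fun i _ => h3 i, prod_const, card_univ, Fintype.card_fin]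
  rw [h2, Nat.cast_mul]
  have h3 : ((H : ℝ)) ^ m ≤ (((2 * H + 1) ^ m : ℕ) : ℝ) := by
    rw [Nat.cast_pow]
    apply pow_le_pow_left₀ (by positivity)
    push_cast
    linarith [(Nat.cast_nonneg H : (0 : ℝ) ≤ (H : ℝ))]
  have h4 := E3_U_low ha hM hH
  calc (H : ℝ) ^ (m + 1) / (2 * |(a : ℝ)| * M) = (H : ℝ) ^ m * ((H : ℝ) / (2 * |(a : ℝ)| * M)) := by ring
    _ ≤ (((2 * H + 1) ^ m : ℕ) : ℝ) * ((E3_U a M H).card : ℝ) :=
        mul_le_mul h3 h4 (by positivity) (by positivity)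

theorem cnt_p {m : ℕ} (hm : 2 ≤ m) {a b : ℤ} (ha : a ≠ 0) {M H : ℕ} (hM : 1 ≤ M) (hMH : M ≤ H) {p : ℕ} (hp : p.Prime)
    (hpa : ¬ (p : ℤ) ∣ a) :
    (Nat.card {f : Fin (m + 1) → ℤ // T4 a M H f ∧ (p : ℤ) ∣ rem4 a b 0 f ∧ (p : ℤ) ∣ rem4 a b 1 f} : ℝ) ≤
      (2 * (H : ℝ) / p + 2) ^ 2 * (3 * (H : ℝ)) ^ (m - 2) * (2 * (H : ℝ) / M) := by
  classical
  obtain ⟨n, rfl⟩ : ∃ n, m = n + 2 := ⟨m - 2, by omega⟩
  have hp0 : (0 : ℤ) < (p : ℤ) := by exact_mod_cast hp.pos
  obtain ⟨k0, hk0⟩ : ∃ k : Fin (n + 2 + 1), (k : ℕ) = 0 := ⟨⟨0, by omega⟩, rfl⟩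
  obtain ⟨k1, hk1⟩ : ∃ k : Fin (n + 2 + 1), (k : ℕ) = 1 := ⟨⟨1, by omega⟩, rfl⟩
  obtain ⟨D, hD⟩ : ∃ D : Finset ℤ, D = Icc (-((H : ℤ) / p) - 1) ((H : ℤ) / p) := ⟨_, rfl⟩
  have hDc : (D.card : ℝ) ≤ 2 * (H : ℝ) / p + 2 := by
    have h1 : D.card = 2 * (H / p) + 2 := by
      rw [hD, Int.card_Icc]
      have h2 : ((H : ℤ) / p) = ((H / p : ℕ) : ℤ) := by simp
      rw [h2]
      omega
    rw [h1]
    have h2 : ((H / p : ℕ) : ℝ) ≤ (H : ℝ) / p := Nat.cast_div_le
    push_cast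
    have h3 : 2 * (H : ℝ) / p = 2 * ((H : ℝ) / p) := by ring
    rw [h3]
    linarith
  have key : Nat.card {f : Fin (n + 2 + 1) → ℤ // T4 a M H f ∧ (p : ℤ) ∣ rem4 a b 0 f ∧ (p : ℤ) ∣ rem4 a b 1 f} ≤
      ∏ k : Fin (n + 2 + 1), (if (k : ℕ) < 2 then D else if k = Fin.last (n + 2) then E3_U a M H else
        Icc (-(H : ℤ)) H).card := by
    refine E3_inj _ (fun f k => if (k : ℕ) < 2 then f k / p else f k) _ ?_ ?_
    · rintro f ⟨hf, -, -⟩ k
      by_cases hk : (k : ℕ) < 2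
      · rw [if_pos hk, if_pos hk, hD, mem_Icc]
        have h1 := abs_le.1 (hf.1 k)
        constructor
        · have h2 : (-(H : ℤ)) / p ≤ f k / p := Int.ediv_le_ediv hp0 h1.1
          have h3 : -((H : ℤ) / p) - 1 ≤ (-(H : ℤ)) / p := by
            rw [Int.le_ediv_iff_mul_le hp0]
            have h4 := Int.lt_ediv_add_one_mul_self (H : ℤ) hp0
            nlinarith
          exact h3.trans h2
        · exact Int.ediv_le_ediv hp0 h1.2
      · rw [if_neg hk, if_neg hk]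
        split_ifs with hl
        · rw [hl]
          exact E3_T4 hf
        · rw [mem_Icc]
          exact abs_le.1 (hf.1 k)
    · rintro f f' ⟨-, hf0, hf1⟩ ⟨-, hf0', hf1'⟩ hff
      have hge : ∀ k : Fin (n + 2 + 1), ¬ (k : ℕ) < 2 → f k = f' k := by
        intro k hk
        have h1 := congrFun hff k
        simp only [if_neg hk] at h1
        exact h1
      have hdiv : ∀ k : Fin (n + 2 + 1), (k : ℕ) < 2 → f k / p = f' k / p := by
        intro k hk
        have h1 := congrFun hff k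
        simp only [if_pos hk] at h1
        exact h1
      have hpr : Prime (p : ℤ) := Nat.prime_iff_prime_int.1 hp
      have hcan : ∀ k : Fin (n + 2 + 1), (k : ℕ) < 2 → (p : ℤ) ∣ a ^ (n + 2) * (f k - f' k) → f k = f' k := by
        intro k hk hdvd
        have h1 : (p : ℤ) ∣ f k - f' k := (hpr.dvd_or_dvd hdvd).resolve_left fun h => hpa (hpr.dvd_of_dvd_pow h)
        have h2 : f k % p = f' k % p := (Int.modEq_iff_dvd.2 h1).symm
        rw [← Int.mul_ediv_add_emod (f k) p, ← Int.mul_ediv_add_emod (f' k) p, h2, hdiv k hk]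
      have e0 : f k0 = f' k0 := by
        refine hcan k0 (by omega) ?_
        rw [← E3_rem (b := b) (by norm_num : 0 < 4) k0 hk0 f f' (fun k hk hkk => hge k (fun hlt => hkk (Fin.ext (by omega))))]
        exact dvd_sub hf0 hf0'
      have e1 : f k1 = f' k1 := by
        refine hcan k1 (by omega) ?_
        rw [← E3_rem (b := b) (by norm_num : 1 < 4) k1 hk1 f f' (fun k hk hkk => hge k (fun hlt => hkk (Fin.ext (by omega))))]
        exact dvd_sub hf1 hf1'
      funext k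
      by_cases hk : (k : ℕ) < 2
      · rcases Nat.lt_succ_iff_lt_or_eq.1 hk with h | h
        · have : k = k0 := Fin.ext (by omega)
          rw [this]
          exact e0
        · have : k = k1 := Fin.ext (by omega)
          rw [this]
          exact e1
      · exact hge k hk
  have key' := (Nat.cast_le (α := ℝ)).2 key
  refine key'.trans ?_
  rw [Fin.prod_univ_castSucc, Fin.prod_univ_succ, Fin.prod_univ_succ]
  have hlast : ¬ ((Fin.last (n + 2) : Fin (n + 2 + 1)) : ℕ) < 2 := by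
    rw [Fin.val_last]
    omega
  rw [if_neg hlast, if_pos rfl]
  have hH1 : 1 ≤ H := hM.trans hMH
  have hmid : ((∏ i : Fin n, (if ((Fin.castSucc (Fin.succ (Fin.succ i)) : Fin (n + 2 + 1)) : ℕ) < 2 then D else
      if (Fin.castSucc (Fin.succ (Fin.succ i)) : Fin (n + 2 + 1)) = Fin.last (n + 2) then E3_U a M H else
        Icc (-(H : ℤ)) H).card : ℕ) : ℝ) ≤ (3 * (H : ℝ)) ^ (n + 2 - 2) := by
    have h3 : ∀ i : Fin n, (if ((Fin.castSucc (Fin.succ (Fin.succ i)) : Fin (n + 2 + 1)) : ℕ) < 2 then D else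
      if (Fin.castSucc (Fin.succ (Fin.succ i)) : Fin (n + 2 + 1)) = Fin.last (n + 2) then E3_U a M H else
        Icc (-(H : ℤ)) H).card = 2 * H + 1 := by
      intro i
      rw [if_neg (by simp), if_neg (Fin.castSucc_lt_last _).ne, E3_Icc]
    rw [prod_congr rfl fun i _ => h3 i, prod_const, card_univ, Fintype.card_fin, Nat.cast_pow, Nat.add_sub_cancel]
    apply pow_le_pow_left₀ (by positivity)
    have h4 : (1 : ℝ) ≤ (H : ℝ) := by exact_mod_cast hH1
    push_cast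
    linarith
  have h0 : ((Fin.castSucc (0 : Fin (n + 2)) : Fin (n + 2 + 1)) : ℕ) < 2 := by simp
  have h1 : ((Fin.castSucc (Fin.succ (0 : Fin (n + 1))) : Fin (n + 2 + 1)) : ℕ) < 2 := by simp
  rw [if_pos h0, if_pos h1, Nat.cast_mul, Nat.cast_mul, Nat.cast_mul]
  have hU := E3_U_card ha hM hMH
  have hDD : (D.card : ℝ) * (D.card : ℝ) ≤ (2 * (H : ℝ) / p + 2) ^ 2 := by
    rw [sq]
    exact mul_le_mul hDc hDc (by positivity) (by positivity)
  rw [← mul_assoc (D.card : ℝ) (D.card : ℝ)]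
  exact mul_le_mul (mul_le_mul hDD hmid (by positivity) (by positivity)) hU (by positivity) (by positivity)

theorem cnt_zero {m : ℕ} (hm : 1 ≤ m) {a b : ℤ} (ha : a ≠ 0) {M H : ℕ} (hM : 1 ≤ M) (hMH : M ≤ H) :
    (Nat.card {f : Fin (m + 1) → ℤ // T4 a M H f ∧ rem4 a b 0 f = 0} : ℝ) ≤
      (3 * (H : ℝ)) ^ (m - 1) * (2 * (H : ℝ) / M) := by
  classical
  obtain ⟨n, rfl⟩ : ∃ n, m = n + 1 := ⟨m - 1, by omega⟩
  have key : Nat.card {f : Fin (n + 1 + 1) → ℤ // T4 a M H f ∧ rem4 a b 0 f = 0} ≤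
      ∏ k : Fin (n + 1 + 1), (if k = 0 then ({0} : Finset ℤ) else if k = Fin.last (n + 1) then E3_U a M H else
        Icc (-(H : ℤ)) H).card := by
    refine E3_inj _ (fun f k => if k = 0 then 0 else f k) _ ?_ ?_
    · rintro f ⟨hf, -⟩ k
      by_cases hk : k = 0
      · rw [if_pos hk, if_pos hk]
        exact mem_singleton_self 0
      · rw [if_neg hk, if_neg hk]
        split_ifs with hl
        · rw [hl]
          exact E3_T4 hf
        · rw [mem_Icc]
          exact abs_le.1 (hf.1 k)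
    · rintro f f' ⟨-, hf0⟩ ⟨-, hf0'⟩ hff
      have hge : ∀ k : Fin (n + 1 + 1), k ≠ 0 → f k = f' k := by
        intro k hk
        have h1 := congrFun hff k
        simp only [if_neg hk] at h1
        exact h1
      have h1 := E3_rem (a := a) (b := b) (by norm_num : 0 < 4) (0 : Fin (n + 1 + 1)) rfl f f' (fun k _ hkk => hge k hkk)
      rw [hf0, hf0', sub_self] at h1
      have h2 := (mul_eq_zero.1 h1.symm).resolve_left (pow_ne_zero _ ha)
      funext k
      by_cases hk : k = 0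
      · rw [hk]
        exact sub_eq_zero.1 h2
      · exact hge k hk
  have key' := (Nat.cast_le (α := ℝ)).2 key
  refine key'.trans ?_
  rw [Fin.prod_univ_castSucc, Fin.prod_univ_succ]
  have hlast : (Fin.last (n + 1) : Fin (n + 1 + 1)) ≠ 0 := (Fin.last_pos).ne'
  rw [if_neg hlast, if_pos rfl]
  have hH1 : 1 ≤ H := hM.trans hMH
  have hmid : ((∏ i : Fin n, (if (Fin.castSucc (Fin.succ i) : Fin (n + 1 + 1)) = 0 then ({0} : Finset ℤ) else
      if (Fin.castSucc (Fin.succ i) : Fin (n + 1 + 1)) = Fin.last (n + 1) then E3_U a M H else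
        Icc (-(H : ℤ)) H).card : ℕ) : ℝ) ≤ (3 * (H : ℝ)) ^ (n + 1 - 1) := by
    have h3 : ∀ i : Fin n, (if (Fin.castSucc (Fin.succ i) : Fin (n + 1 + 1)) = 0 then ({0} : Finset ℤ) else
      if (Fin.castSucc (Fin.succ i) : Fin (n + 1 + 1)) = Fin.last (n + 1) then E3_U a M H else
        Icc (-(H : ℤ)) H).card = 2 * H + 1 := by
      intro i
      rw [if_neg (fun h => by have := congrArg Fin.val h; simp at this), if_neg (Fin.castSucc_lt_last _).ne, E3_Icc]
    rw [prod_congr rfl fun i _ => h3 i, prod_const, card_univ, Fintype.card_fin, Nat.cast_pow, Nat.add_sub_cancel]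
    apply pow_le_pow_left₀ (by positivity)
    have h4 : (1 : ℝ) ≤ (H : ℝ) := by exact_mod_cast hH1
    push_cast
    linarith
  have h0 : (Fin.castSucc (0 : Fin (n + 1)) : Fin (n + 1 + 1)) = 0 := rfl
  rw [if_pos h0, card_singleton, one_mul, Nat.cast_mul]
  exact mul_le_mul hmid (E3_U_card ha hM hMH) (by positivity) (by positivity)

end HZ
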