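import Pool.Agent.Lib.MP_10e784_agHA.E3
import Pool.Agent.Lib.MP_10e784_agL.MB

/-!
# LEAF E4: the sum over the primes

PROOF.  `|rem4 a b 0 f| ≤ K H` with `K = (m + 1) |a b| ^ m` (`|a|, |b| ≥ 1`, so `|a| ^ (m - k) |b| ^ k ≤ |a b| ^ m`).  If `f` is in the set with the prime `p > P0`: (i) `p ≤ H`: `cnt_p`, `2 H / p + 2 ≤ 4 H / p`: at most `16 H² / p² (3 H)^(m-2) 2 H / M` vectors for each `p`; the sum over `p > P0` is at most `32 · 3^(m-2) H^(m+1) / M · 1 / P0` (`sum_inv_sq` in `MP_10e784_agL/MB.lean`);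
(ii) `H < p ≤ K H`: `2 H / p + 2 ≤ 4`: at most `16 (3 H)^(m-2) 2 H / M` vectors for each of the at most `K H` primes; (iii) `p > K H`: `rem4 a b 0 f = 0` (`Int.eq_zero_of_abs_lt_dvd`): `cnt_zero`.  `p > P0 ≥ |a|` gives `p ∤ a` (`a ≠ 0`).
`C = 32 · 3^m (K + 1)`: the sum is at most `C H^(m+1) / M · (1 / P0 + 1 / H)`.
-/

set_option autoImplicit false

namespace HZ

open Finset HY

private theorem E4_rem {m : ℕ} {a b : ℤ} (ha : a ≠ 0) (hb : b ≠ 0) {H : ℕ} {f : Fin (m + 1) → ℤ}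
    (hf : ∀ k, |f k| ≤ (H : ℤ)) : |rem4 a b 0 f| ≤ ((m : ℤ) + 1) * (|a| * |b|) ^ m * H := by
  have ha1 : 1 ≤ |a| := Int.one_le_abs ha
  have hb1 : 1 ≤ |b| := Int.one_le_abs hb
  unfold rem4
  refine (Finset.abs_sum_le_sum_abs _ _).trans ?_
  have h1 : ∀ i ∈ (Finset.univ : Finset (Fin (m + 1))), |if (i : ℕ) % 4 = 0 then
      a ^ (m - (i : ℕ) / 4) * (-b) ^ ((i : ℕ) / 4) * f i else 0| ≤ (|a| * |b|) ^ m * H := by
    intro i _
    split_ifs with h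
    · rw [abs_mul, abs_mul, abs_pow, abs_pow, abs_neg, mul_pow]
      have h2 : |a| ^ (m - (i : ℕ) / 4) ≤ |a| ^ m := pow_le_pow_right₀ ha1 (Nat.sub_le _ _)
      have h3 : |b| ^ ((i : ℕ) / 4) ≤ |b| ^ m := pow_le_pow_right₀ hb1 (by omega)
      exact mul_le_mul (mul_le_mul h2 h3 (by positivity) (by positivity)) (hf i) (abs_nonneg _)
        (by positivity)
    · rw [abs_zero]
      positivity
  refine (Finset.sum_le_card_nsmul _ _ _ h1).trans (le_of_eq ?_)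
  rw [Finset.card_univ, Fintype.card_fin, nsmul_eq_mul]
  push_cast
  ring

theorem cnt4 {m : ℕ} (hm : 2 ≤ m) {a b : ℤ} (ha : a ≠ 0) (hb : b ≠ 0) : ∃ C : ℝ, 0 < C ∧ ∀ P0 M H : ℕ, 4 ≤ P0 →
    |a| ≤ (P0 : ℤ) → 1 ≤ M → M ≤ H →
    (Nat.card {f : Fin (m + 1) → ℤ // T4 a M H f ∧ ∃ p : ℕ, p.Prime ∧ P0 < p ∧ (p : ℤ) ∣ rem4 a b 0 f ∧
      (p : ℤ) ∣ rem4 a b 1 f} : ℝ) ≤ C * ((H : ℝ) ^ (m + 1) / M) * (1 / P0 + 1 / H) := by
  classical
  obtain ⟨n, rfl⟩ : ∃ n, m = n + 2 := ⟨m - 2, by omega⟩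
  obtain ⟨K, hK⟩ : ∃ K : ℕ, (K : ℤ) = (((n + 2 : ℕ) : ℤ) + 1) * (|a| * |b|) ^ (n + 2) :=
    ⟨((((n + 2 : ℕ) : ℤ) + 1) * (|a| * |b|) ^ (n + 2)).toNat, Int.toNat_of_nonneg (by positivity)⟩
  refine ⟨32 * 3 ^ (n + 2) * (K + 1), by positivity, fun P0 M H hP haP hM hMH => ?_⟩
  have hH1 : 1 ≤ H := hM.trans hMH
  have hH0 : (0 : ℝ) < H := by exact_mod_cast hH1
  have hM0 : (0 : ℝ) < M := by exact_mod_cast hM
  have hP0 : (0 : ℝ) < P0 := by
    have : 0 < P0 := by omega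
    exact_mod_cast this
  set F : Finset (Fin (n + 2 + 1) → ℤ) := Fintype.piFinset fun _ => Icc (-(H : ℤ)) H with hF
  have hFm : ∀ f : Fin (n + 2 + 1) → ℤ, T4 a M H f → f ∈ F := fun f hf => by
    rw [hF, Fintype.mem_piFinset]
    intro k
    rw [Finset.mem_Icc]
    exact abs_le.1 (hf.1 k)
  set T : ℕ → Finset (Fin (n + 2 + 1) → ℤ) := fun p => F.filter fun f =>
    T4 a M H f ∧ (p : ℤ) ∣ rem4 a b 0 f ∧ (p : ℤ) ∣ rem4 a b 1 f with hT
  set Z : Finset (Fin (n + 2 + 1) → ℤ) := F.filter fun f => T4 a M H f ∧ rem4 a b 0 f = 0 with hZ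
  set U : Finset (Fin (n + 2 + 1) → ℤ) := F.filter fun f => T4 a M H f ∧ ∃ p : ℕ, p.Prime ∧ P0 < p ∧
    (p : ℤ) ∣ rem4 a b 0 f ∧ (p : ℤ) ∣ rem4 a b 1 f with hU
  have hcU : Nat.card {f : Fin (n + 2 + 1) → ℤ // T4 a M H f ∧ ∃ p : ℕ, p.Prime ∧ P0 < p ∧
      (p : ℤ) ∣ rem4 a b 0 f ∧ (p : ℤ) ∣ rem4 a b 1 f} = U.card := by
    refine Nat.subtype_card U fun f => ?_
    rw [hU, Finset.mem_filter]
    exact ⟨fun h => h.2, fun h => ⟨hFm f h.1, h⟩⟩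
  rw [hcU]
  set I1 : Finset ℕ := (Icc (P0 + 1) H).filter Nat.Prime with hI1
  set I2 : Finset ℕ := (Icc (H + 1) (K * H)).filter (fun p => p.Prime ∧ P0 < p) with hI2
  have hsub : U ⊆ Z ∪ (I1.biUnion T ∪ I2.biUnion T) := by
    intro f hf
    rw [hU, Finset.mem_filter] at hf
    obtain ⟨hfF, hfT, p, hp, hp0, h0, h1⟩ := hf
    rw [Finset.mem_union, Finset.mem_union, Finset.mem_biUnion, Finset.mem_biUnion]
    have hTp : f ∈ T p := by
      rw [hT, Finset.mem_filter]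
      exact ⟨hfF, hfT, h0, h1⟩
    by_cases hz : rem4 a b 0 f = 0
    · left
      rw [hZ, Finset.mem_filter]
      exact ⟨hfF, hfT, hz⟩
    · right
      have h2 : (p : ℤ) ≤ |rem4 a b 0 f| :=
        Int.le_of_dvd (abs_pos.2 hz) ((dvd_abs _ _).2 h0)
      have h3 := h2.trans (E4_rem ha hb hfT.1)
      rw [← hK] at h3
      have h4 : p ≤ K * H := by exact_mod_cast h3
      rcases le_or_gt p H with h5 | h5
      · left
        refine ⟨p, ?_, hTp⟩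
        rw [hI1, Finset.mem_filter, Finset.mem_Icc]
        exact ⟨⟨hp0, h5⟩, hp⟩
      · right
        refine ⟨p, ?_, hTp⟩
        rw [hI2, Finset.mem_filter, Finset.mem_Icc]
        exact ⟨⟨h5, h4⟩, hp, hp0⟩
  have hcard : (U.card : ℝ) ≤ (Z.card : ℝ) + (∑ p ∈ I1, ((T p).card : ℝ) + ∑ p ∈ I2, ((T p).card : ℝ)) := by
    have h1 := (Finset.card_le_card hsub).trans ((Finset.card_union_le _ _).trans
      (Nat.add_le_add_left ((Finset.card_union_le _ _).trans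
        (Nat.add_le_add Finset.card_biUnion_le Finset.card_biUnion_le)) _))
    exact_mod_cast h1
  have hTc : ∀ p : ℕ, p.Prime → P0 < p → ((T p).card : ℝ) ≤
      (2 * (H : ℝ) / p + 2) ^ 2 * (3 * (H : ℝ)) ^ n * (2 * (H : ℝ) / M) := by
    intro p hp hp0
    have hpa : ¬ (p : ℤ) ∣ a := by
      intro h
      have h2 : (p : ℤ) ≤ |a| := Int.le_of_dvd (abs_pos.2 ha) ((dvd_abs _ _).2 h)
      have h3 : (p : ℤ) ≤ (P0 : ℤ) := h2.trans haP
      have h4 : p ≤ P0 := by exact_mod_cast h3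
      omega
    have h1 := cnt_p (m := n + 2) (by omega) (b := b) ha hM hMH hp hpa
    have h2 : Nat.card {f : Fin (n + 2 + 1) → ℤ // T4 a M H f ∧ (p : ℤ) ∣ rem4 a b 0 f ∧
        (p : ℤ) ∣ rem4 a b 1 f} = (T p).card := by
      refine Nat.subtype_card (T p) fun f => ?_
      rw [hT, Finset.mem_filter]
      exact ⟨fun h => h.2, fun h => ⟨hFm f h.1, h⟩⟩
    rw [h2] at h1
    exact h1
  have hZc : (Z.card : ℝ) ≤ (3 * (H : ℝ)) ^ (n + 1) * (2 * (H : ℝ) / M) := by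
    have h1 := cnt_zero (m := n + 2) (by omega) (b := b) ha hM hMH
    have h2 : Nat.card {f : Fin (n + 2 + 1) → ℤ // T4 a M H f ∧ rem4 a b 0 f = 0} = Z.card := by
      refine Nat.subtype_card Z fun f => ?_
      rw [hZ, Finset.mem_filter]
      exact ⟨fun h => h.2, fun h => ⟨hFm f h.1, h⟩⟩
    rw [h2] at h1
    exact h1
  obtain ⟨W, hW⟩ : ∃ W : ℝ, W = (3 * (H : ℝ)) ^ n * (2 * (H : ℝ) / M) := ⟨_, rfl⟩
  have hW0 : 0 ≤ W := by
    rw [hW]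
    positivity
  have hS1 : ∑ p ∈ I1, ((T p).card : ℝ) ≤ 16 * (H : ℝ) ^ 2 * W * (1 / P0) := by
    have h1 : ∀ p ∈ I1, ((T p).card : ℝ) ≤ 16 * (H : ℝ) ^ 2 * W * (1 / (p : ℝ) ^ 2) := by
      intro p hp
      rw [hI1, Finset.mem_filter, Finset.mem_Icc] at hp
      refine (hTc p hp.2 hp.1.1).trans ?_
      rw [mul_assoc, ← hW]
      have hp0 : (0 : ℝ) < p := by exact_mod_cast hp.2.pos
      have h2 : (1 : ℝ) ≤ (H : ℝ) / p := by
        rw [le_div_iff₀ hp0, one_mul]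
        exact_mod_cast hp.1.2
      have h3 : (2 * (H : ℝ) / p + 2) ^ 2 ≤ 16 * (H : ℝ) ^ 2 * (1 / (p : ℝ) ^ 2) := by
        have h4 : 16 * (H : ℝ) ^ 2 * (1 / (p : ℝ) ^ 2) = (4 * ((H : ℝ) / p)) ^ 2 := by
          field_simp
          norm_num
        rw [h4]
        refine pow_le_pow_left₀ (by positivity) ?_ 2
        rw [mul_div_assoc]
        linarith
      calc (2 * (H : ℝ) / p + 2) ^ 2 * W ≤ 16 * (H : ℝ) ^ 2 * (1 / (p : ℝ) ^ 2) * W :=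
            mul_le_mul_of_nonneg_right h3 hW0
        _ = 16 * (H : ℝ) ^ 2 * W * (1 / (p : ℝ) ^ 2) := by ring
    refine (Finset.sum_le_sum h1).trans ?_
    rw [← Finset.mul_sum]
    refine mul_le_mul_of_nonneg_left ?_ (by positivity)
    refine le_trans ?_ (BLS.sum_inv_sq P0 H (by omega))
    exact Finset.sum_le_sum_of_subset_of_nonneg (Finset.filter_subset _ _) fun p _ _ => by positivity
  have hS2 : ∑ p ∈ I2, ((T p).card : ℝ) ≤ (K : ℝ) * H * (16 * W) := by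
    have h1 : ∀ p ∈ I2, ((T p).card : ℝ) ≤ 16 * W := by
      intro p hp
      rw [hI2, Finset.mem_filter, Finset.mem_Icc] at hp
      refine (hTc p hp.2.1 hp.2.2).trans ?_
      rw [mul_assoc, ← hW]
      have hp0 : (0 : ℝ) < p := by exact_mod_cast hp.2.1.pos
      have h2 : (H : ℝ) / p ≤ 1 := by
        rw [div_le_one hp0]
        have h3 : H ≤ p := by omega
        exact_mod_cast h3
      refine mul_le_mul_of_nonneg_right ?_ hW0
      have h4 : (16 : ℝ) = 4 ^ 2 := by norm_num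
      rw [h4]
      refine pow_le_pow_left₀ (by positivity) ?_ 2
      rw [mul_div_assoc]
      linarith
    refine (Finset.sum_le_card_nsmul _ _ _ h1).trans ?_
    rw [nsmul_eq_mul]
    refine mul_le_mul_of_nonneg_right ?_ (by positivity)
    have h2 : I2.card ≤ K * H := by
      refine (Finset.card_filter_le _ _).trans ?_
      rw [Nat.card_Icc]
      omega
    exact_mod_cast h2
  refine hcard.trans ?_
  have hWv : W = 2 * 3 ^ n * ((H : ℝ) ^ (n + 1) / M) := by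
    rw [hW, mul_pow, pow_succ (H : ℝ) n]
    ring
  have hZ2 : (3 * (H : ℝ)) ^ (n + 1) * (2 * (H : ℝ) / M) = 3 * (H : ℝ) * W := by
    rw [hW, pow_succ]
    ring
  rw [hZ2] at hZc
  obtain ⟨Q, hQ⟩ : ∃ Q : ℝ, Q = (H : ℝ) ^ (n + 1) / M := ⟨_, rfl⟩
  have hQ0 : 0 ≤ Q := by
    rw [hQ]
    positivity
  rw [← hQ] at hWv
  have hfin : 32 * 3 ^ (n + 2) * ((K : ℝ) + 1) * ((H : ℝ) ^ (n + 2 + 1) / M) * (1 / P0 + 1 / H) =
      32 * 3 ^ (n + 2) * ((K : ℝ) + 1) * (Q * (H : ℝ) ^ 2 * (1 / P0)) +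
        32 * 3 ^ (n + 2) * ((K : ℝ) + 1) * (Q * H) := by
    rw [hQ]
    have h1 : (H : ℝ) ^ (n + 2 + 1) = (H : ℝ) ^ (n + 1) * (H : ℝ) ^ 2 := by
      rw [← pow_add]
    rw [h1]
    field_simp
  rw [hfin]
  have h3n : (0 : ℝ) < 3 ^ n := by positivity
  have h3 : (3 : ℝ) ^ (n + 2) = 9 * 3 ^ n := by
    rw [pow_add]
    ring
  have hKn : (0 : ℝ) ≤ K := Nat.cast_nonneg K
  have e1 : 16 * (H : ℝ) ^ 2 * W * (1 / P0) ≤
      32 * 3 ^ (n + 2) * ((K : ℝ) + 1) * (Q * (H : ℝ) ^ 2 * (1 / P0)) := by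
    rw [hWv, h3]
    have h5 : 0 ≤ Q * (H : ℝ) ^ 2 * (1 / P0) := by positivity
    have h6 : 16 * (H : ℝ) ^ 2 * (2 * 3 ^ n * Q) * (1 / P0) =
        32 * 3 ^ n * (Q * (H : ℝ) ^ 2 * (1 / P0)) := by ring
    rw [h6]
    refine mul_le_mul_of_nonneg_right ?_ h5
    nlinarith [mul_nonneg h3n.le hKn]
  have e2 : 3 * (H : ℝ) * W + (K : ℝ) * H * (16 * W) ≤
      32 * 3 ^ (n + 2) * ((K : ℝ) + 1) * (Q * H) := by
    rw [hWv, h3]
    have h5 : 0 ≤ Q * (H : ℝ) := by positivity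
    have h6 : 3 * (H : ℝ) * (2 * 3 ^ n * Q) + (K : ℝ) * H * (16 * (2 * 3 ^ n * Q)) =
        (6 * 3 ^ n + 32 * 3 ^ n * K) * (Q * H) := by ring
    rw [h6]
    refine mul_le_mul_of_nonneg_right ?_ h5
    nlinarith [mul_nonneg h3n.le hKn]
  linarith

end HZ
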