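import Pool.Agent.Lib.MP_10e784_agHA.E1
import Pool.Agent.Lib.MP_10e784_agHA.E2
import Pool.Agent.Lib.MP_10e784_agHA.E4

/-!
# LEAF E5: a positive proportion is everywhere locally soluble

MODEL: `F_one` in `MP_10e784_agHE/F.lean` (store archive MP_10e784_ag_Hyp3.tgz), `loc_H` in `MP_10e784_agH/EK.lean`.
PROOF.  `P0` = the maximum of the `P1` of `els4`, of `|a|`, `|b|`, `8`, `⌈16 |a| C⌉` with `C` of `cnt4`; `M = 8 P0!`.  For `H ≥ M`, `H ≥ 2 |a|`, `H ≥ 16 |a| C`: `cnt_low` gives at least `H^(m+1) / (2 |a| M)` forms in `T4 a M H`; those which are `Bad4` for some prime `p > P0` (`p ≠ 2`, `p ∤ a`, `p ∤ b`: `rem_dvd` for `j = 0, 1`) are at most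
`C H^(m+1) / M · (1 / P0 + 1 / H) ≤ H^(m+1) / (8 |a| M)`, the others are everywhere locally soluble (`els4`).  `η = 1 / (4 |a| M)`.
-/

set_option autoImplicit false

namespace HZ

open Finset Polynomial HY

private theorem E5_ndvd {p P0 : ℕ} {a : ℤ} (ha : a ≠ 0) (h : |a| ≤ (P0 : ℤ)) (hp : P0 < p) : ¬ (p : ℤ) ∣ a := by
  intro hd
  have h1 : (p : ℤ) ≤ |a| := Int.le_of_dvd (abs_pos.2 ha) ((dvd_abs _ _).2 hd)
  have h2 : (P0 : ℤ) < p := by exact_mod_cast hp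
  omega

private theorem E5_box (m N : ℕ) : {f : Fin (m + 1) → ℤ | ∀ k, |f k| ≤ (N : ℤ)}.Finite := by
  refine (Set.Finite.pi' fun _ : Fin (m + 1) => (Set.finite_Icc (-(N : ℤ)) (N : ℤ))).subset fun a ha => ?_
  intro k
  exact Set.mem_Icc.2 (abs_le.1 (ha k))

theorem loc4 {m : ℕ} (hm : 2 ≤ m) {a b : ℤ} (ha : a ≠ 0) (hb : b ≠ 0) : ∃ (η : ℝ) (M H0 : ℕ), 0 < η ∧ ∀ H : ℕ, H0 ≤ H →
    η * (H : ℝ) ^ (m + 1) ≤ (Nat.card {f : Fin (m + 1) → ℤ // T4 a M H f ∧ SolK4 ℝ a b f ∧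
      ∀ (p : ℕ) [Fact p.Prime], SolK4 ℚ_[p] a b f} : ℝ) := by
  obtain ⟨P1, hP1, hels⟩ := els4 m a b
  obtain ⟨C, hC, hcnt⟩ := cnt4 hm ha hb
  have haR : 0 < |(a : ℝ)| := abs_pos.2 (by exact_mod_cast ha)
  obtain ⟨P0, hP0⟩ : ∃ P0 : ℕ, P0 = max P1 (max a.natAbs (max b.natAbs ⌈16 * |(a : ℝ)| * C⌉₊)) := ⟨_, rfl⟩
  have hPa : P1 ≤ P0 := by rw [hP0]; exact le_max_left _ _
  have h4 : 4 ≤ P0 := hP1.trans hPa
  have hPb : |a| ≤ (P0 : ℤ) := by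
    have h1 : a.natAbs ≤ P0 := by
      rw [hP0]
      exact (le_max_left _ _).trans (le_max_right _ _)
    rw [← Int.natCast_natAbs]
    exact_mod_cast h1
  have hPc : |b| ≤ (P0 : ℤ) := by
    have h1 : b.natAbs ≤ P0 := by
      rw [hP0]
      exact ((le_max_left _ _).trans (le_max_right _ _)).trans (le_max_right _ _)
    rw [← Int.natCast_natAbs]
    exact_mod_cast h1
  have hPd : 16 * |(a : ℝ)| * C ≤ (P0 : ℝ) := by
    refine (Nat.le_ceil _).trans ?_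
    have h1 : ⌈16 * |(a : ℝ)| * C⌉₊ ≤ P0 := by
      rw [hP0]
      exact ((le_max_right _ _).trans (le_max_right _ _)).trans (le_max_right _ _)
    exact_mod_cast h1
  have hP0r : (0 : ℝ) < (P0 : ℝ) := by exact_mod_cast (by omega : 0 < P0)
  have hM : 1 ≤ 8 * P0.factorial := Nat.mul_pos (by norm_num) (Nat.factorial_pos P0)
  have hels' := hels P0 hPa
  obtain ⟨M, hMM⟩ : ∃ M : ℕ, M = 8 * P0.factorial := ⟨_, rfl⟩
  rw [← hMM] at hels' hM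
  have hM0 : (0 : ℝ) < (M : ℝ) := by exact_mod_cast hM
  refine ⟨1 / (4 * |(a : ℝ)| * M), M, max M (max (2 * a.natAbs) (max 1 ⌈16 * |(a : ℝ)| * C⌉₊)),
    by positivity, fun H hH => ?_⟩
  have hHM : M ≤ H := (le_max_left _ _).trans hH
  have hHa : 2 * |a| ≤ (H : ℤ) := by
    have h1 : 2 * a.natAbs ≤ H := ((le_max_left _ _).trans (le_max_right _ _)).trans hH
    rw [← Int.natCast_natAbs]
    exact_mod_cast h1
  have hH1 : 1 ≤ H := (((le_max_left _ _).trans (le_max_right _ _)).trans (le_max_right _ _)).trans hH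
  have hHC : 16 * |(a : ℝ)| * C ≤ (H : ℝ) := by
    refine (Nat.le_ceil _).trans ?_
    exact_mod_cast (((le_max_right _ _).trans (le_max_right _ _)).trans (le_max_right _ _)).trans hH
  have hH0 : (0 : ℝ) < (H : ℝ) := by exact_mod_cast hH1
  have hT := cnt_low (m := m) ha hM hHa
  have hB := hcnt P0 M H h4 hPb hM hHM
  have hcard : Nat.card {f : Fin (m + 1) → ℤ // T4 a M H f} ≤
      Nat.card {f : Fin (m + 1) → ℤ // T4 a M H f ∧ SolK4 ℝ a b f ∧ ∀ (p : ℕ) [Fact p.Prime], SolK4 ℚ_[p] a b f} +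
      Nat.card {f : Fin (m + 1) → ℤ // T4 a M H f ∧ ∃ p : ℕ, p.Prime ∧ P0 < p ∧ (p : ℤ) ∣ rem4 a b 0 f ∧
        (p : ℤ) ∣ rem4 a b 1 f} := by
    have hbox := E5_box m H
    have hsub : {f : Fin (m + 1) → ℤ | T4 a M H f} ⊆
        {f : Fin (m + 1) → ℤ | T4 a M H f ∧ SolK4 ℝ a b f ∧ ∀ (p : ℕ) [Fact p.Prime], SolK4 ℚ_[p] a b f} ∪
        {f : Fin (m + 1) → ℤ | T4 a M H f ∧ ∃ p : ℕ, p.Prime ∧ P0 < p ∧ (p : ℤ) ∣ rem4 a b 0 f ∧
          (p : ℤ) ∣ rem4 a b 1 f} := by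
      intro f hf
      by_cases hbd : ∃ p : ℕ, p.Prime ∧ P0 < p ∧ (p : ℤ) ∣ rem4 a b 0 f ∧ (p : ℤ) ∣ rem4 a b 1 f
      · right
        exact ⟨hf, hbd⟩
      · left
        refine ⟨hf, hels' H f hf fun p hp hlt hBp => hbd ⟨p, hp.out, hlt, ?_, ?_⟩⟩
        · exact rem_dvd (by omega) (E5_ndvd ha hPb hlt) (E5_ndvd hb hPc hlt) f hBp 0 (by norm_num)
        · exact rem_dvd (by omega) (E5_ndvd ha hPb hlt) (E5_ndvd hb hPc hlt) f hBp 1 (by norm_num)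
    have hf1 := hbox.subset (t := {f : Fin (m + 1) → ℤ | T4 a M H f ∧ SolK4 ℝ a b f ∧
      ∀ (p : ℕ) [Fact p.Prime], SolK4 ℚ_[p] a b f}) (fun f hf => hf.1.1)
    have hf2 := hbox.subset (t := {f : Fin (m + 1) → ℤ | T4 a M H f ∧ ∃ p : ℕ, p.Prime ∧ P0 < p ∧
      (p : ℤ) ∣ rem4 a b 0 f ∧ (p : ℤ) ∣ rem4 a b 1 f}) (fun f hf => hf.1.1)
    exact (Set.ncard_le_ncard hsub (hf1.union hf2)).trans (Set.ncard_union_le _ _)
  have hcard' : (Nat.card {f : Fin (m + 1) → ℤ // T4 a M H f} : ℝ) ≤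
      (Nat.card {f : Fin (m + 1) → ℤ // T4 a M H f ∧ SolK4 ℝ a b f ∧
        ∀ (p : ℕ) [Fact p.Prime], SolK4 ℚ_[p] a b f} : ℝ) +
      (Nat.card {f : Fin (m + 1) → ℤ // T4 a M H f ∧ ∃ p : ℕ, p.Prime ∧ P0 < p ∧ (p : ℤ) ∣ rem4 a b 0 f ∧
        (p : ℤ) ∣ rem4 a b 1 f} : ℝ) := by
    exact_mod_cast hcard
  obtain ⟨Y, hY⟩ : ∃ Y : ℝ, Y = (H : ℝ) ^ (m + 1) / M := ⟨_, rfl⟩
  have hY0 : 0 ≤ Y := by rw [hY]; positivity
  have e1 : (H : ℝ) ^ (m + 1) / (2 * |(a : ℝ)| * M) = Y * (1 / (2 * |(a : ℝ)|)) := by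
    rw [hY]
    field_simp
  have e2 : 1 / (4 * |(a : ℝ)| * M) * (H : ℝ) ^ (m + 1) = Y * (1 / (4 * |(a : ℝ)|)) := by
    rw [hY]
    field_simp
  have e3 : C * (1 / (P0 : ℝ) + 1 / (H : ℝ)) ≤ 1 / (8 * |(a : ℝ)|) := by
    have h1 : C / P0 ≤ 1 / (16 * |(a : ℝ)|) := by
      rw [div_le_div_iff₀ hP0r (by positivity)]
      linarith
    have h2 : C / H ≤ 1 / (16 * |(a : ℝ)|) := by
      rw [div_le_div_iff₀ hH0 (by positivity)]
      linarith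
    have h3 : 1 / (8 * |(a : ℝ)|) = 1 / (16 * |(a : ℝ)|) + 1 / (16 * |(a : ℝ)|) := by
      field_simp
      norm_num
    rw [h3, mul_add, mul_one_div, mul_one_div]
    exact add_le_add h1 h2
  have e4 : C * Y * (1 / (P0 : ℝ) + 1 / (H : ℝ)) ≤ Y * (1 / (8 * |(a : ℝ)|)) := by
    have h1 := mul_le_mul_of_nonneg_left e3 hY0
    linarith
  rw [e1] at hT
  rw [← hY] at hB
  rw [e2]
  have e5 : Y * (1 / (2 * |(a : ℝ)|)) = Y * (1 / (8 * |(a : ℝ)|)) * 4 := by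
    field_simp
    ring
  have e6 : Y * (1 / (4 * |(a : ℝ)|)) = Y * (1 / (8 * |(a : ℝ)|)) * 2 := by
    field_simp
    ring
  have e7 : 0 ≤ Y * (1 / (8 * |(a : ℝ)|)) := by positivity
  rw [e5] at hT
  rw [e6]
  linarith

end HZ
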