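import Pool.Agent.Lib.MP_10e784_agHA.E0
import Pool.Agent.Lib.MP_10e784_agHA.A1
import Pool.Agent.Lib.MP_10e784_agH.PB

/-!
# LEAF E6: the product is squarefree

MODEL: `MP_10e784_agH/EL.lean` (private `EL_map`, `EL_one`, `EL_rf`-like step with `exists_mul_add_mul_eq_C_resultant`), and `sqf_prod2` in `MP_10e784_agHE/G.lean` (store archive MP_10e784_ag_Hyp3.tgz).
PROOF.  Over `ℚ`: `q = C a * X ^ 4 + C b` is separable (`4 q - X q' = 4 b`), so squarefree; coprime to `pol f` because the resultant `r4 a b f` is not `0` (`r4_map` for `Int.castRingHom ℚ`; `exists_mul_add_mul_eq_C_resultant`); `pol f` is squarefree: the product of coprime squarefree polynomials is squarefree (`squarefree_mul_iff`, `IsCoprime.isRelPrime`).  Degree: `natDegree_mul`, `natDegree q = 4`, `natDegree (pol f) = m` (`pol_coeff`, `f (Fin.last m) ≠ 0`).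
-/

set_option autoImplicit false

namespace HZ

open Finset Polynomial HY

private theorem E6_q {K : Type} [Field K] (a b : K) (hb : (4 : K) * b ≠ 0) : Squarefree (C a * X ^ 4 + C b : K[X]) := by
  apply Separable.squarefree
  have hd : derivative (C a * X ^ 4 + C b : K[X]) = C (4 * a) * X ^ 3 := by
    simp only [derivative_add, derivative_C, derivative_C_mul, derivative_X_pow, add_zero]
    rw [C_mul]
    simp only [Nat.cast_ofNat, map_ofNat, Nat.add_one_sub_one]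
    ring
  have hid : C 4 * (C a * X ^ 4 + C b : K[X]) + (-X) * derivative (C a * X ^ 4 + C b : K[X]) = C (4 * b) := by
    rw [hd]
    simp only [C_mul, map_ofNat]
    ring
  have hc : (C (4 * b)⁻¹ : K[X]) * C (4 * b) = 1 := by
    rw [← C_mul, inv_mul_cancel₀ hb, C_1]
  refine ⟨C (4 * b)⁻¹ * C 4, C (4 * b)⁻¹ * (-X), ?_⟩
  rw [mul_assoc, mul_assoc, ← mul_add, hid, hc]

private theorem E6_qd {K : Type} [Field K] (a b : K) (ha : a ≠ 0) : (C a * X ^ 4 + C b : K[X]).natDegree = 4 := by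
  compute_degree!

private theorem E6_res {K : Type} [Field K] {m : ℕ} (a b : K) (ha : a ≠ 0) (f : Fin (m + 1) → K) (h : r4 a b f ≠ 0) :
    IsCoprime (C a * X ^ 4 + C b : K[X]) (pol f) := by
  obtain ⟨p, q, -, -, e⟩ := exists_mul_add_mul_eq_C_resultant (m := 4) (n := m) (C a * X ^ 4 + C b : K[X]) (pol f)
    (E6_qd a b ha).le (pol_deg f) (Or.inl four_ne_zero)
  have hc : (C (r4 a b f)⁻¹ : K[X]) * C (r4 a b f) = 1 := by
    rw [← C_mul, inv_mul_cancel₀ h, C_1]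
  refine ⟨C (r4 a b f)⁻¹ * p, C (r4 a b f)⁻¹ * q, ?_⟩
  have e' : p * (C a * X ^ 4 + C b : K[X]) + q * pol f = C (r4 a b f) := by
    unfold r4
    rw [← e]
    ring
  rw [mul_assoc, mul_assoc, ← mul_add, e', hc]

private theorem E6_deg {K : Type} [Field K] {m : ℕ} (f : Fin (m + 1) → K) (h : f (Fin.last m) ≠ 0) :
    (pol f).natDegree = m := by
  refine le_antisymm (pol_deg f) ?_
  apply Polynomial.le_natDegree_of_ne_zero
  rw [pol_coeff, dif_pos (Nat.lt_succ_self m)]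
  exact h

theorem sqf4 {m : ℕ} {a b : ℤ} (ha : a ≠ 0) (hb : b ≠ 0) (f : Fin (m + 1) → ℤ) (hR : r4 a b f ≠ 0)
    (hf : f (Fin.last m) ≠ 0) (hs : Squarefree (pol (fun i => ((f i : ℤ) : ℚ)))) :
    Squarefree ((C (a : ℚ) * X ^ 4 + C (b : ℚ)) * pol (fun i => ((f i : ℤ) : ℚ))) ∧
    ((C (a : ℚ) * X ^ 4 + C (b : ℚ)) * pol (fun i => ((f i : ℤ) : ℚ))).natDegree = m + 4 := by
  have ha' : (a : ℚ) ≠ 0 := by exact_mod_cast ha
  have hb' : (4 : ℚ) * (b : ℚ) ≠ 0 := mul_ne_zero four_ne_zero (by exact_mod_cast hb)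
  have e : r4 (a : ℚ) (b : ℚ) (fun i => ((f i : ℤ) : ℚ)) = ((r4 a b f : ℤ) : ℚ) :=
    r4_map (Int.castRingHom ℚ) a b f
  have hR' : r4 (a : ℚ) (b : ℚ) (fun i => ((f i : ℤ) : ℚ)) ≠ 0 := by
    rw [e]
    exact_mod_cast hR
  have cop := E6_res (a : ℚ) (b : ℚ) ha' (fun i => ((f i : ℤ) : ℚ)) hR'
  have sq := E6_q (a : ℚ) (b : ℚ) hb'
  have dgf : (pol (fun k => ((f k : ℤ) : ℚ))).natDegree = m := by
    refine E6_deg (fun k => ((f k : ℤ) : ℚ)) ?_
    have h' : ((f (Fin.last m) : ℤ) : ℚ) ≠ 0 := by exact_mod_cast hf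
    exact h'
  refine ⟨squarefree_mul_iff.2 ⟨cop.isRelPrime, sq, hs⟩, ?_⟩
  rw [natDegree_mul sq.ne_zero hs.ne_zero, E6_qd _ _ ha', dgf, add_comm]

end HZ
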