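import Pool.Agent.Lib.MP_10e784_agHA.O1
import Pool.Agent.Lib.MP_10e784_agHO.OH

/-!
# LEAF E7: few forms with resultant `0`

PROOF.  `P = r4 (C a) (C b) (fun i => MvPolynomial.X i)` over `MvPolynomial (Fin (m + 1)) ℤ`, `eval c P = r4 a b c` (`r4_map`); `P ≠ 0` because `r4 a b (1, 0, .., 0) = a ^ m ≠ 0` (the private `O1_one` in `O1.lean`: copy it).  `HYO.few_zeros P` with `h = fun _ => H`: the number times `H` is at most `C ∏ H = C H ^ (m + 1)`; the set of the `F` is the filter of the box `HYO.bx` (`Nat.subtype_card`).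
-/

set_option autoImplicit false

namespace HZ

open Finset Polynomial MWS HY

private theorem E7_one {R : Type} [CommRing R] (m : ℕ) (a b : R) :
    r4 a b (fun i : Fin (m + 1) => if (i : ℕ) = 0 then 1 else 0) = a ^ m := by
  have h1 : pol (fun i : Fin (m + 1) => if (i : ℕ) = 0 then (1 : R) else 0) = 1 := by
    unfold pol
    rw [Finset.sum_eq_single (0 : Fin (m + 1))]
    · beta_reduce
      rw [if_pos (by rfl)]
      rfl
    · intro i _ hi
      have h2 : (i : ℕ) ≠ 0 := fun h => hi (Fin.ext h)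
      beta_reduce
      rw [if_neg h2, monomial_zero_right]
    · intro h
      exact absurd (Finset.mem_univ _) h
  unfold r4
  rw [h1, resultant_one_right, coeff_add, coeff_C_mul, coeff_X_pow, coeff_C, if_pos rfl, if_neg (by norm_num),
    mul_one, add_zero]

theorem zeros4 {a b : ℤ} (ha : a ≠ 0) (m : ℕ) : ∃ C : ℝ, ∀ H : ℕ, 1 ≤ H →
    (Nat.card {F : Fin (m + 1) → ℤ // (∀ i, |F i| ≤ (H : ℤ)) ∧ r4 a b F = 0} : ℝ) * H ≤ C * (H : ℝ) ^ (m + 1) := by
  classical
  obtain ⟨P, hPd⟩ : ∃ P : MvPolynomial (Fin (m + 1)) ℤ,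
    P = r4 (MvPolynomial.C a) (MvPolynomial.C b) (fun i => MvPolynomial.X i) := ⟨_, rfl⟩
  have hev : ∀ c : Fin (m + 1) → ℤ, MvPolynomial.eval c P = r4 a b c := by
    intro c
    rw [hPd, ← r4_map]
    simp only [MvPolynomial.eval_C, MvPolynomial.eval_X]
  have hP : P ≠ 0 := by
    intro h0
    have h1 := hev fun i => if (i : ℕ) = 0 then 1 else 0
    rw [h0, map_zero, E7_one] at h1
    exact pow_ne_zero m ha h1.symm
  obtain ⟨C, hC⟩ := HYO.few_zeros P hP
  refine ⟨C, fun H hH => ?_⟩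
  have h1 := hC H hH (fun _ => H) (fun _ => le_rfl)
  rw [Finset.prod_const, Finset.card_univ, Fintype.card_fin] at h1
  have h2 : Nat.card {F : Fin (m + 1) → ℤ // (∀ i, |F i| ≤ (H : ℤ)) ∧ r4 a b F = 0} =
      ((HYO.bx fun _ : Fin (m + 1) => H).filter fun c => MvPolynomial.eval c P = 0).card := by
    refine Nat.subtype_card _ fun F => ?_
    rw [Finset.mem_filter, hev]
    refine and_congr ?_ Iff.rfl
    unfold HYO.bx
    rw [Fintype.mem_piFinset]
    refine forall_congr' fun i => ?_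
    rw [Finset.mem_Icc, abs_le]
  rw [h2]
  exact h1

end HZ
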