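import Pool.Agent.Lib.MP_10e784_agHA.E5
import Pool.Agent.Lib.MP_10e784_agHA.E6
import Pool.Agent.Lib.MP_10e784_agHA.E7
import Pool.Agent.Lib.MP_10e784_agH.EM

/-!
# LEAF E8: the failure of the Hasse principle

MODEL: `hp2` in `MP_10e784_agHE/H.lean` (store archive MP_10e784_ag_Hyp3.tgz).
PROOF.  The forms of `loc4` (at least `η₀ H^(m+1)`, in `T4`, so `f_m = a u ≠ 0`) minus those with `r4 = 0` (`zeros4`: at most `C H^m`), minus those which are not squarefree (`cnt_sqf` of `MP_10e784_agH/EM.lean`: at most `m (2 H + 1)^m`), minus those with a rational point (`hA`: at most `C' H^(m+1) exp(-(log H)^c) = o(H^(m+1))`); for the others `sqf4`.  `η = η₀ / 2`.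
-/

set_option autoImplicit false

namespace HZ

open Finset Polynomial HY

private noncomputable abbrev E8_bx (m N : ℕ) : Finset (Fin (m + 1) → ℤ) :=
  Fintype.piFinset (fun _ : Fin (m + 1) => Finset.Icc (-(N : ℤ)) N)

private theorem E8_mem (m N : ℕ) (g : Fin (m + 1) → ℤ) :
    g ∈ E8_bx m N ↔ ∀ i, |g i| ≤ (N : ℤ) := by
  simp only [E8_bx, Fintype.mem_piFinset, Finset.mem_Icc, abs_le]

private theorem E8_nat {m : ℕ} (H : ℕ) (P : (Fin (m + 1) → ℤ) → Prop) [DecidablePred P] :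
    Nat.card {f : Fin (m + 1) → ℤ // (∀ i, |f i| ≤ (H : ℤ)) ∧ P f} = ((E8_bx m H).filter P).card := by
  refine Nat.subtype_card _ fun z => ?_
  rw [Finset.mem_filter, E8_mem]

private theorem E8_exp {c C ε : ℝ} (hc : 0 < c) (hε : 0 < ε) : ∃ H0 : ℕ, ∀ H : ℕ, H0 ≤ H →
    C * Real.exp (-(Real.log H) ^ c) ≤ ε := by
  have h1 : Filter.Tendsto (fun H : ℕ => C * Real.exp (-(Real.log (H : ℝ)) ^ c)) Filter.atTop (nhds (C * 0)) := by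
    refine Filter.Tendsto.const_mul C (Real.tendsto_exp_atBot.comp ?_)
    refine Filter.tendsto_neg_atTop_atBot.comp ?_
    exact (tendsto_rpow_atTop hc).comp (Real.tendsto_log_atTop.comp tendsto_natCast_atTop_atTop)
  rw [mul_zero] at h1
  have h2 := h1.eventually (gt_mem_nhds hε)
  obtain ⟨H0, h3⟩ := Filter.eventually_atTop.1 h2
  exact ⟨H0, fun H hH => (h3 H hH).le⟩

theorem hp4 {c : ℝ} (hc : 0 < c) {m : ℕ} (hm : 2 ≤ m) {a b : ℤ} (ha : a ≠ 0) (hb : b ≠ 0)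
    (hA : ∃ C : ℝ, ∀ H : ℕ, 1 ≤ H → (Nat.card {F : Fin (m + 1) → ℤ // (∀ i, |F i| ≤ (H : ℤ)) ∧ SolK4 ℚ a b F} : ℝ) ≤
      C * (H : ℝ) ^ (m + 1) * Real.exp (-(Real.log H) ^ c)) :
    ∃ (η : ℝ) (H0 : ℕ), 0 < η ∧ ∀ H : ℕ, H0 ≤ H → η * (H : ℝ) ^ (m + 1) ≤
      (Nat.card {F : Fin (m + 1) → ℤ // (∀ i, |F i| ≤ (H : ℤ)) ∧
        Squarefree ((C (a : ℚ) * X ^ 4 + C (b : ℚ)) * pol (fun i => ((F i : ℤ) : ℚ))) ∧
        ((C (a : ℚ) * X ^ 4 + C (b : ℚ)) * pol (fun i => ((F i : ℤ) : ℚ))).natDegree = m + 4 ∧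
        SolK4 ℝ a b F ∧ (∀ (p : ℕ) [Fact p.Prime], SolK4 ℚ_[p] a b F) ∧ ¬ SolK4 ℚ a b F} : ℝ) := by
  classical
  obtain ⟨η, M, H1, hη, h1⟩ := loc4 hm ha hb
  obtain ⟨C₁, hC⟩ := hA
  obtain ⟨Z, hZ⟩ := zeros4 (a := a) (b := b) ha m
  have hη8 : 0 < η / 8 := by positivity
  obtain ⟨H2, h2⟩ := E8_exp (C := C₁) hc hη8
  obtain ⟨H3, h3⟩ := exists_nat_ge (Z / (η / 8))
  obtain ⟨H4, h4⟩ := exists_nat_ge (((m * 3 ^ m : ℕ) : ℝ) / (η / 8))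
  refine ⟨η / 2, max H1 (max H2 (max H3 (max H4 1))), half_pos hη, fun H hH => ?_⟩
  have a1 : H1 ≤ H := (le_max_left _ _).trans hH
  have hHa := (le_max_right _ _).trans hH
  have a2 : H2 ≤ H := (le_max_left _ _).trans hHa
  have hHb := (le_max_right _ _).trans hHa
  have a3 : H3 ≤ H := (le_max_left _ _).trans hHb
  have hHc := (le_max_right _ _).trans hHb
  have a4 : H4 ≤ H := (le_max_left _ _).trans hHc
  have a5 : 1 ≤ H := (le_max_right _ _).trans hHc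
  have hH0 : (0 : ℝ) < H := by exact_mod_cast a5
  have k1 := h1 H a1
  have k2 := hC H a5
  have k3 := hZ H a5
  have k4 := h2 H a2
  have k5 := cnt_sqf m H (by omega)
  have hpos : (0 : ℝ) < (H : ℝ) ^ (m + 1) := by positivity
  have hpos' : (0 : ℝ) < (H : ℝ) ^ m := by positivity
  have s1 : (Nat.card {F : Fin (m + 1) → ℤ // (∀ i, |F i| ≤ (H : ℤ)) ∧ SolK4 ℚ a b F} : ℝ) ≤
      η / 8 * (H : ℝ) ^ (m + 1) := by
    refine k2.trans ?_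
    calc C₁ * (H : ℝ) ^ (m + 1) * Real.exp (-(Real.log H) ^ c) =
          C₁ * Real.exp (-(Real.log H) ^ c) * (H : ℝ) ^ (m + 1) := by ring
      _ ≤ η / 8 * (H : ℝ) ^ (m + 1) := mul_le_mul_of_nonneg_right k4 hpos.le
  have s2 : (Nat.card {F : Fin (m + 1) → ℤ // (∀ i, |F i| ≤ (H : ℤ)) ∧ r4 a b F = 0} : ℝ) ≤
      η / 8 * (H : ℝ) ^ (m + 1) := by
    have t2 : Z / (η / 8) ≤ H := h3.trans (by exact_mod_cast a3)
    rw [div_le_iff₀ hη8] at t2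
    refine le_of_mul_le_mul_right ?_ hH0
    refine k3.trans ?_
    calc Z * (H : ℝ) ^ (m + 1) ≤ (H * (η / 8)) * (H : ℝ) ^ (m + 1) := mul_le_mul_of_nonneg_right t2 hpos.le
      _ = η / 8 * (H : ℝ) ^ (m + 1) * H := by ring
  have s3 : (Nat.card {f : Fin (m + 1) → ℤ // (∀ k, |f k| ≤ (H : ℤ)) ∧ f (Fin.last m) ≠ 0 ∧
      ¬ Squarefree (pol (fun i => ((f i : ℤ) : ℚ)))} : ℝ) ≤ η / 8 * (H : ℝ) ^ (m + 1) := by
    have t1 : m * (2 * H + 1) ^ m ≤ m * 3 ^ m * H ^ m := by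
      calc m * (2 * H + 1) ^ m ≤ m * (3 * H) ^ m := Nat.mul_le_mul le_rfl (Nat.pow_le_pow_left (by omega) m)
        _ = m * 3 ^ m * H ^ m := by rw [mul_pow, mul_assoc]
    have t2 : ((m * 3 ^ m : ℕ) : ℝ) / (η / 8) ≤ H := h4.trans (by exact_mod_cast a4)
    rw [div_le_iff₀ hη8] at t2
    have t3 : (Nat.card {f : Fin (m + 1) → ℤ // (∀ k, |f k| ≤ (H : ℤ)) ∧ f (Fin.last m) ≠ 0 ∧
      ¬ Squarefree (pol (fun i => ((f i : ℤ) : ℚ)))} : ℝ) ≤ ((m * 3 ^ m : ℕ) : ℝ) * (H : ℝ) ^ m := by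
      exact_mod_cast k5.trans t1
    refine t3.trans ?_
    calc ((m * 3 ^ m : ℕ) : ℝ) * (H : ℝ) ^ m ≤ (H * (η / 8)) * (H : ℝ) ^ m := mul_le_mul_of_nonneg_right t2 hpos'.le
      _ = η / 8 * (H : ℝ) ^ (m + 1) := by ring
  have e1 : Nat.card {f : Fin (m + 1) → ℤ // T4 a M H f ∧ SolK4 ℝ a b f ∧
      ∀ (p : ℕ) [Fact p.Prime], SolK4 ℚ_[p] a b f} =
      Nat.card {f : Fin (m + 1) → ℤ // (∀ i, |f i| ≤ (H : ℤ)) ∧
        ((∃ u : ℤ, 0 < u ∧ (M : ℤ) ∣ u - 1 ∧ f (Fin.last m) = a * u) ∧ SolK4 ℝ a b f ∧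
      ∀ (p : ℕ) [Fact p.Prime], SolK4 ℚ_[p] a b f)} :=
    Nat.card_congr (Equiv.subtypeEquivRight fun f =>
      ⟨fun h => ⟨h.1.1, h.1.2, h.2⟩, fun h => ⟨⟨h.1, h.2.1⟩, h.2.2⟩⟩)
  rw [e1, E8_nat (m := m) H (fun f : Fin (m + 1) → ℤ => (∃ u : ℤ, 0 < u ∧ (M : ℤ) ∣ u - 1 ∧ f (Fin.last m) = a * u) ∧ SolK4 ℝ a b f ∧
      ∀ (p : ℕ) [Fact p.Prime], SolK4 ℚ_[p] a b f)] at k1
  rw [E8_nat (m := m) H (fun F : Fin (m + 1) → ℤ => SolK4 ℚ a b F)] at s1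
  rw [E8_nat (m := m) H (fun F : Fin (m + 1) → ℤ => r4 a b F = 0)] at s2
  rw [E8_nat (m := m) H (fun f : Fin (m + 1) → ℤ => f (Fin.last m) ≠ 0 ∧ ¬ Squarefree (pol (fun i => ((f i : ℤ) : ℚ))))] at s3
  have e2 := E8_nat (m := m) H (fun F : Fin (m + 1) → ℤ =>
        Squarefree ((C (a : ℚ) * X ^ 4 + C (b : ℚ)) * pol (fun i => ((F i : ℤ) : ℚ))) ∧
        ((C (a : ℚ) * X ^ 4 + C (b : ℚ)) * pol (fun i => ((F i : ℤ) : ℚ))).natDegree = m + 4 ∧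
        SolK4 ℝ a b F ∧ (∀ (p : ℕ) [Fact p.Prime], SolK4 ℚ_[p] a b F) ∧ ¬ SolK4 ℚ a b F)
  rw [e2]
  have hsub : ((E8_bx m H).filter (fun f => (∃ u : ℤ, 0 < u ∧ (M : ℤ) ∣ u - 1 ∧ f (Fin.last m) = a * u) ∧
      SolK4 ℝ a b f ∧ ∀ (p : ℕ) [Fact p.Prime], SolK4 ℚ_[p] a b f)) ⊆
      ((E8_bx m H).filter (fun F =>
        Squarefree ((C (a : ℚ) * X ^ 4 + C (b : ℚ)) * pol (fun i => ((F i : ℤ) : ℚ))) ∧
        ((C (a : ℚ) * X ^ 4 + C (b : ℚ)) * pol (fun i => ((F i : ℤ) : ℚ))).natDegree = m + 4 ∧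
        SolK4 ℝ a b F ∧ (∀ (p : ℕ) [Fact p.Prime], SolK4 ℚ_[p] a b F) ∧ ¬ SolK4 ℚ a b F)) ∪
      ((E8_bx m H).filter (fun F => SolK4 ℚ a b F)) ∪
      ((E8_bx m H).filter (fun F => r4 a b F = 0)) ∪
      ((E8_bx m H).filter (fun f => f (Fin.last m) ≠ 0 ∧ ¬ Squarefree (pol (fun i => ((f i : ℤ) : ℚ))))) := by
    intro f hf
    obtain ⟨hbx, ⟨u, hu0, _, hfu⟩, hz1, hz2⟩ := Finset.mem_filter.1 hf
    by_cases p1 : SolK4 ℚ a b f
    · exact Finset.mem_union_left _ (Finset.mem_union_left _ (Finset.mem_union_right _ (Finset.mem_filter.2 ⟨hbx, p1⟩)))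
    by_cases p2 : r4 a b f = 0
    · exact Finset.mem_union_left _ (Finset.mem_union_right _ (Finset.mem_filter.2 ⟨hbx, p2⟩))
    have hl : f (Fin.last m) ≠ 0 := by
      rw [hfu]
      exact mul_ne_zero ha hu0.ne'
    by_cases p3 : Squarefree (pol (fun i => ((f i : ℤ) : ℚ)))
    · have h5 := sqf4 ha hb f p2 hl p3
      exact Finset.mem_union_left _ (Finset.mem_union_left _ (Finset.mem_union_left _
        (Finset.mem_filter.2 ⟨hbx, h5.1, h5.2, hz1, hz2, p1⟩)))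
    · exact Finset.mem_union_right _ (Finset.mem_filter.2 ⟨hbx, hl, p3⟩)
  have hcard := (Finset.card_le_card hsub).trans ((Finset.card_union_le _ _).trans (Nat.add_le_add
    ((Finset.card_union_le _ _).trans (Nat.add_le_add (Finset.card_union_le _ _) le_rfl)) le_rfl))
  have hcardR := (Nat.cast_le (α := ℝ)).2 hcard
  rw [Nat.cast_add, Nat.cast_add, Nat.cast_add] at hcardR
  linarith

end HZ
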