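import Pool.Agent.Lib.MP_10e784_agHA.A7
import Pool.Agent.Lib.MP_10e784_agHA.A8
import Pool.Agent.Lib.MP_10e784_agHA.A9

/-!
# LEAF FB: the forms `F` of the box with a solution and few bad primes

MODEL: the private `SL_fibre`, `SL_div`, `SL_45` in `MP_10e784_agH_SL.lean` (store), lines 130 - 230.
PROOF.  `average4` for `Pr F = Sol4 g a b F ∧ g r4 ≠ 0 ∧ ω(g r4) ≤ w`.  For every `F₀` of the box of radius `(1 + |a| + |b|) H`: `r4 a b (F₀ + mul4 a b Q) = r4 a b F₀` (`r4_add`), so if `g r4 a b F₀ ≠ 0` and `ω ≤ w` the number of `Q` is at most the bound of `one_fibre4` (with `few4`, `N = g r4 a b F₀`), otherwise it is `0`.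
`(4/5) ^ (|S| - w) ≤ (5/4) ^ w (4/5) ^ |S|` (`SL_45`).  The number of `F₀` is `(2 (1 + |a| + |b|) H + 1) ^ (n + 5) ≤ ((2 (1 + |a| + |b|) + 1) H) ^ (n + 5)`; division by `(2 H + 1) ^ (n + 1)` (`SL_div`).
-/

set_option autoImplicit false

namespace HZ

open Finset MWS HY

/-- division by the number of the `Q` -/
private theorem FB_div {n H : ℕ} (hH : 1 ≤ H) {N M Z : ℝ} (hM : 0 ≤ M)
    (h : N * (2 * (H : ℝ) + 1) ^ (n + 1) ≤ Z * (M * (4 * (H : ℝ)) ^ (n + 1))) (hZ : 0 ≤ Z) :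
    N ≤ 2 ^ (n + 1) * Z * M := by
  have hH0 : (1 : ℝ) ≤ H := by exact_mod_cast hH
  have h1 : (4 * (H : ℝ)) ^ (n + 1) ≤ 2 ^ (n + 1) * (2 * (H : ℝ) + 1) ^ (n + 1) := by
    rw [← mul_pow]
    exact pow_le_pow_left₀ (by positivity) (by linarith) _
  have h2 : 0 < (2 * (H : ℝ) + 1) ^ (n + 1) := by positivity
  refine le_of_mul_le_mul_right ?_ h2
  refine h.trans ?_
  calc Z * (M * (4 * (H : ℝ)) ^ (n + 1)) ≤ Z * (M * (2 ^ (n + 1) * (2 * (H : ℝ) + 1) ^ (n + 1))) := by gcongr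
    _ = 2 ^ (n + 1) * Z * M * (2 * (H : ℝ) + 1) ^ (n + 1) := by ring

private theorem FB_45 (T w : ℕ) : (4 / 5 : ℝ) ^ (T - w) ≤ (5 / 4) ^ w * (4 / 5) ^ T := by
  rcases le_total w T with h | h
  · have e : (4 / 5 : ℝ) ^ T = (4 / 5) ^ w * (4 / 5) ^ (T - w) := by
      rw [← pow_add, Nat.add_sub_cancel' h]
    rw [e, ← mul_assoc, ← mul_pow]
    norm_num
  · rw [Nat.sub_eq_zero_of_le h, pow_zero]
    have e : (5 / 4 : ℝ) ^ w = (5 / 4) ^ T * (5 / 4) ^ (w - T) := by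
      rw [← pow_add, Nat.add_sub_cancel' h]
    have h1 : (1 : ℝ) ≤ (5 / 4) ^ (w - T) := one_le_pow₀ (by norm_num)
    have h2 : (5 / 4 : ℝ) ^ T * (4 / 5) ^ T = 1 := by
      rw [← mul_pow]
      norm_num
    rw [e, mul_right_comm, h2, one_mul]
    exact h1

theorem fibre4 {C0 : ℕ} (hR : ∀ a b : ℤ, b ≠ 0 → a ^ 2 - 4 * b ≠ 0 →
    Few (81 * b - 27 * a ^ 2) (54 * a ^ 3 - 243 * (a * b))
      (b.natAbs.primeFactors.card + (a ^ 2 - 4 * b).natAbs.primeFactors.card + C0))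
    {n : ℕ} (hn : Even n) {g a b : ℤ} (ha : a ≠ 0) (hb : b ≠ 0) {H : ℕ} (hH : 1 ≤ H) {w t : ℕ}
    (ht : 2 * w + (2 * (a * b).natAbs.primeFactors.card + C0 + 1) ≤ t) (S : Finset ℕ) {L : ℕ} (hL : 1 ≤ L)
    (hS : ∀ p ∈ S, p.Prime ∧ 29 ≤ p ∧ ¬ IsSquare (-1 : ZMod p) ∧ ¬ IsSquare ((-(a * b) : ℤ) : ZMod p) ∧ p + 1 ∣ L ∧
      2 * p + 1 ≤ L) (hq : ∏ p ∈ S, p ≤ H) :
    (Nat.card {F : Fin (n + 4 + 1) → ℤ // (∀ i, |F i| ≤ (H : ℤ)) ∧
      (Sol4 g a b F ∧ g * r4 a b F ≠ 0 ∧ (g * r4 a b F).natAbs.primeFactors.card ≤ w)} : ℝ) ≤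
      2 ^ (n + 1) * ((2 * (1 + |(a : ℝ)| + |(b : ℝ)|) + 1) * (H : ℝ)) ^ (n + 5) *
        (2 ^ (w + 1) * (L : ℝ) ^ (t + 1) * (5 / 4) ^ w * (4 / 5) ^ S.card) := by
  set B : ℝ := 2 ^ (w + 1) * (L : ℝ) ^ (t + 1) * (5 / 4) ^ w * (4 / 5) ^ S.card with hB
  have hB0 : 0 ≤ B := by
    rw [hB]
    positivity
  have hH0 : (1 : ℝ) ≤ H := by exact_mod_cast hH
  have h1 : ∀ F : Fin (n + 4 + 1) → ℤ, (Nat.card {Q : Fin (n + 1) → ℤ // (∀ i, |Q i| ≤ (H : ℤ)) ∧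
      (Sol4 g a b (F + mul4 a b Q) ∧ g * r4 a b (F + mul4 a b Q) ≠ 0 ∧
        (g * r4 a b (F + mul4 a b Q)).natAbs.primeFactors.card ≤ w)} : ℝ) ≤ B * (4 * (H : ℝ)) ^ (n + 1) := by
    intro F
    by_cases hF : g * r4 a b F ≠ 0 ∧ (g * r4 a b F).natAbs.primeFactors.card ≤ w
    · have hk := one_fibre4 hn ha hb F hF.1 hF.2 (fun d hd hdN => few4 hR ha hb hF.1 hF.2 ht d hd hdN) S hL hS hq
      have e1 : Nat.card {Q : Fin (n + 1) → ℤ // (∀ i, |Q i| ≤ (H : ℤ)) ∧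
          (Sol4 g a b (F + mul4 a b Q) ∧ g * r4 a b (F + mul4 a b Q) ≠ 0 ∧
            (g * r4 a b (F + mul4 a b Q)).natAbs.primeFactors.card ≤ w)} =
          Nat.card {Q : Fin (n + 1) → ℤ // (∀ i, |Q i| ≤ (H : ℤ)) ∧ Sol4 g a b (F + mul4 a b Q)} := by
        refine Nat.card_congr (Equiv.subtypeEquivRight fun Q => ?_)
        rw [r4_add]
        exact ⟨fun h => ⟨h.1, h.2.1⟩, fun h => ⟨h.1, h.2, hF⟩⟩
      rw [e1]
      refine hk.trans ?_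
      have h45 := FB_45 S.card w
      calc (2 : ℝ) ^ (w + 1) * (L : ℝ) ^ (t + 1) * ((4 * (H : ℝ)) ^ (n + 1) * (4 / 5) ^ (S.card - w))
          ≤ (2 : ℝ) ^ (w + 1) * (L : ℝ) ^ (t + 1) * ((4 * (H : ℝ)) ^ (n + 1) *
            ((5 / 4) ^ w * (4 / 5) ^ S.card)) := by gcongr
        _ = B * (4 * (H : ℝ)) ^ (n + 1) := by
            rw [hB]
            ring
    · have e1 : Nat.card {Q : Fin (n + 1) → ℤ // (∀ i, |Q i| ≤ (H : ℤ)) ∧
          (Sol4 g a b (F + mul4 a b Q) ∧ g * r4 a b (F + mul4 a b Q) ≠ 0 ∧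
            (g * r4 a b (F + mul4 a b Q)).natAbs.primeFactors.card ≤ w)} = 0 := by
        have : IsEmpty {Q : Fin (n + 1) → ℤ // (∀ i, |Q i| ≤ (H : ℤ)) ∧
          (Sol4 g a b (F + mul4 a b Q) ∧ g * r4 a b (F + mul4 a b Q) ≠ 0 ∧
            (g * r4 a b (F + mul4 a b Q)).natAbs.primeFactors.card ≤ w)} := by
          refine ⟨fun Q => hF ?_⟩
          have := Q.2.2.2
          rw [r4_add] at this
          exact this
        exact Nat.card_of_isEmpty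
      rw [e1]
      push_cast
      positivity
  have h2 := average4 (n := n) a b (H := H)
    (fun F => Sol4 g a b F ∧ g * r4 a b F ≠ 0 ∧ (g * r4 a b F).natAbs.primeFactors.card ≤ w)
  set Z : ℝ := ((2 * (1 + |(a : ℝ)| + |(b : ℝ)|) + 1) * (H : ℝ)) ^ (n + 5) with hZ
  have hZ0 : 0 ≤ Z := by
    rw [hZ]
    positivity
  have h3 : ((Fintype.piFinset (fun _ : Fin (n + 4 + 1) => Icc (-((1 + |a| + |b|) * (H : ℤ)))
      ((1 + |a| + |b|) * (H : ℤ)))).card : ℝ) ≤ Z := by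
    rw [Fintype.card_piFinset, prod_const, card_univ, Fintype.card_fin, Int.card_Icc]
    have h4 : (((((1 + |a| + |b|) * (H : ℤ)) + 1 - -((1 + |a| + |b|) * (H : ℤ))).toNat : ℕ) : ℝ) =
        2 * ((1 + |(a : ℝ)| + |(b : ℝ)|) * (H : ℝ)) + 1 := by
      have h5 : 0 ≤ ((1 + |a| + |b|) * (H : ℤ)) + 1 - -((1 + |a| + |b|) * (H : ℤ)) := by
        have : 0 ≤ (1 + |a| + |b|) * (H : ℤ) := by positivity
        linarith
      have h6 := Int.toNat_of_nonneg h5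
      have h7 : (((((1 + |a| + |b|) * (H : ℤ)) + 1 - -((1 + |a| + |b|) * (H : ℤ))).toNat : ℤ) : ℝ) =
          ((((1 + |a| + |b|) * (H : ℤ)) + 1 - -((1 + |a| + |b|) * (H : ℤ)) : ℤ) : ℝ) := by rw [h6]
      rw [Int.cast_natCast] at h7
      rw [h7]
      push_cast
      ring
    push_cast
    rw [h4]
    refine pow_le_pow_left₀ (by positivity) ?_ _
    linarith
  have h4 : (Nat.card {F : Fin (n + 4 + 1) → ℤ // (∀ i, |F i| ≤ (H : ℤ)) ∧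
      (Sol4 g a b F ∧ g * r4 a b F ≠ 0 ∧ (g * r4 a b F).natAbs.primeFactors.card ≤ w)} : ℝ) *
      (2 * (H : ℝ) + 1) ^ (n + 1) ≤ Z * (B * (4 * (H : ℝ)) ^ (n + 1)) := by
    have h5 : (Nat.card {F : Fin (n + 4 + 1) → ℤ // (∀ i, |F i| ≤ (H : ℤ)) ∧
      (Sol4 g a b F ∧ g * r4 a b F ≠ 0 ∧ (g * r4 a b F).natAbs.primeFactors.card ≤ w)} : ℝ) *
      (2 * (H : ℝ) + 1) ^ (n + 1) ≤
      ∑ F ∈ Fintype.piFinset (fun _ : Fin (n + 4 + 1) => Icc (-((1 + |a| + |b|) * (H : ℤ)))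
        ((1 + |a| + |b|) * (H : ℤ))),
        (Nat.card {Q : Fin (n + 1) → ℤ // (∀ i, |Q i| ≤ (H : ℤ)) ∧
      (Sol4 g a b (F + mul4 a b Q) ∧ g * r4 a b (F + mul4 a b Q) ≠ 0 ∧
        (g * r4 a b (F + mul4 a b Q)).natAbs.primeFactors.card ≤ w)} : ℝ) := by
      exact_mod_cast h2
    refine h5.trans ((Finset.sum_le_sum fun F _ => h1 F).trans ?_)
    rw [Finset.sum_const, nsmul_eq_mul]
    gcongr
  exact FB_div hH hB0 h4 hZ0

end HZ
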