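import Pool.Agent.Lib.MP_10e784_agHA.O1
import Pool.Agent.Lib.MP_10e784_agHO.OG
import Pool.Agent.Lib.MP_10e784_agHO.OH

/-!
# LEAF O2: for most `F` the number `g r4 a b F` is not `0` and has few prime factors

MODEL: `factO` in `MP_10e784_agHO/OK.lean` (here the box is `|F_i| ≤ H`: `few_primes P hP 1`, `few_zeros`, with `h = fun _ => H`).
PROOF.  `P` from `exists_P4`.  The number of prime factors of `g r4` is at most `ω(g) + ω(r4)`, so for `H` large (`(log H) ^ (5 c / 2) + ω(g) ≤ (log H) ^ (3 c)`) the `F` of the set have `r4 = 0` or `(log H) ^ (5 c / 2) < ω(r4)`: `few_zeros` (`C H ^ (m + 1) / H`, and `1 / H = exp (-log H) ≤ e exp (-(log H) ^ c)`)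
and `few_primes P hP 1 (5 c / 2)` (`exp (-(log H) ^ (5 c / 4)) ≤ e exp (-(log H) ^ c)`).  For small `H` (`H < H₀`): the number is at most `(2 H + 1) ^ (m + 1) ≤ (3 H) ^ (m + 1)` and `exp (-(log H) ^ c) ≥ exp (-(log H₀) ^ c)`.
-/

set_option autoImplicit false

namespace HZ

open Finset MWS HY

private theorem O2_pow {L a b : ℝ} (hL : 0 ≤ L) (ha : 0 < a) (hab : a ≤ b) : L ^ a ≤ 1 + L ^ b := by
  rcases le_total L 1 with h | h
  · have h1 : L ^ a ≤ 1 := Real.rpow_le_one hL h ha.le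
    have h2 : 0 ≤ L ^ b := Real.rpow_nonneg hL b
    linarith
  · have h1 : L ^ a ≤ L ^ b := Real.rpow_le_rpow_of_exponent_le h hab
    linarith

/-- the threshold -/
private theorem O2_thr {L c w : ℝ} (hc : 0 < c) (hw : 0 ≤ w) (hL : (1 + w) ^ (2 / c) ≤ L) :
    L ^ (5 * c / 2) + w ≤ L ^ (3 * c) := by
  have h1 : (1 : ℝ) ≤ (1 + w) ^ (2 / c) := Real.one_le_rpow (by linarith) (by positivity)
  have hL1 : 1 ≤ L := h1.trans hL
  have hL0 : 0 < L := by linarith
  have h2 : 1 + w ≤ L ^ (c / 2) := by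
    have h3 : ((1 + w) ^ (2 / c)) ^ (c / 2) ≤ L ^ (c / 2) :=
      Real.rpow_le_rpow (by positivity) hL (by positivity)
    rw [← Real.rpow_mul (by linarith)] at h3
    have h4 : 2 / c * (c / 2) = 1 := by field_simp
    rw [h4, Real.rpow_one] at h3
    exact h3
  have h5 : L ^ (3 * c) = L ^ (5 * c / 2) * L ^ (c / 2) := by
    rw [← Real.rpow_add hL0]
    have e : 5 * c / 2 + c / 2 = 3 * c := by ring
    rw [e]
  have h6 : 1 ≤ L ^ (5 * c / 2) := Real.one_le_rpow hL1 (by positivity)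
  rw [h5]
  nlinarith

private theorem O2_omega {g r : ℤ} (hg : g ≠ 0) (hr : r ≠ 0) :
    ((g * r).natAbs.primeFactors.card : ℝ) ≤
      (g.natAbs.primeFactors.card : ℝ) + (r.natAbs.primeFactors.card : ℝ) := by
  rw [Int.natAbs_mul, Nat.primeFactors_mul (Int.natAbs_ne_zero.2 hg) (Int.natAbs_ne_zero.2 hr)]
  exact_mod_cast card_union_le _ _

theorem factO4 {g a b : ℤ} (hg : g ≠ 0) (hab : IsCoprime a b) {c : ℝ} (hc : 0 < c) (hc4 : c < 1 / 4) (m : ℕ) :
    ∃ C : ℝ, ∀ H : ℕ, 1 ≤ H →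
      (Nat.card {F : Fin (m + 1) → ℤ // (∀ i, |F i| ≤ (H : ℤ)) ∧
        (g * r4 a b F = 0 ∨ Real.log H ^ (3 * c) < ((g * r4 a b F).natAbs.primeFactors.card : ℝ))} : ℝ) ≤
      C * (H : ℝ) ^ (m + 1) * Real.exp (-(Real.log H) ^ c) := by
  classical
  obtain ⟨P, hP, hPe⟩ := exists_P4 hab m
  have hP0 : P ≠ 0 := by
    intro h
    exact hP 2 Nat.prime_two (by rw [h, map_zero])
  obtain ⟨C1, hC1⟩ := HYO.few_primes P hP 1 (5 * c / 2) (by linarith) (by linarith)
  obtain ⟨C2, hC2⟩ := HYO.few_zeros P hP0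
  set w : ℝ := (g.natAbs.primeFactors.card : ℝ) with hw
  have hw0 : 0 ≤ w := Nat.cast_nonneg _
  set L₀ : ℝ := (1 + w) ^ (2 / c) with hL₀
  have hL₀0 : 0 ≤ L₀ := Real.rpow_nonneg (by linarith) _
  refine ⟨(|C1| + |C2|) * Real.exp 1 + 3 ^ (m + 1) * Real.exp (L₀ ^ c), fun H hH => ?_⟩
  have hbox : ∀ i : Fin (m + 1), H ≤ (fun _ : Fin (m + 1) => H) i ∧ (fun _ : Fin (m + 1) => H) i ≤ H ^ 1 :=
    fun i => ⟨le_rfl, (pow_one H).ge⟩
  have h1 := hC1 H hH (fun _ => H) hbox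
  have h2 := hC2 H hH (fun _ => H) fun i => le_rfl
  have hprod : ∏ _i : Fin (m + 1), (H : ℝ) = (H : ℝ) ^ (m + 1) := by
    rw [Finset.prod_const, Finset.card_univ, Fintype.card_fin]
  rw [hprod] at h1 h2
  set L : ℝ := Real.log H with hL
  have hL0 : 0 ≤ L := Real.log_natCast_nonneg H
  have hHr : (1 : ℝ) ≤ H := by exact_mod_cast hH
  have hexpL : Real.exp (-L) = 1 / H := by
    rw [Real.exp_neg, hL, Real.exp_log (by linarith), one_div]
  have hN : (0 : ℝ) ≤ (H : ℝ) ^ (m + 1) := by positivity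
  have hmembx : ∀ F : Fin (m + 1) → ℤ, (∀ i, |F i| ≤ (H : ℤ)) →
      F ∈ HYO.bx (fun _ : Fin (m + 1) => H) := by
    intro F hF
    rw [Fintype.mem_piFinset]
    intro i
    rw [mem_Icc]
    exact abs_le.1 (hF i)
  rcases le_total L₀ L with hLL | hLL
  · -- large `H`
    set A : Finset (Fin (m + 1) → ℤ) := (HYO.bx (fun _ : Fin (m + 1) => H)).filter fun x =>
      MvPolynomial.eval x P ≠ 0 ∧
        L ^ (5 * c / 2) < ((MvPolynomial.eval x P).natAbs.primeFactors.card : ℝ) with hA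
    set B : Finset (Fin (m + 1) → ℤ) := (HYO.bx (fun _ : Fin (m + 1) => H)).filter fun x =>
      MvPolynomial.eval x P = 0 with hB
    have hmem : ∀ F : Fin (m + 1) → ℤ, ((∀ i, |F i| ≤ (H : ℤ)) ∧
        (g * r4 a b F = 0 ∨ L ^ (3 * c) < ((g * r4 a b F).natAbs.primeFactors.card : ℝ))) →
        F ∈ A ∪ B := by
      rintro F ⟨hF1, hF2⟩
      rw [mem_union, hA, hB, mem_filter, mem_filter, hPe]
      by_cases h0 : r4 a b F = 0
      · exact Or.inr ⟨hmembx F hF1, h0⟩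
      · refine Or.inl ⟨hmembx F hF1, h0, ?_⟩
        have h3 := hF2.resolve_left (mul_ne_zero hg h0)
        have h4 := O2_omega hg h0
        have h5 := O2_thr hc hw0 hLL
        linarith
    have hcard : (Nat.card {F : Fin (m + 1) → ℤ // (∀ i, |F i| ≤ (H : ℤ)) ∧
        (g * r4 a b F = 0 ∨ L ^ (3 * c) < ((g * r4 a b F).natAbs.primeFactors.card : ℝ))}) ≤
        A.card + B.card := by
      refine le_trans ?_ (card_union_le A B)
      have h3 : Nat.card {x // x ∈ A ∪ B} = (A ∪ B).card := by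
        rw [Nat.card_eq_fintype_card, Fintype.card_coe]
      rw [← h3]
      refine Nat.card_le_card_of_injective (fun z => ⟨z.1, hmem z.1 z.2⟩) ?_
      intro z z' hzz
      have h4 := congrArg Subtype.val hzz
      exact Subtype.ext h4
    have h3 : (A.card : ℝ) ≤ |C1| * (H : ℝ) ^ (m + 1) * (Real.exp 1 * Real.exp (-L ^ c)) := by
      refine h1.trans ?_
      have h4 : Real.exp (-L ^ (5 * c / 2 / 2)) ≤ Real.exp 1 * Real.exp (-L ^ c) := by
        rw [← Real.exp_add]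
        refine Real.exp_le_exp.2 ?_
        have := O2_pow hL0 hc (show c ≤ 5 * c / 2 / 2 by linarith)
        linarith
      have h5 : C1 * (H : ℝ) ^ (m + 1) ≤ |C1| * (H : ℝ) ^ (m + 1) :=
        mul_le_mul_of_nonneg_right (le_abs_self C1) hN
      exact mul_le_mul h5 h4 (Real.exp_pos _).le (by positivity)
    have h6 : (B.card : ℝ) ≤ |C2| * (H : ℝ) ^ (m + 1) * (Real.exp 1 * Real.exp (-L ^ c)) := by
      have h7 : (B.card : ℝ) ≤ |C2| * (H : ℝ) ^ (m + 1) * Real.exp (-L) := by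
        rw [hexpL, mul_one_div, le_div_iff₀ (by linarith)]
        exact h2.trans (mul_le_mul_of_nonneg_right (le_abs_self C2) hN)
      refine h7.trans (mul_le_mul_of_nonneg_left ?_ (by positivity))
      rw [← Real.exp_add]
      refine Real.exp_le_exp.2 ?_
      have := O2_pow hL0 hc (show c ≤ 1 by linarith)
      rw [Real.rpow_one] at this
      linarith
    have h8 : (0 : ℝ) ≤ 3 ^ (m + 1) * Real.exp (L₀ ^ c) * (H : ℝ) ^ (m + 1) * Real.exp (-L ^ c) := by
      positivity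
    calc (Nat.card {F : Fin (m + 1) → ℤ // (∀ i, |F i| ≤ (H : ℤ)) ∧
        (g * r4 a b F = 0 ∨ L ^ (3 * c) < ((g * r4 a b F).natAbs.primeFactors.card : ℝ))} : ℝ)
        ≤ (A.card : ℝ) + B.card := by exact_mod_cast hcard
      _ ≤ ((|C1| + |C2|) * Real.exp 1 + 3 ^ (m + 1) * Real.exp (L₀ ^ c)) * (H : ℝ) ^ (m + 1) *
          Real.exp (-L ^ c) := by
        nlinarith [h3, h6, h8]
  · -- small `H`
    have hcard : (Nat.card {F : Fin (m + 1) → ℤ // (∀ i, |F i| ≤ (H : ℤ)) ∧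
        (g * r4 a b F = 0 ∨ L ^ (3 * c) < ((g * r4 a b F).natAbs.primeFactors.card : ℝ))}) ≤
        (HYO.bx (fun _ : Fin (m + 1) => H)).card := by
      have h3 : Nat.card {x // x ∈ HYO.bx (fun _ : Fin (m + 1) => H)} =
          (HYO.bx (fun _ : Fin (m + 1) => H)).card := by
        rw [Nat.card_eq_fintype_card, Fintype.card_coe]
      rw [← h3]
      refine Nat.card_le_card_of_injective (fun z => ⟨z.1, hmembx z.1 z.2.1⟩) ?_
      intro z z' hzz
      have h4 := congrArg Subtype.val hzz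
      exact Subtype.ext h4
    have hbc : ((HYO.bx (fun _ : Fin (m + 1) => H)).card : ℝ) ≤ 3 ^ (m + 1) * (H : ℝ) ^ (m + 1) := by
      have h3 : (HYO.bx (fun _ : Fin (m + 1) => H)).card = (2 * H + 1) ^ (m + 1) := by
        rw [Fintype.card_piFinset, Finset.prod_const, Finset.card_univ, Fintype.card_fin, Int.card_Icc]
        have h4 : ((H : ℤ) + 1 - -(H : ℤ)).toNat = 2 * H + 1 := by omega
        rw [h4]
      rw [h3, ← mul_pow]
      push_cast
      exact pow_le_pow_left₀ (by positivity) (by linarith) _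
    have h9 : L ^ c ≤ L₀ ^ c := Real.rpow_le_rpow hL0 hLL hc.le
    have h10 : (1 : ℝ) ≤ Real.exp (L₀ ^ c) * Real.exp (-L ^ c) := by
      rw [← Real.exp_add]
      exact Real.one_le_exp (by linarith)
    have h11 : (0 : ℝ) ≤ (|C1| + |C2|) * Real.exp 1 * ((H : ℝ) ^ (m + 1) * Real.exp (-L ^ c)) := by
      positivity
    have h12 : (3 : ℝ) ^ (m + 1) * (H : ℝ) ^ (m + 1) ≤
        3 ^ (m + 1) * (H : ℝ) ^ (m + 1) * (Real.exp (L₀ ^ c) * Real.exp (-L ^ c)) :=
      le_mul_of_one_le_right (by positivity) h10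
    calc (Nat.card {F : Fin (m + 1) → ℤ // (∀ i, |F i| ≤ (H : ℤ)) ∧
        (g * r4 a b F = 0 ∨ L ^ (3 * c) < ((g * r4 a b F).natAbs.primeFactors.card : ℝ))} : ℝ)
        ≤ ((HYO.bx (fun _ : Fin (m + 1) => H)).card : ℝ) := by exact_mod_cast hcard
      _ ≤ 3 ^ (m + 1) * (H : ℝ) ^ (m + 1) := hbc
      _ ≤ 3 ^ (m + 1) * (H : ℝ) ^ (m + 1) * (Real.exp (L₀ ^ c) * Real.exp (-L ^ c)) := h12
      _ ≤ ((|C1| + |C2|) * Real.exp 1 + 3 ^ (m + 1) * Real.exp (L₀ ^ c)) * (H : ℝ) ^ (m + 1) *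
          Real.exp (-L ^ c) := by
        nlinarith [h11]

end HZ
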