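import Mathlib

/-!
# LEAF PR: the choice of the parameters (Mathlib only)

MODEL: `par_Q` in `MP_10e784_agH/SJ.lean` (private `SJ_log`, `SJ_ge`, `SJ_clog`; copy them).
PROOF.  `δ = 1 - 1 / A ∈ (0, 1/2]`, `c₀ = δ / 8`; `X = ⌊log H / 2⌋₊` (so `4 ^ X ≤ H` and `log H ≤ 4 X + 4`), `e = Nat.clog 2 (3 X)` (`3 X ≤ 2 ^ e`, `e ≤ 4 log X`), `Y = ⌈X ^ (1 / A)⌉₊ + 4 ≤ 2 X ^ (1 / A)`, `w = ⌈(4 X + 4) ^ (3 c₀)⌉₊ ≤ 2 X ^ (δ / 2)`, `t = 2 w + C₀ ≤ 5 X ^ (δ / 2)` for `X` large.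
The left side of the last inequality is `≤ C X ^ (δ / 2) log X · X ^ (1 - δ) = C X ^ (1 - δ / 2) log X`, which is `≤ log (5/4) X / (K log X)` for `X` large.
-/

set_option autoImplicit false

namespace HZ

open Filter

private theorem PR_log (C δ : ℝ) (n : ℕ) (hδ : 0 < δ) :
    ∀ᶠ x : ℝ in atTop, C * Real.log x ^ n ≤ x ^ δ := by
  have h := (isLittleO_log_rpow_rpow_atTop (n : ℝ) hδ).bound (c := 1 / (|C| + 1)) (by positivity)
  filter_upwards [h, eventually_ge_atTop 1] with x hx h1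
  have h0 : 0 ≤ Real.log x := Real.log_nonneg h1
  rw [Real.rpow_natCast, Real.norm_of_nonneg (by positivity),
    Real.norm_of_nonneg (by positivity)] at hx
  have h2 : C * Real.log x ^ n ≤ (|C| + 1) * Real.log x ^ n :=
    mul_le_mul_of_nonneg_right (by linarith [le_abs_self C]) (by positivity)
  have h3 : (|C| + 1) * Real.log x ^ n ≤ (|C| + 1) * (1 / (|C| + 1) * x ^ δ) :=
    mul_le_mul_of_nonneg_left hx (by positivity)
  have h4 : (|C| + 1) * (1 / (|C| + 1) * x ^ δ) = x ^ δ := by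
    field_simp
  linarith

private theorem PR_ge (C δ : ℝ) (hδ : 0 < δ) : ∀ᶠ x : ℝ in atTop, C ≤ x ^ δ :=
  (tendsto_rpow_atTop hδ).eventually_ge_atTop C

private theorem PR_clog {X : ℕ} (hX : 1 ≤ X) (hl : 4 ≤ Real.log X) :
    (Nat.clog 2 (3 * X) : ℝ) ≤ 4 * Real.log X := by
  have hx : (0 : ℝ) < X := by exact_mod_cast hX
  have h1 : 2 ^ (Nat.clog 2 (3 * X)).pred < 3 * X := Nat.pow_pred_clog_lt_self (by norm_num) (by omega)
  have h2 : (2 : ℝ) ^ (Nat.clog 2 (3 * X)).pred < 3 * X := by exact_mod_cast h1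
  have h3 := Real.log_lt_log (by positivity) h2
  rw [Real.log_pow, Real.log_mul (by norm_num) (by positivity)] at h3
  have h4 : (Nat.clog 2 (3 * X) : ℝ) ≤ (Nat.clog 2 (3 * X)).pred + 1 := by
    exact_mod_cast Nat.le_succ_of_pred_le le_rfl
  have h5 := Real.log_two_gt_d9
  have h6 : Real.log 3 ≤ 2 := by
    have h7 := Real.log_le_sub_one_of_pos (show (0 : ℝ) < 3 by norm_num)
    linarith
  have h7 : (0 : ℝ) ≤ ((Nat.clog 2 (3 * X)).pred : ℝ) := Nat.cast_nonneg _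
  nlinarith

private theorem PR_loss {x l a b K g t e Y w v : ℝ} (hK : 1 ≤ K) (hg : 0 < g) (hl : 1 ≤ l) (ha : 1 ≤ a)
    (hb : 1 ≤ b) (hx : x = b * (a * a * a * a)) (_ : 0 ≤ t) (ht : t + 1 ≤ 2 * a) (he0 : 0 ≤ e)
    (he : e ≤ 4 * l) (hY0 : 0 ≤ Y) (hY : Y ≤ 2 * b) (hw0 : 0 ≤ w) (hw : w ≤ a) (hv : v ≤ a)
    (h1 : 36 * K / g * l ^ 2 ≤ a) :
    (w + 1) * Real.log 2 + (t + 1) * e * Y * Real.log 4 + w * Real.log (5 / 4) + v ≤ g * (x / (K * l)) := by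
  have h4 : Real.log 4 ≤ 2 := by
    have h5 : Real.log 4 = 2 * Real.log 2 := by
      rw [show (4 : ℝ) = 2 ^ 2 by norm_num, Real.log_pow]
      norm_num
    have h6 := Real.log_two_lt_d9
    linarith
  have h4' : 0 ≤ Real.log 4 := Real.log_nonneg (by norm_num)
  have hl2 : Real.log 2 ≤ 1 := by
    have h6 := Real.log_two_lt_d9
    linarith
  have hl5 : Real.log (5 / 4) ≤ 1 := by
    have h7 := Real.log_le_sub_one_of_pos (show (0 : ℝ) < 5 / 4 by norm_num)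
    linarith
  have k1 : (w + 1) * Real.log 2 ≤ (w + 1) * 1 := by gcongr
  have k2 : w * Real.log (5 / 4) ≤ w * 1 := by gcongr
  have k3 : (t + 1) * e * Y * Real.log 4 ≤ (2 * a) * (4 * l) * (2 * b) * 2 := by gcongr
  have k4 : a ≤ a * l * b := by
    have k5 : a * 1 * 1 ≤ a * l * b := by gcongr
    linarith
  have k6 : (w + 1) * Real.log 2 + (t + 1) * e * Y * Real.log 4 + w * Real.log (5 / 4) + v ≤
      36 * (a * l * b) := by
    have k7 : (2 * a) * (4 * l) * (2 * b) * 2 = 32 * (a * l * b) := by ring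
    linarith
  refine k6.trans ?_
  rw [← mul_div_assoc, le_div_iff₀ (by positivity), hx]
  have h3 : 36 * K * l ^ 2 ≤ g * a := by
    have h3 := mul_le_mul_of_nonneg_left h1 hg.le
    have h5 : g * (36 * K / g * l ^ 2) = 36 * K * l ^ 2 := by field_simp
    linarith
  have haa : a ≤ a * a * a := by
    have k8 : a * 1 * 1 ≤ a * a * a := by gcongr
    linarith
  calc 36 * (a * l * b) * (K * l) = (36 * K * l ^ 2) * (a * b) := by ring
    _ ≤ (g * a) * (a * b) := by gcongr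
    _ = (g * b * a) * a := by ring
    _ ≤ (g * b * a) * (a * a * a) := by gcongr
    _ = g * (b * (a * a * a * a)) := by ring

private theorem PR_X {A : ℝ} (hA : 1 < A) (hA2 : A ≤ 2) : ∃ c₀ : ℝ, 0 < c₀ ∧ c₀ < 1 / 4 ∧ ∀ (K : ℝ) (C₀ : ℕ), 1 ≤ K →
    ∀ᶠ X : ℕ in atTop, ∃ t e Y w : ℕ, 3 * X ≤ 2 ^ e ∧ 4 ≤ Y ∧
    (X : ℝ) ^ (1 / A) ≤ Y ∧ (4 * (X : ℝ) + 4) ^ (3 * c₀) ≤ w ∧ 2 * w + C₀ ≤ t ∧
    ((w : ℝ) + 1) * Real.log 2 + ((t : ℝ) + 1) * e * Y * Real.log 4 + w * Real.log (5 / 4) +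
      (4 * (X : ℝ) + 4) ^ c₀ ≤ Real.log (5 / 4) * (X / (K * Real.log X)) := by
  have hA0 : 0 < A := by linarith
  obtain ⟨s, hs⟩ : ∃ s : ℝ, s = (1 - 1 / A) / 4 := ⟨_, rfl⟩
  have hA1 : 1 / A < 1 := by
    rw [div_lt_one hA0]
    exact hA
  have hA3 : 1 / 2 ≤ 1 / A := one_div_le_one_div_of_le hA0 hA2
  have hs0 : 0 < s := by
    rw [hs]
    linarith
  have hs8 : s ≤ 1 / 8 := by
    rw [hs]
    linarith
  have hg : 0 < Real.log (5 / 4) := Real.log_pos (by norm_num)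
  refine ⟨s / 8, by positivity, by linarith, fun K C₀ hK => ?_⟩
  have hnat := tendsto_natCast_atTop_atTop (R := ℝ)
  filter_upwards [hnat.eventually (PR_ge (C₀ + 7) s hs0), hnat.eventually (PR_ge 7 (1 / A) (by linarith)),
    hnat.eventually (PR_log (36 * K / Real.log (5 / 4)) s 2 hs0),
    hnat.eventually (PR_ge 2 (s / 4) (by positivity)), hnat.eventually (eventually_ge_atTop 100),
    hnat.eventually (Real.tendsto_log_atTop.eventually_ge_atTop 4)]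
    with X A1 A2 A3 A4 A5 A6
  obtain ⟨x, hx⟩ : ∃ x : ℝ, x = X := ⟨_, rfl⟩
  rw [← hx] at A1 A2 A3 A4 A5 A6
  have hx0 : 0 < x := by linarith
  have hx1 : 1 ≤ x := by linarith
  have hX1 : 1 ≤ X := by
    have h1 : (1 : ℝ) ≤ X := by rw [← hx]; exact hx1
    exact_mod_cast h1
  obtain ⟨a, ha⟩ : ∃ a : ℝ, a = x ^ s := ⟨_, rfl⟩
  have hC0 : (0 : ℝ) ≤ C₀ := Nat.cast_nonneg _
  have ha4 : (C₀ : ℝ) + 7 ≤ a := by rw [ha]; exact A1
  have ha0 : 0 < a := by linarith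
  obtain ⟨b, hb⟩ : ∃ b : ℝ, b = x ^ (1 / A) := ⟨_, rfl⟩
  have hb7 : 7 ≤ b := by rw [hb]; exact A2
  have hxab : x = b * (a * a * a * a) := by
    rw [ha, hb, ← Real.rpow_add hx0, ← Real.rpow_add hx0, ← Real.rpow_add hx0, ← Real.rpow_add hx0]
    have h1 : 1 / A + (s + s + s + s) = 1 := by
      rw [hs]
      ring
    rw [h1, Real.rpow_one]
  have h44 : 4 * x + 4 ≤ x ^ (2 : ℝ) := by
    rw [Real.rpow_two]
    nlinarith
  have hv : (4 * x + 4) ^ (s / 8) ≤ a := by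
    calc (4 * x + 4) ^ (s / 8) ≤ (x ^ (2 : ℝ)) ^ (s / 8) :=
          Real.rpow_le_rpow (by positivity) h44 (by positivity)
      _ = x ^ (2 * (s / 8)) := by rw [← Real.rpow_mul hx0.le]
      _ ≤ x ^ s := Real.rpow_le_rpow_of_exponent_le hx1 (by linarith)
      _ = a := ha.symm
  have hbb : (4 * x + 4) ^ (3 * (s / 8)) ≤ a / 2 := by
    have h1 : (4 * x + 4) ^ (3 * (s / 8)) ≤ x ^ (3 * s / 4) := by
      calc (4 * x + 4) ^ (3 * (s / 8)) ≤ (x ^ (2 : ℝ)) ^ (3 * (s / 8)) :=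
            Real.rpow_le_rpow (by positivity) h44 (by positivity)
        _ = x ^ (3 * s / 4) := by
            rw [← Real.rpow_mul hx0.le]
            congr 1
            ring
    have h2 : x ^ (s / 4) * x ^ (3 * s / 4) = a := by
      rw [ha, ← Real.rpow_add hx0]
      congr 1
      ring
    have h3 : 0 ≤ x ^ (3 * s / 4) := by positivity
    nlinarith
  obtain ⟨w, hw⟩ : ∃ w : ℕ, w = ⌈(4 * x + 4) ^ (3 * (s / 8))⌉₊ := ⟨_, rfl⟩
  have hw1 : (4 * x + 4) ^ (3 * (s / 8)) ≤ w := by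
    rw [hw]
    exact Nat.le_ceil _
  have hw2 : (w : ℝ) < (4 * x + 4) ^ (3 * (s / 8)) + 1 := by
    rw [hw]
    exact Nat.ceil_lt_add_one (by positivity)
  obtain ⟨Y, hY⟩ : ∃ Y : ℕ, Y = ⌈b⌉₊ + 4 := ⟨_, rfl⟩
  have hY1 : b ≤ Y := by
    rw [hY]
    push_cast
    linarith [Nat.le_ceil b]
  have hY2 : (Y : ℝ) ≤ 2 * b := by
    rw [hY]
    push_cast
    linarith [Nat.ceil_lt_add_one (show 0 ≤ b by linarith)]
  have hl : 1 ≤ Real.log x := by linarith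
  have he : (Nat.clog 2 (3 * X) : ℝ) ≤ 4 * Real.log x := by
    rw [hx]
    exact PR_clog hX1 (by rw [← hx]; exact A6)
  refine ⟨2 * w + C₀, Nat.clog 2 (3 * X), Y, w, Nat.le_pow_clog (by norm_num) _, by omega, ?_, ?_, le_rfl, ?_⟩
  · rw [← hx, ← hb]
    exact hY1
  · rw [← hx]
    exact hw1
  · rw [← hx]
    refine PR_loss hK hg hl (by linarith) (by linarith) hxab (by positivity) ?_ (by positivity) he
      (by positivity) hY2 (by positivity) (by linarith) hv ?_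
    · push_cast
      linarith
    · rw [ha]
      exact A3

theorem par4 {A : ℝ} (hA : 1 < A) (hA2 : A ≤ 2) : ∃ c₀ : ℝ, 0 < c₀ ∧ c₀ < 1 / 4 ∧ ∀ (K : ℝ) (C₀ : ℕ), 1 ≤ K → ∀ x₀ : ℝ,
    ∃ H₀ : ℕ, ∀ H : ℕ, H₀ ≤ H → ∃ X t e Y w : ℕ, x₀ ≤ X ∧ 4 ^ X ≤ H ∧ (29 : ℝ) ≤ X / K ∧ 3 * X ≤ 2 ^ e ∧ 4 ≤ Y ∧
    (X : ℝ) ^ (1 / A) ≤ Y ∧ (Real.log H) ^ (3 * c₀) ≤ w ∧ 2 * w + C₀ ≤ t ∧
    ((w : ℝ) + 1) * Real.log 2 + ((t : ℝ) + 1) * e * Y * Real.log 4 + w * Real.log (5 / 4) + (Real.log H) ^ c₀ ≤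
      Real.log (5 / 4) * (X / (K * Real.log X)) := by
  obtain ⟨c₀, hc₀, hc₁, hpar⟩ := PR_X hA hA2
  refine ⟨c₀, hc₀, hc₁, fun K C₀ hK x₀ => ?_⟩
  have hlim : Tendsto (fun H : ℕ => ⌊Real.log (H : ℝ) / 2⌋₊) atTop atTop := by
    refine tendsto_nat_floor_atTop.comp ?_
    exact (Real.tendsto_log_atTop.comp tendsto_natCast_atTop_atTop).atTop_div_const (by norm_num)
  have hX1 : ∀ᶠ X : ℕ in atTop, x₀ ≤ (X : ℝ) := tendsto_natCast_atTop_atTop.eventually_ge_atTop x₀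
  have hX2 : ∀ᶠ X : ℕ in atTop, 29 * K ≤ (X : ℝ) := tendsto_natCast_atTop_atTop.eventually_ge_atTop (29 * K)
  have hall := hlim.eventually (((hpar K C₀ hK).and hX1).and hX2)
  obtain ⟨H₀, hH₀⟩ := eventually_atTop.1 hall
  refine ⟨max H₀ 1, fun H hH => ?_⟩
  have hH1 : 1 ≤ H := le_trans (le_max_right _ _) hH
  obtain ⟨⟨⟨t, e, Y, w, h1, h2, h3, h4, h5, h6⟩, h12⟩, h13⟩ :=
    hH₀ H (le_trans (le_max_left _ _) hH)
  have hHpos : (0 : ℝ) < H := by exact_mod_cast hH1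
  have hlog0 : 0 ≤ Real.log H := Real.log_nonneg (by exact_mod_cast hH1)
  set X : ℕ := ⌊Real.log (H : ℝ) / 2⌋₊ with hX
  have hXle : (X : ℝ) ≤ Real.log H / 2 := Nat.floor_le (by positivity)
  have hXlt : Real.log H / 2 < (X : ℝ) + 1 := Nat.lt_floor_add_one _
  have hlog4 : Real.log 4 ≤ 2 := by
    have : Real.log 4 = 2 * Real.log 2 := by
      rw [show (4 : ℝ) = 2 ^ 2 by norm_num, Real.log_pow]
      norm_num
    have h := Real.log_two_lt_d9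
    linarith
  have hlog4' : 0 ≤ Real.log 4 := Real.log_nonneg (by norm_num)
  have hX0 : (0 : ℝ) ≤ X := Nat.cast_nonneg _
  have h4X : 4 ^ X ≤ H := by
    have h : ((4 : ℝ)) ^ X ≤ H := by
      rw [← Real.log_le_log_iff (by positivity) hHpos, Real.log_pow]
      nlinarith
    exact_mod_cast h
  have hle : Real.log H ≤ 4 * (X : ℝ) + 4 := by linarith
  have hpow : (Real.log H) ^ c₀ ≤ (4 * (X : ℝ) + 4) ^ c₀ := Real.rpow_le_rpow hlog0 hle hc₀.le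
  have hpow3 : (Real.log H) ^ (3 * c₀) ≤ (4 * (X : ℝ) + 4) ^ (3 * c₀) :=
    Real.rpow_le_rpow hlog0 hle (by positivity)
  refine ⟨X, t, e, Y, w, h12, h4X, ?_, h1, h2, h3, hpow3.trans h4, h5, ?_⟩
  · rw [le_div_iff₀ (by linarith)]
    exact h13
  · linarith

end HZ
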