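import Pool.Agent.Lib.MP_10e784_agHA.Defs
import Pool.Agent.Lib.MP_10e784_agW.FA1

/-!
# LEAF SM: the sieving primes

PROOF.  `S2 D A K X ⊆ (X / K, X]`; `p ≥ 29` because `p > X / K - ..`: `p ∈ Ioc ⌊X / K⌋₊ ⌊X⌋₊` gives `X / K < p` (`Nat.lt_of_floor_lt`).  `2 p + 1 ≤ 3 X ≤ 2 ^ e ≤ primorial Y ^ e` (`2 ≤ primorial Y` for `Y ≥ 2`, private `SG_primorial` in `MP_10e784_agH/SG.lean`).
`p + 1 ∣ primorial Y ^ e`: every prime `q ∣ p + 1` has `q ^ A ≤ X`, so `q ≤ X ^ (1 / A) ≤ Y` (`Real.rpow_le_rpow`, `Real.rpow_mul`); `dvd_prim (p + 1) (3 X) Y` (`MP_10e784_agW/FA1.lean`) and `Nat.log 2 (3 X) ≤ e` (`Nat.log_mono_right`, `Nat.log_pow`; `pow_dvd_pow`).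
The product of the `p ∈ S2` divides / is at most `primorial X ≤ 4 ^ X ≤ H` (as in the private `SL_main` of `MP_10e784_agH_SL.lean`: `Finset.prod_le_prod_of_subset_of_one_le'`).
-/

set_option autoImplicit false

namespace HZ

open Finset MWS HY

private theorem SM_primorial {Y : ℕ} (hY : 4 ≤ Y) : 2 ≤ primorial Y := by
  refine Nat.le_of_dvd (primorial_pos Y) ?_
  unfold primorial
  exact Finset.dvd_prod_of_mem (f := fun p => p) (a := 2)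
    (Finset.mem_filter.2 ⟨Finset.mem_range.2 (by omega), Nat.prime_two⟩)

open Classical in
private theorem SM_mem {D : ℤ} {A K : ℝ} {X p : ℕ} (hp : p ∈ S2 D A K X) :
    ((X : ℝ) / K < p ∧ p ≤ X) ∧ p.Prime ∧ ¬ IsSquare (-1 : ZMod p) ∧ ¬ IsSquare ((D : ℤ) : ZMod p) ∧
      ∀ q : ℕ, q.Prime → q ∣ p + 1 → (q : ℝ) ^ A ≤ X := by
  have h0 := Finset.mem_filter.1 hp
  rw [Finset.mem_Ioc, Nat.floor_natCast] at h0
  exact ⟨⟨Nat.lt_of_floor_lt h0.1.1, h0.1.2⟩, h0.2⟩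

private theorem SM_root {A : ℝ} (hA : 1 < A) {q X Y : ℕ} (h : (q : ℝ) ^ A ≤ X) (hY : (X : ℝ) ^ (1 / A) ≤ Y) :
    q ≤ Y := by
  have hA0 : A ≠ 0 := by linarith
  have hq0 : (0 : ℝ) ≤ q := Nat.cast_nonneg q
  have h1 : (q : ℝ) = ((q : ℝ) ^ A) ^ (1 / A) := by
    rw [← Real.rpow_mul hq0, mul_one_div_cancel hA0, Real.rpow_one]
  have h2 : ((q : ℝ) ^ A) ^ (1 / A) ≤ (X : ℝ) ^ (1 / A) :=
    Real.rpow_le_rpow (Real.rpow_nonneg hq0 A) h (by positivity)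
  have h3 : (q : ℝ) ≤ Y := by
    rw [h1]
    exact h2.trans hY
  exact_mod_cast h3

theorem S2_mem {D : ℤ} {A K : ℝ} (hA : 1 < A) (hK : 1 ≤ K) {X e Y : ℕ} (h29 : (29 : ℝ) ≤ X / K) (he : 3 * X ≤ 2 ^ e)
    (hY4 : 4 ≤ Y) (hY : (X : ℝ) ^ (1 / A) ≤ Y) :
    ∀ p ∈ S2 D A K X, p.Prime ∧ 29 ≤ p ∧ ¬ IsSquare (-1 : ZMod p) ∧ ¬ IsSquare ((D : ℤ) : ZMod p) ∧
      p + 1 ∣ primorial Y ^ e ∧ 2 * p + 1 ≤ primorial Y ^ e := by
  intro p hp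
  obtain ⟨⟨hp3, hp2⟩, hpp, hs1, hs2, hsm⟩ := SM_mem hp
  have hp29 : 29 ≤ p := by
    have : (29 : ℝ) ≤ p := h29.trans hp3.le
    exact_mod_cast this
  have hpr : 2 ≤ primorial Y := SM_primorial hY4
  refine ⟨hpp, hp29, hs1, hs2, ?_, ?_⟩
  · have h1 := dvd_prim (p + 1) (3 * X) Y (by omega) (by omega)
      (fun q hq hqp => SM_root hA (hsm q hq hqp) hY)
    refine h1.trans (pow_dvd_pow _ ?_)
    have h2 := Nat.log_mono_right (b := 2) he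
    rwa [Nat.log_pow one_lt_two] at h2
  · have h1 : 2 ^ e ≤ primorial Y ^ e := Nat.pow_le_pow_left hpr e
    omega

theorem S2_prod {D : ℤ} {A K : ℝ} {X H : ℕ} (h4 : 4 ^ X ≤ H) : ∏ p ∈ S2 D A K X, p ≤ H := by
  refine le_trans ?_ ((primorial_le_four_pow X).trans h4)
  unfold primorial
  refine Finset.prod_le_prod_of_subset_of_one_le' ?_ ?_
  · intro p hp
    have hp' := SM_mem hp
    rw [Finset.mem_filter, Finset.mem_range]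
    exact ⟨Nat.lt_succ_of_le hp'.1.2, hp'.2.1⟩
  · intro p hp _
    rw [Finset.mem_filter] at hp
    exact hp.2.one_lt.le

end HZ
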