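import Pool.Agent.Lib.MP_10e784_agW.SA

/-!
# Primes inert in two quadratic fields

`split_lower`: the primes for which the nonsquare integer `E` is a square have logarithmic density at least `1 / 2` (Mertens for
`ℚ(√E)`: a prime ideal of prime norm `p` gives a square root of `E` modulo `p`, and there are at most two of them).
`two_inert`: the primes for which `-1` and the nonsquare `D` are both nonsquares have logarithmic density at least `1 / 4`.
-/

namespace HZ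

open Finset NumberField

private theorem SQ_irr {D : ℤ} (hD : ¬ IsSquare D) :
    Irreducible (Polynomial.X ^ 2 - Polynomial.C ((D : ℤ) : ℚ)) := by
  refine X_pow_sub_C_irreducible_of_prime Nat.prime_two fun b hb => hD ?_
  rw [← Rat.isSquare_intCast_iff]
  exact ⟨b, by rw [← hb, sq]⟩

private theorem SQ_field {D : ℤ} (hD : ¬ IsSquare D) : ∃ (K : Type) (_ : Field K) (_ : NumberField K),
    Module.finrank ℚ K = 2 ∧ ∃ a : 𝓞 K, a ^ 2 = ((D : ℤ) : 𝓞 K) := by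
  have hirr := SQ_irr hD
  have : Fact (Irreducible (Polynomial.X ^ 2 - Polynomial.C ((D : ℤ) : ℚ))) := ⟨hirr⟩
  have hne : (Polynomial.X ^ 2 - Polynomial.C ((D : ℤ) : ℚ)) ≠ 0 := hirr.ne_zero
  obtain ⟨K, hK⟩ : ∃ K : Type, K = AdjoinRoot (Polynomial.X ^ 2 - Polynomial.C ((D : ℤ) : ℚ)) := ⟨_, rfl⟩
  have hfin : FiniteDimensional ℚ (AdjoinRoot (Polynomial.X ^ 2 - Polynomial.C ((D : ℤ) : ℚ))) :=
    (AdjoinRoot.powerBasis hne).finite
  have : CharZero (AdjoinRoot (Polynomial.X ^ 2 - Polynomial.C ((D : ℤ) : ℚ))) :=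
    charZero_of_injective_algebraMap (algebraMap ℚ _).injective
  have hnf : NumberField (AdjoinRoot (Polynomial.X ^ 2 - Polynomial.C ((D : ℤ) : ℚ))) := ⟨⟩
  refine ⟨AdjoinRoot (Polynomial.X ^ 2 - Polynomial.C ((D : ℤ) : ℚ)), inferInstance, hnf, ?_, ?_⟩
  · have h1 := (AdjoinRoot.powerBasis hne).finrank
    have h2 : (AdjoinRoot.powerBasis hne).dim = 2 := by
      rw [AdjoinRoot.powerBasis_dim, Polynomial.natDegree_X_pow_sub_C]
    rw [h2] at h1
    exact h1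
  · have hroot : (AdjoinRoot.root (Polynomial.X ^ 2 - Polynomial.C ((D : ℤ) : ℚ))) ^ 2 =
        ((D : ℤ) : AdjoinRoot (Polynomial.X ^ 2 - Polynomial.C ((D : ℤ) : ℚ))) := by
      have h1 := AdjoinRoot.aeval_eq (f := Polynomial.X ^ 2 - Polynomial.C ((D : ℤ) : ℚ))
        (Polynomial.X ^ 2 - Polynomial.C ((D : ℤ) : ℚ))
      rw [AdjoinRoot.mk_self] at h1
      simp only [map_sub, map_pow, Polynomial.aeval_X, Polynomial.aeval_C] at h1
      rw [sub_eq_zero] at h1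
      rw [h1]
      simp
    have hint : IsIntegral ℤ (AdjoinRoot.root (Polynomial.X ^ 2 - Polynomial.C ((D : ℤ) : ℚ))) := by
      refine ⟨Polynomial.X ^ 2 - Polynomial.C D, Polynomial.monic_X_pow_sub_C D two_ne_zero, ?_⟩
      rw [← Polynomial.aeval_def]
      simp only [map_sub, map_pow, Polynomial.aeval_X, Polynomial.aeval_C]
      rw [hroot]
      simp
    obtain ⟨a, ha⟩ := (IsIntegralClosure.isIntegral_iff
      (A := 𝓞 (AdjoinRoot (Polynomial.X ^ 2 - Polynomial.C ((D : ℤ) : ℚ))))).1 hint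
    refine ⟨a, ?_⟩
    apply FaithfulSMul.algebraMap_injective (𝓞 (AdjoinRoot (Polynomial.X ^ 2 - Polynomial.C ((D : ℤ) : ℚ))))
      (AdjoinRoot (Polynomial.X ^ 2 - Polynomial.C ((D : ℤ) : ℚ)))
    rw [map_pow, ha, hroot]
    exact (map_intCast _ D).symm

private theorem SQ_sq {K : Type} [Field K] [NumberField K] {D : ℤ} {a : 𝓞 K} (ha : a ^ 2 = ((D : ℤ) : 𝓞 K)) {p : ℕ}
    (hp : p.Prime) {P : Ideal (𝓞 K)} (hP : Ideal.absNorm P = p) : IsSquare ((D : ℤ) : ZMod p) := by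
  have : Fact p.Prime := ⟨hp⟩
  have hcard : Nat.card (𝓞 K ⧸ P) = p := by
    rw [← hP]
    rfl
  have : Finite (𝓞 K ⧸ P) := Nat.finite_of_card_ne_zero (by rw [hcard]; exact hp.ne_zero)
  have : Fintype (𝓞 K ⧸ P) := Fintype.ofFinite _
  have hcard' : Fintype.card (𝓞 K ⧸ P) = p := by rw [← Nat.card_eq_fintype_card, hcard]
  have e : ZMod p ≃+* (𝓞 K ⧸ P) := ZMod.ringEquivOfPrime (𝓞 K ⧸ P) hp hcard'
  refine ⟨e.symm (Ideal.Quotient.mk P a), ?_⟩
  rw [← map_mul, ← map_mul, ← sq, ha, map_intCast, map_intCast]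

private theorem SQ_two {K : Type} [Field K] [NumberField K] (hK : Module.finrank ℚ K = 2) {p : ℕ} (hp : p.Prime)
    (E : Finset (Ideal (𝓞 K))) (hE : ∀ P ∈ E, P.IsPrime ∧ Ideal.absNorm P = p) : E.card ≤ 2 := by
  classical
  have hpr : ∀ P ∈ E, Prime P := by
    intro P hP
    have h0 : P ≠ ⊥ := by
      rintro rfl
      have h1 := (hE _ hP).2
      rw [Ideal.absNorm_bot] at h1
      exact hp.ne_zero h1.symm
    exact Ideal.prime_of_isPrime h0 (hE P hP).1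
  have hdvd : ∀ P ∈ E, P ∣ Ideal.span {((p : ℕ) : 𝓞 K)} := by
    intro P hP
    rw [Ideal.dvd_span_singleton]
    have h1 := Ideal.absNorm_mem P
    rw [(hE P hP).2] at h1
    exact h1
  have h1 : ∏ P ∈ E, P ∣ Ideal.span {((p : ℕ) : 𝓞 K)} := by
    have h2 := Finset.prod_primes_dvd (s := E) (Ideal.span {((p : ℕ) : 𝓞 K)}) hpr hdvd
    exact h2
  have h3 := map_dvd Ideal.absNorm h1
  rw [map_prod, Finset.prod_congr rfl fun P hP => (hE P hP).2, Finset.prod_const, Ideal.absNorm_span_singleton] at h3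
  have h4 : (Algebra.norm ℤ ((p : ℕ) : 𝓞 K)).natAbs = p ^ 2 := by
    have h5 : ((p : ℕ) : 𝓞 K) = algebraMap ℤ (𝓞 K) (p : ℤ) := by simp
    rw [h5, Algebra.norm_algebraMap, RingOfIntegers.rank, hK, Int.natAbs_pow, Int.natAbs_natCast]
  rw [h4] at h3
  exact (Nat.pow_dvd_pow_iff_le_right hp.one_lt).1 h3

open Classical in
theorem split_lower {E : ℤ} (hE : ¬ IsSquare E) : ∃ C : ℝ, 0 ≤ C ∧ ∀ y x : ℝ, 2 ≤ y → y ≤ x →
    1 / 2 * Real.log (x / y) - C ≤
      ∑ p ∈ (Ioc ⌊y⌋₊ ⌊x⌋₊).filter (fun p => p.Prime ∧ IsSquare ((E : ℤ) : ZMod p)), Real.log p / p := by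
  obtain ⟨K, hK1, hK2, hK, a, ha⟩ := SQ_field hE
  obtain ⟨A, hA, hmer⟩ := EL.mer K
  refine ⟨A, by linarith, fun y x hy hyx => ?_⟩
  have hy0 : (0 : ℝ) < y := by linarith
  have hx0 : (0 : ℝ) < x := by linarith
  obtain ⟨T, hT⟩ : ∃ T : ℝ → Finset (Ideal (𝓞 K)), T = fun x => (EL.PP K x).filter (fun P => (Ideal.absNorm P).Prime) :=
    ⟨_, rfl⟩
  obtain ⟨f, hf⟩ : ∃ f : Ideal (𝓞 K) → ℝ, f = fun P => Real.log (Ideal.absNorm P : ℕ) / (Ideal.absNorm P : ℕ) := ⟨_, rfl⟩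
  have hterm : ∀ p : ℕ, 0 ≤ Real.log p / p := fun p =>
    div_nonneg (Real.log_natCast_nonneg p) (Nat.cast_nonneg p)
  have hxy : Real.log (x / y) - 2 * A ≤ ∑ P ∈ T x, f P - ∑ P ∈ T y, f P := by
    have h1 := (abs_le.mp (hmer x (by linarith))).1
    have h2 := (abs_le.mp (hmer y hy)).2
    rw [Real.log_div hx0.ne' hy0.ne']
    have h3 : -A ≤ ∑ P ∈ T x, f P - Real.log x := by rw [hT, hf]; exact h1
    have h4 : ∑ P ∈ T y, f P - Real.log y ≤ A := by rw [hT, hf]; exact h2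
    linarith
  have hTT : T y ⊆ T x := by
    intro P hP
    rw [hT] at hP ⊢
    simp only [mem_filter] at hP ⊢
    rw [EL.mem_PP hy0.le] at hP
    rw [EL.mem_PP hx0.le]
    exact ⟨⟨hP.1.1, hP.1.2.1, hP.1.2.2.trans hyx⟩, hP.2⟩
  obtain ⟨S, hS⟩ : ∃ S : Finset ℕ, S = (Ioc ⌊y⌋₊ ⌊x⌋₊).filter (fun p => p.Prime ∧ IsSquare ((E : ℤ) : ZMod p)) := ⟨_, rfl⟩
  have hmaps : ∀ P ∈ T x \ T y, Ideal.absNorm P ∈ S := by
    intro P hP
    rw [mem_sdiff, hT] at hP
    simp only [mem_filter] at hP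
    rw [EL.mem_PP hx0.le, EL.mem_PP hy0.le] at hP
    obtain ⟨⟨⟨h1, h2, h3⟩, h4⟩, h5⟩ := hP
    rw [hS, mem_filter, mem_Ioc]
    refine ⟨⟨?_, (Nat.le_floor_iff hx0.le).2 h3⟩, h4, SQ_sq ha h4 rfl⟩
    rw [Nat.floor_lt hy0.le]
    by_contra h6
    exact h5 ⟨⟨h1, h2, not_lt.1 h6⟩, h4⟩
  have hsum : ∑ P ∈ T x \ T y, f P ≤ 2 * ∑ p ∈ S, Real.log p / p := by
    rw [← sum_fiberwise_of_maps_to hmaps, mul_sum]
    refine sum_le_sum fun p hp => ?_
    have hpp : p.Prime := by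
      rw [hS, mem_filter] at hp
      exact hp.2.1
    have h1 : ((T x \ T y).filter fun P => Ideal.absNorm P = p).card ≤ 2 := by
      refine SQ_two hK hpp _ fun P hP => ?_
      rw [mem_filter, mem_sdiff, hT] at hP
      simp only [mem_filter] at hP
      rw [EL.mem_PP hx0.le] at hP
      exact ⟨hP.1.1.1.1, hP.2⟩
    have h2 : ∑ P ∈ (T x \ T y).filter (fun P => Ideal.absNorm P = p), f P =
        (((T x \ T y).filter fun P => Ideal.absNorm P = p).card : ℝ) * (Real.log p / p) := by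
      rw [← nsmul_eq_mul, ← sum_const]
      refine sum_congr rfl fun P hP => ?_
      rw [hf]
      simp only [(mem_filter.1 hP).2]
    rw [h2]
    exact mul_le_mul_of_nonneg_right (by exact_mod_cast h1) (hterm p)
  have h5 : ∑ P ∈ T x \ T y, f P = ∑ P ∈ T x, f P - ∑ P ∈ T y, f P := by
    rw [← sum_sdiff hTT, add_sub_cancel_right]
  rw [hS] at hsum
  linarith

open Classical in
theorem two_inert {D : ℤ} (hD : ¬ IsSquare D) : ∃ C : ℝ, 0 ≤ C ∧ ∀ y x : ℝ, 2 ≤ y → y ≤ x →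
    1 / 4 * Real.log (x / y) - C ≤
      ∑ p ∈ (Ioc ⌊y⌋₊ ⌊x⌋₊).filter (fun p => p.Prime ∧ ¬ IsSquare (-1 : ZMod p) ∧ ¬ IsSquare ((D : ℤ) : ZMod p)),
        Real.log p / p := by
  have hm1 : ¬ IsSquare (-1 : ℤ) := by
    rintro ⟨r, hr⟩
    nlinarith [mul_self_nonneg r]
  have hD0 : D ≠ 0 := by
    rintro rfl
    exact hD ⟨0, by simp⟩
  have hterm : ∀ p : ℕ, 0 ≤ Real.log p / p := fun p =>
    div_nonneg (Real.log_natCast_nonneg p) (Nat.cast_nonneg p)
  have hneg : ∀ p : ℕ, IsSquare (((-1 : ℤ)) : ZMod p) ↔ IsSquare (-1 : ZMod p) := fun p => by simp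
  -- the primes dividing `2 D`
  obtain ⟨m, hm⟩ : ∃ m : ℕ, m = 2 * D.natAbs := ⟨_, rfl⟩
  have hm0 : m ≠ 0 := by
    rw [hm]
    have := Int.natAbs_ne_zero.mpr hD0
    positivity
  obtain ⟨C0, hC0⟩ : ∃ C0 : ℝ, C0 = ∑ p ∈ m.primeFactors, Real.log p / p := ⟨_, rfl⟩
  have hC00 : 0 ≤ C0 := by
    rw [hC0]
    exact sum_nonneg fun p _ => hterm p
  by_cases hsq : IsSquare (-D)
  · -- `D = - r ^ 2`
    obtain ⟨r, hr⟩ := hsq
    obtain ⟨C1, hC1, h1⟩ := MWS.inert hm1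
    refine ⟨C1 + C0, by linarith, fun y x hy hyx => ?_⟩
    have e1 := h1 y x hy hyx
    have hlog : 0 ≤ Real.log (x / y) := Real.log_nonneg (by
      rw [le_div_iff₀ (by linarith), one_mul]
      exact hyx)
    have e2 : ∑ p ∈ (Ioc ⌊y⌋₊ ⌊x⌋₊).filter (fun p => p.Prime ∧ ¬ IsSquare ((((-1 : ℤ)) : ZMod p))), Real.log p / p ≤
        ∑ p ∈ (Ioc ⌊y⌋₊ ⌊x⌋₊).filter (fun p => p.Prime ∧ ¬ IsSquare (-1 : ZMod p) ∧ ¬ IsSquare ((D : ℤ) : ZMod p)),
          Real.log p / p + C0 := by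
      have hsub : (Ioc ⌊y⌋₊ ⌊x⌋₊).filter (fun p => p.Prime ∧ ¬ IsSquare ((((-1 : ℤ)) : ZMod p))) ⊆
          (Ioc ⌊y⌋₊ ⌊x⌋₊).filter (fun p => p.Prime ∧ ¬ IsSquare (-1 : ZMod p) ∧ ¬ IsSquare ((D : ℤ) : ZMod p)) ∪
            m.primeFactors := by
        intro p hp
        rw [mem_filter, hneg] at hp
        obtain ⟨hp1, hp2, hp3⟩ := hp
        rw [mem_union, mem_filter]
        by_cases hpm : p ∣ m
        · exact Or.inr (Nat.mem_primeFactors.2 ⟨hp2, hpm, hm0⟩)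
        · refine Or.inl ⟨hp1, hp2, hp3, ?_⟩
          rintro ⟨t, ht⟩
          have : Fact p.Prime := ⟨hp2⟩
          have hr0 : ((r : ℤ) : ZMod p) ≠ 0 := by
            intro h0
            have h2 : ((D : ℤ) : ZMod p) = 0 := by
              have h3 : D = - (r * r) := by rw [← hr, neg_neg]
              rw [h3]
              push_cast
              rw [h0]
              ring
            have h4 : (p : ℤ) ∣ D := (ZMod.intCast_zmod_eq_zero_iff_dvd _ _).mp h2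
            exact hpm (by rw [hm]; exact Dvd.dvd.mul_left (Int.natCast_dvd.mp h4) 2)
          refine hp3 ⟨t * ((r : ℤ) : ZMod p)⁻¹, ?_⟩
          have h5 : ((D : ℤ) : ZMod p) = - (((r : ℤ) : ZMod p) * ((r : ℤ) : ZMod p)) := by
            have h3 : D = - (r * r) := by rw [← hr, neg_neg]
            rw [h3]
            push_cast
            ring
          rw [h5] at ht
          field_simp
          linear_combination ht
      refine (sum_le_sum_of_subset_of_nonneg hsub fun p _ _ => hterm p).trans ?_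
      rw [hC0]
      have e3 := sum_union_inter (s₁ := (Ioc ⌊y⌋₊ ⌊x⌋₊).filter (fun p => p.Prime ∧ ¬ IsSquare (-1 : ZMod p) ∧
        ¬ IsSquare ((D : ℤ) : ZMod p))) (s₂ := m.primeFactors) (f := fun p => Real.log (p : ℝ) / p)
      have e4 : 0 ≤ ∑ p ∈ (Ioc ⌊y⌋₊ ⌊x⌋₊).filter (fun p => p.Prime ∧ ¬ IsSquare (-1 : ZMod p) ∧
        ¬ IsSquare ((D : ℤ) : ZMod p)) ∩ m.primeFactors, Real.log (p : ℝ) / p := sum_nonneg fun p _ => hterm p
      linarith
    linarith
  · -- generic case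
    obtain ⟨C1, hC1, h1⟩ := MWS.split_primes hm1
    obtain ⟨C2, hC2, h2⟩ := MWS.split_primes hD
    obtain ⟨C3, hC3, h3⟩ := split_lower hsq
    obtain ⟨C4, hC4, h4⟩ := MWS.all_primes
    refine ⟨C1 + C2 + C3 + C4 + C0, by linarith, fun y x hy hyx => ?_⟩
    have e1 := h1 y x hy hyx
    have e2 := h2 y x hy hyx
    have e3 := h3 y x hy hyx
    have e4 := h4 y x hy hyx
    have hpt : ∀ p : ℕ, p.Prime → ∀ f : ℝ, 0 ≤ f →
        (if IsSquare (((-D : ℤ)) : ZMod p) then f else 0) + f - (if IsSquare (((-1 : ℤ)) : ZMod p) then f else 0) -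
          (if IsSquare ((D : ℤ) : ZMod p) then f else 0) ≤
            2 * (if ¬ IsSquare (-1 : ZMod p) ∧ ¬ IsSquare ((D : ℤ) : ZMod p) then f else 0) +
              2 * (if p ∣ m then f else 0) := by
      intro p hp f hf
      have : Fact p.Prime := ⟨hp⟩
      rw [hneg]
      by_cases hpm : p ∣ m
      · rw [if_pos hpm]
        split_ifs <;> linarith
      · rw [if_neg hpm]
        have hDp : ((D : ℤ) : ZMod p) ≠ 0 := by
          intro h0
          have h6 : (p : ℤ) ∣ D := (ZMod.intCast_zmod_eq_zero_iff_dvd _ _).mp h0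
          exact hpm (by rw [hm]; exact Dvd.dvd.mul_left (Int.natCast_dvd.mp h6) 2)
        have k1 : IsSquare (-1 : ZMod p) → IsSquare (((-D : ℤ)) : ZMod p) → IsSquare ((D : ℤ) : ZMod p) := by
          intro a1 h0
          have h7 := a1.mul h0
          have h8 : (-1 : ZMod p) * (((-D : ℤ)) : ZMod p) = ((D : ℤ) : ZMod p) := by
            push_cast
            ring
          rwa [h8] at h7
        have k2 : IsSquare ((D : ℤ) : ZMod p) → IsSquare (((-D : ℤ)) : ZMod p) → IsSquare (-1 : ZMod p) := by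
          intro a2 h0
          have h7 := h0.div a2
          have h8 : (((-D : ℤ)) : ZMod p) / ((D : ℤ) : ZMod p) = -1 := by
            push_cast
            rw [neg_div, div_self hDp]
          rwa [h8] at h7
        split_ifs <;> first | linarith | (exfalso; tauto)
    obtain ⟨V, hV⟩ : ∃ V : Finset ℕ, V = (Ioc ⌊y⌋₊ ⌊x⌋₊).filter Nat.Prime := ⟨_, rfl⟩
    have hfil : ∀ (P : ℕ → Prop), ∑ p ∈ (Ioc ⌊y⌋₊ ⌊x⌋₊).filter (fun p => p.Prime ∧ P p), Real.log (p : ℝ) / p =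
        ∑ p ∈ V, if P p then Real.log (p : ℝ) / p else 0 := by
      intro P
      rw [hV, ← sum_filter, filter_filter]
    have hsum : ∑ p ∈ V, ((if IsSquare (((-D : ℤ)) : ZMod p) then Real.log (p : ℝ) / p else 0) + Real.log (p : ℝ) / p -
        (if IsSquare (((-1 : ℤ)) : ZMod p) then Real.log (p : ℝ) / p else 0) -
          (if IsSquare ((D : ℤ) : ZMod p) then Real.log (p : ℝ) / p else 0)) ≤
        ∑ p ∈ V, (2 * (if ¬ IsSquare (-1 : ZMod p) ∧ ¬ IsSquare ((D : ℤ) : ZMod p) then Real.log (p : ℝ) / p else 0) +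
              2 * (if p ∣ m then Real.log (p : ℝ) / p else 0)) :=
      sum_le_sum fun p hp => hpt p (by rw [hV, mem_filter] at hp; exact hp.2) _ (hterm p)
    rw [sum_sub_distrib, sum_sub_distrib, sum_add_distrib, sum_add_distrib, ← mul_sum, ← mul_sum] at hsum
    have hmC : ∑ p ∈ V, (if p ∣ m then Real.log (p : ℝ) / p else 0) ≤ C0 := by
      rw [← sum_filter, hC0]
      refine sum_le_sum_of_subset_of_nonneg ?_ fun p _ _ => hterm p
      intro p hp
      rw [mem_filter, hV, mem_filter] at hp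
      exact Nat.mem_primeFactors.mpr ⟨hp.1.2, hp.2, hm0⟩
    rw [hfil] at e1 e2 e3
    rw [← hV] at e4
    have h10 : ∑ p ∈ (Ioc ⌊y⌋₊ ⌊x⌋₊).filter (fun p => p.Prime ∧ ¬ IsSquare (-1 : ZMod p) ∧
        ¬ IsSquare ((D : ℤ) : ZMod p)), Real.log p / p =
          ∑ p ∈ V, (if ¬ IsSquare (-1 : ZMod p) ∧ ¬ IsSquare ((D : ℤ) : ZMod p) then Real.log (p : ℝ) / p else 0) := by
      rw [hV, ← sum_filter, filter_filter]
    rw [h10]
    linarith

end HZ
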