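import Pool.Agent.Lib.MP_10e784_agHA.Defs
import Pool.Agent.Lib.MP_10e784_agHA.SQa
import Pool.Agent.Lib.MP_10e784_agW.SC

/-!
# LEAF SQ: many primes `p` with `-1` and `D` nonsquares and `p + 1` smooth

As `MWS.smooth` (`MP_10e784_agW/SD.lean`), with `two_inert` (density `1 / 4`) for `inert` (density `1 / 2`).
-/

namespace HZ

open Finset
open MWS (bad bad_card)

open Classical in
/-- one block -/
private theorem SQ_block {A x t B : ℝ} (hx : 1 < x) (ht : 0 < t) (htx : t ≤ x)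
    (h : ((bad A x t).card : ℝ) ≤ B * t / Real.log x) :
    ∑ p ∈ Ioc ⌊t / 2⌋₊ ⌊t⌋₊, (if p.Prime ∧ ∃ q : ℕ, q.Prime ∧ q ∣ p + 1 ∧ x < (q : ℝ) ^ A then Real.log p / (p : ℝ) else 0) ≤
      2 * B := by
  have hlog : 0 < Real.log x := Real.log_pos hx
  have hsub : (Ioc ⌊t / 2⌋₊ ⌊t⌋₊).filter (fun p => p.Prime ∧ ∃ q : ℕ, q.Prime ∧ q ∣ p + 1 ∧ x < (q : ℝ) ^ A) ⊆ bad A x t := by
    intro p hp
    unfold bad
    rw [mem_filter, mem_Ioc] at hp
    rw [mem_filter, mem_Icc]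
    exact ⟨⟨by omega, hp.1.2⟩, hp.2⟩
  rw [← sum_filter]
  have h1 : ∀ p ∈ (Ioc ⌊t / 2⌋₊ ⌊t⌋₊).filter (fun p => p.Prime ∧ ∃ q : ℕ, q.Prime ∧ q ∣ p + 1 ∧ x < (q : ℝ) ^ A),
      Real.log p / (p : ℝ) ≤ Real.log x * (2 / t) := by
    intro p hp
    rw [mem_filter, mem_Ioc] at hp
    obtain ⟨⟨hp1, hp2⟩, _⟩ := hp
    have h2 : t / 2 < p := (Nat.floor_lt (by positivity)).1 hp1
    have h3 : (p : ℝ) ≤ t := (Nat.le_floor_iff ht.le).1 hp2
    have hp0 : (0 : ℝ) < p := by linarith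
    have h4 : Real.log p ≤ Real.log x := Real.log_le_log hp0 (h3.trans htx)
    have h5 : 1 / (p : ℝ) ≤ 2 / t := by
      rw [div_le_div_iff₀ hp0 ht]
      linarith
    calc Real.log p / (p : ℝ) = Real.log p * (1 / (p : ℝ)) := by ring
      _ ≤ Real.log x * (1 / (p : ℝ)) := by gcongr
      _ ≤ Real.log x * (2 / t) := by gcongr
  refine (sum_le_card_nsmul _ _ _ h1).trans ?_
  rw [nsmul_eq_mul]
  have h2 : (((Ioc ⌊t / 2⌋₊ ⌊t⌋₊).filter (fun p => p.Prime ∧ ∃ q : ℕ, q.Prime ∧ q ∣ p + 1 ∧ x < (q : ℝ) ^ A)).card : ℝ) ≤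
      B * t / Real.log x := by
    refine le_trans ?_ h
    exact_mod_cast card_le_card hsub
  calc (((Ioc ⌊t / 2⌋₊ ⌊t⌋₊).filter (fun p => p.Prime ∧ ∃ q : ℕ, q.Prime ∧ q ∣ p + 1 ∧ x < (q : ℝ) ^ A)).card : ℝ) *
        (Real.log x * (2 / t)) ≤ B * t / Real.log x * (Real.log x * (2 / t)) := by gcongr
    _ = 2 * B := by
        field_simp

open Classical in
/-- the blocks `(x / 2 ^ r, x]` -/
private theorem SQ_blocks {A x B : ℝ} (hx : 1 < x) (R : ℕ)
    (h : ∀ i : ℕ, i < R → ((bad A x (x / 2 ^ i)).card : ℝ) ≤ B * (x / 2 ^ i) / Real.log x) :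
    ∑ p ∈ Ioc ⌊x / 2 ^ R⌋₊ ⌊x⌋₊, (if p.Prime ∧ ∃ q : ℕ, q.Prime ∧ q ∣ p + 1 ∧ x < (q : ℝ) ^ A then Real.log p / (p : ℝ) else 0) ≤
      2 * B * R := by
  induction R with
  | zero => simp
  | succ r ih =>
    have h1 := ih fun i hi => h i (by omega)
    have h2 : x / 2 ^ (r + 1) = x / 2 ^ r / 2 := by
      rw [pow_succ]
      field_simp
    have h3 : ⌊x / 2 ^ (r + 1)⌋₊ ≤ ⌊x / 2 ^ r⌋₊ := by
      apply Nat.floor_le_floor
      rw [h2]
      have : 0 < x / 2 ^ r := by positivity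
      linarith
    have h4 : ⌊x / 2 ^ r⌋₊ ≤ ⌊x⌋₊ := by
      apply Nat.floor_le_floor
      apply div_le_self (by linarith)
      exact one_le_pow₀ (by norm_num)
    rw [← Finset.sum_Ioc_consecutive _ h3 h4, h2]
    have h5 := SQ_block hx (t := x / 2 ^ r) (by positivity)
      (div_le_self (by linarith) (one_le_pow₀ (by norm_num))) (h r (by omega))
    push_cast
    linarith

theorem smoothQ : ∃ A : ℝ, 1 < A ∧ A ≤ 2 ∧ ∀ D : ℤ, ¬ IsSquare D → ∃ K : ℝ, 1 ≤ K ∧ ∃ x0 : ℝ, 2 ≤ x0 ∧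
    ∀ x : ℝ, x0 ≤ x → x / (K * Real.log x) ≤ ((S2 D A K x).card : ℝ) := by
  classical
  obtain ⟨C, hC, hbad⟩ := bad_card
  have hl2 : 0 < Real.log 2 := Real.log_pos (by norm_num)
  set c : ℝ := min 1 (Real.log 2 / (16 * C)) with hc
  have hc0 : 0 < c := lt_min one_pos (by positivity)
  have hc1 : c ≤ 1 := min_le_left _ _
  have hc2 : 16 * C * c ≤ Real.log 2 := by
    have h1 : c ≤ Real.log 2 / (16 * C) := min_le_right _ _
    rwa [le_div_iff₀ (by positivity), mul_comm] at h1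
  have hAc : 1 - 1 / (1 + c) ≤ c := by
    have h1 : 1 - 1 / (1 + c) = c / (1 + c) := by
      field_simp
      ring
    rw [h1]
    exact div_le_self hc0.le (by linarith)
  have hA1 : 0 ≤ 1 - 1 / (1 + c) := by
    have h1 : 1 / (1 + c) ≤ 1 := by
      rw [div_le_one (by linarith)]
      linarith
    linarith
  refine ⟨1 + c, by linarith, by linarith, fun D hD => ?_⟩
  obtain ⟨CD, hCD, hin⟩ := two_inert hD
  obtain ⟨r, hr⟩ := exists_nat_ge (8 * (CD + 1) / Real.log 2)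
  have hr' : 8 * (CD + 1) ≤ r * Real.log 2 := by rwa [div_le_iff₀ hl2] at hr
  set K : ℝ := 2 ^ r with hK
  have hK1 : 1 ≤ K := one_le_pow₀ (by norm_num)
  have hK0 : 0 < K := by linarith
  obtain ⟨x1, hx12, hx1⟩ := hbad (1 + c) (by linarith) (by linarith) K hK1
  refine ⟨K, hK1, max x1 (2 * K), le_trans hx12 (le_max_left _ _), fun x hx => ?_⟩
  have hxx1 : x1 ≤ x := (le_max_left _ _).trans hx
  have hx2K : 2 * K ≤ x := (le_max_right _ _).trans hx
  have hx2 : 2 ≤ x := by linarith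
  have hx0 : 0 < x := by linarith
  have hlog : 0 < Real.log x := Real.log_pos (by linarith)
  have hxK2 : 2 ≤ x / K := by
    rw [le_div_iff₀ hK0]
    exact hx2K
  have hlogK : Real.log K = r * Real.log 2 := by rw [hK, Real.log_pow]
  -- the inert primes
  have h1 := hin (x / K) x hxK2 (div_le_self hx0.le hK1)
  have h2 : x / (x / K) = K := by
    field_simp
  rw [h2, hlogK] at h1
  -- the bad primes
  have h3 := SQ_blocks (A := 1 + c) (x := x) (B := C * (1 - 1 / (1 + c))) (by linarith) r (by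
    intro i hi
    have h4 : x / K ≤ x / 2 ^ i := by
      rw [hK]
      apply div_le_div_of_nonneg_left hx0.le (by positivity)
      exact pow_le_pow_right₀ (by norm_num) hi.le
    have h5 : x / 2 ^ i ≤ x := div_le_self hx0.le (one_le_pow₀ (by norm_num))
    exact hx1 x hxx1 (x / 2 ^ i) h4 h5)
  rw [← hK] at h3
  have h4 : 2 * (C * (1 - 1 / (1 + c))) * r ≤ 1 / 8 * (r * Real.log 2) := by
    have h5 : C * (1 - 1 / (1 + c)) ≤ C * c := mul_le_mul_of_nonneg_left hAc hC.le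
    have h6 : 2 * (C * (1 - 1 / (1 + c))) ≤ 1 / 8 * Real.log 2 := by linarith
    calc 2 * (C * (1 - 1 / (1 + c))) * r ≤ 1 / 8 * Real.log 2 * r := by gcongr
      _ = 1 / 8 * (r * Real.log 2) := by ring
  -- splitting
  have h5 : ∑ p ∈ (Ioc ⌊x / K⌋₊ ⌊x⌋₊).filter (fun p => p.Prime ∧ ¬ IsSquare (-1 : ZMod p) ∧ ¬ IsSquare ((D : ℤ) : ZMod p)), Real.log p / p ≤
      (∑ p ∈ S2 D (1 + c) K x, Real.log p / (p : ℝ)) +
      ∑ p ∈ Ioc ⌊x / K⌋₊ ⌊x⌋₊, (if p.Prime ∧ ∃ q : ℕ, q.Prime ∧ q ∣ p + 1 ∧ x < (q : ℝ) ^ (1 + c) then Real.log p / (p : ℝ) else 0) := by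
    unfold S2
    rw [sum_filter, sum_filter, ← sum_add_distrib]
    apply sum_le_sum
    intro p _
    have hp0 : 0 ≤ Real.log p / (p : ℝ) := div_nonneg (Real.log_natCast_nonneg p) (Nat.cast_nonneg p)
    by_cases ha : p.Prime ∧ ¬ IsSquare (-1 : ZMod p) ∧ ¬ IsSquare ((D : ℤ) : ZMod p)
    · rw [if_pos ha]
      by_cases hb : ∀ q : ℕ, q.Prime → q ∣ p + 1 → (q : ℝ) ^ (1 + c) ≤ x
      · rw [if_pos ⟨ha.1, ha.2.1, ha.2.2, hb⟩]
        have : 0 ≤ (if p.Prime ∧ ∃ q : ℕ, q.Prime ∧ q ∣ p + 1 ∧ x < (q : ℝ) ^ (1 + c) then Real.log p / (p : ℝ) else 0) := by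
          split_ifs
          · exact hp0
          · exact le_rfl
        linarith
      · push Not at hb
        rw [if_pos (⟨ha.1, hb⟩ : p.Prime ∧ ∃ q : ℕ, q.Prime ∧ q ∣ p + 1 ∧ x < (q : ℝ) ^ (1 + c))]
        have : 0 ≤ (if p.Prime ∧ ¬ IsSquare (-1 : ZMod p) ∧ ¬ IsSquare ((D : ℤ) : ZMod p) ∧ ∀ q : ℕ, q.Prime → q ∣ p + 1 → (q : ℝ) ^ (1 + c) ≤ x then
            Real.log p / (p : ℝ) else 0) := by
          split_ifs
          · exact hp0
          · exact le_rfl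
        linarith
    · rw [if_neg ha]
      apply add_nonneg
      · split_ifs
        · exact hp0
        · exact le_rfl
      · split_ifs
        · exact hp0
        · exact le_rfl
  have h6 : 1 ≤ ∑ p ∈ S2 D (1 + c) K x, Real.log p / (p : ℝ) := by linarith
  -- each term
  have h7 : ∀ p ∈ S2 D (1 + c) K x, Real.log p / (p : ℝ) ≤ Real.log x * (K / x) := by
    intro p hp
    unfold S2 at hp
    rw [mem_filter, mem_Ioc] at hp
    have h8 : x / K < p := (Nat.floor_lt (by positivity)).1 hp.1.1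
    have h9 : (p : ℝ) ≤ x := (Nat.le_floor_iff hx0.le).1 hp.1.2
    have hp0 : (0 : ℝ) < p := by linarith
    have h10 : Real.log p ≤ Real.log x := Real.log_le_log hp0 h9
    have h11 : 1 / (p : ℝ) ≤ K / x := by
      rw [div_le_div_iff₀ hp0 hx0]
      rw [div_lt_iff₀ hK0] at h8
      linarith
    calc Real.log p / (p : ℝ) = Real.log p * (1 / (p : ℝ)) := by ring
      _ ≤ Real.log x * (1 / (p : ℝ)) := by gcongr
      _ ≤ Real.log x * (K / x) := by gcongr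
  have h8 := sum_le_card_nsmul _ _ _ h7
  rw [nsmul_eq_mul] at h8
  rw [div_le_iff₀ (by positivity)]
  have h9 : 1 ≤ ((S2 D (1 + c) K x).card : ℝ) * (Real.log x * (K / x)) := h6.trans h8
  have h10 : ((S2 D (1 + c) K x).card : ℝ) * (Real.log x * (K / x)) = ((S2 D (1 + c) K x).card : ℝ) * (K * Real.log x) / x := by ring
  rw [h10, le_div_iff₀ hx0, one_mul] at h9
  exact h9

end HZ
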