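import Pool.Agent.Lib.MP_10e784_agHA.FB
import Pool.Agent.Lib.MP_10e784_agHA.O2
import Pool.Agent.Lib.MP_10e784_agHA.PR
import Pool.Agent.Lib.MP_10e784_agHA.SM
import Pool.Agent.Lib.MP_10e784_agHA.SQ

/-!
# FM: the count

MODEL: the private `SL_exp`, `SL_small`, `SL_split` and the theorem `all_hyp` in `MP_10e784_agH_SL.lean` (store), lines 265 - 620; here everything is simpler (only `F` varies).
PROOF.  `A` from `smoothQ`, `c₀` from `par4`, `c = c₀`; given `g, a, b, n`: `K`, `x0` from `smoothQ` for `D = -(a b)`; `C₀ = 2 ω(a b) + C0 + 1`, `H₀` from `par4 K C₀ x0`; `CO` from `factO4` (`m = n + 4`).  `H < H₀`: trivial bound `(2 H + 1) ^ (n + 5) ≤ (3 H) ^ (n + 5)`, `1 ≤ exp ((log H₀) ^ c) exp (-(log H) ^ c)`.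
`H ≥ H₀`: `X, t, e, Y, w`; `S = S2 (-(a b)) A K X`, `L = primorial Y ^ e` (`S2_mem`, `S2_prod`); the `F` with a solution are among those of `factO4` or of `fibre4` (`(log H) ^ (3 c) ≤ w`).
`2 ^ (w + 1) L ^ (t + 1) (5/4) ^ w (4/5) ^ |S| ≤ exp (-(log H) ^ c)`: `L ≤ 4 ^ (Y e)` (`primorial_le_four_pow`), `(4/5) ^ |S| ≤ exp (-log (5/4) X / (K log X))` (`|S| ≥ X / (K log X)`), `par4`.
-/

set_option autoImplicit false

namespace HZ

open Finset MWS HY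

private theorem FM_fin {k H : ℕ} (P : (Fin k → ℤ) → Prop) : Finite {F : Fin k → ℤ // (∀ i, |F i| ≤ (H : ℤ)) ∧ P F} := by
  have h1 : Set.Finite {F : Fin k → ℤ | ∀ i, |F i| ≤ (H : ℤ)} := by
    refine Set.Finite.subset (Finset.finite_toSet (Fintype.piFinset fun _ : Fin k => Icc (-(H : ℤ)) H)) ?_
    intro F hF
    rw [Finset.mem_coe, Fintype.mem_piFinset]
    intro i
    rw [mem_Icc]
    exact abs_le.1 (hF i)
  exact (h1.subset fun F hF => hF.1).to_subtype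

private theorem FM_mono {k H : ℕ} {P Q : (Fin k → ℤ) → Prop} (h : ∀ F, P F → Q F) :
    Nat.card {F : Fin k → ℤ // (∀ i, |F i| ≤ (H : ℤ)) ∧ P F} ≤
      Nat.card {F : Fin k → ℤ // (∀ i, |F i| ≤ (H : ℤ)) ∧ Q F} := by
  have := FM_fin (k := k) (H := H) Q
  refine Nat.card_le_card_of_injective (fun x : {F : Fin k → ℤ // (∀ i, |F i| ≤ (H : ℤ)) ∧ P F} =>
    (⟨x.1, x.2.1, h x.1 x.2.2⟩ : {F : Fin k → ℤ // (∀ i, |F i| ≤ (H : ℤ)) ∧ Q F})) ?_
  intro x y hxy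
  exact Subtype.ext (Subtype.mk.inj hxy)

open Classical in
private theorem FM_card {k H : ℕ} (P : (Fin k → ℤ) → Prop) :
    Nat.card {F : Fin k → ℤ // (∀ i, |F i| ≤ (H : ℤ)) ∧ P F} =
      ((Fintype.piFinset (fun _ : Fin k => Icc (-(H : ℤ)) H)).filter P).card := by
  refine Nat.subtype_card _ fun F => ?_
  rw [mem_filter, Fintype.mem_piFinset]
  simp only [mem_Icc, abs_le]

open Classical in
private theorem FM_small {k H : ℕ} (hH : 1 ≤ H) (P : (Fin k → ℤ) → Prop) :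
    (Nat.card {F : Fin k → ℤ // (∀ i, |F i| ≤ (H : ℤ)) ∧ P F} : ℝ) ≤ 3 ^ k * (H : ℝ) ^ k := by
  rw [FM_card]
  have h1 : ((Fintype.piFinset (fun _ : Fin k => Icc (-(H : ℤ)) H)).filter P).card ≤ (2 * H + 1) ^ k := by
    refine (Finset.card_filter_le _ _).trans (le_of_eq ?_)
    rw [Fintype.card_piFinset, prod_const, card_univ, Fintype.card_fin, Int.card_Icc]
    congr 1
    omega
  have hH0 : (1 : ℝ) ≤ H := by exact_mod_cast hH
  have h2 : (((Fintype.piFinset (fun _ : Fin k => Icc (-(H : ℤ)) H)).filter P).card : ℝ) ≤ (2 * (H : ℝ) + 1) ^ k := by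
    exact_mod_cast h1
  refine h2.trans ?_
  rw [← mul_pow]
  exact pow_le_pow_left₀ (by positivity) (by linarith) _

open Classical in
private theorem FM_split {k H : ℕ} (P P₁ P₂ : (Fin k → ℤ) → Prop) (h : ∀ F, P F → P₁ F ∨ P₂ F) :
    (Nat.card {F : Fin k → ℤ // (∀ i, |F i| ≤ (H : ℤ)) ∧ P F} : ℝ) ≤
      (Nat.card {F : Fin k → ℤ // (∀ i, |F i| ≤ (H : ℤ)) ∧ P₁ F} : ℝ) +
      (Nat.card {F : Fin k → ℤ // (∀ i, |F i| ≤ (H : ℤ)) ∧ P₂ F} : ℝ) := by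
  rw [FM_card P, FM_card P₁, FM_card P₂]
  have h1 : ((Fintype.piFinset (fun _ : Fin k => Icc (-(H : ℤ)) H)).filter P).card ≤
      ((Fintype.piFinset (fun _ : Fin k => Icc (-(H : ℤ)) H)).filter P₁).card +
      ((Fintype.piFinset (fun _ : Fin k => Icc (-(H : ℤ)) H)).filter P₂).card := by
    refine (Finset.card_le_card ?_).trans (Finset.card_union_le _ _)
    intro F hF
    rw [mem_filter] at hF
    rw [mem_union, mem_filter, mem_filter]
    rcases h F hF.2 with h' | h'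
    · exact Or.inl ⟨hF.1, h'⟩
    · exact Or.inr ⟨hF.1, h'⟩
  exact_mod_cast h1

private theorem FM_exp {w t e Y N : ℕ} {A B : ℝ} (hN : B ≤ N)
    (hAB : ((w : ℝ) + 1) * Real.log 2 + ((t : ℝ) + 1) * e * Y * Real.log 4 + w * Real.log (5 / 4) + A ≤
      Real.log (5 / 4) * B) :
    2 ^ (w + 1) * ((primorial Y ^ e : ℕ) : ℝ) ^ (t + 1) * (5 / 4) ^ w * (4 / 5) ^ N ≤ Real.exp (-A) := by
  have hP1 : (primorial Y : ℝ) ≤ 4 ^ Y := by exact_mod_cast primorial_le_four_pow Y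
  have h1 : ((primorial Y ^ e : ℕ) : ℝ) ^ (t + 1) ≤ Real.exp (((t : ℝ) + 1) * e * Y * Real.log 4) := by
    have h2 : ((primorial Y ^ e : ℕ) : ℝ) ^ (t + 1) ≤ (((4 : ℝ) ^ Y) ^ e) ^ (t + 1) := by
      push_cast
      gcongr
    refine h2.trans (le_of_eq ?_)
    rw [← pow_mul, ← pow_mul, ← Real.exp_log (show (0 : ℝ) < 4 by norm_num), ← Real.exp_nat_mul]
    congr 1
    rw [Real.log_exp]
    push_cast
    ring
  have h3 : (2 : ℝ) ^ (w + 1) = Real.exp (((w : ℝ) + 1) * Real.log 2) := by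
    rw [← Real.exp_log (show (0 : ℝ) < 2 by norm_num), ← Real.exp_nat_mul, Real.log_exp]
    push_cast
    ring_nf
  have h4 : (5 / 4 : ℝ) ^ w = Real.exp (w * Real.log (5 / 4)) := by
    rw [Real.exp_nat_mul, Real.exp_log (by norm_num)]
  have hl : 0 < Real.log (5 / 4) := Real.log_pos (by norm_num)
  have h5 : (4 / 5 : ℝ) ^ N ≤ Real.exp (-(Real.log (5 / 4) * B)) := by
    have h6 : (4 / 5 : ℝ) ^ N = Real.exp (-(Real.log (5 / 4) * N)) := by
      have h7 : (4 / 5 : ℝ) = Real.exp (-Real.log (5 / 4)) := by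
        rw [Real.exp_neg, Real.exp_log (by norm_num)]
        norm_num
      rw [h7, ← Real.exp_nat_mul]
      congr 1
      ring
    rw [h6]
    refine Real.exp_le_exp.2 ?_
    have := mul_le_mul_of_nonneg_left hN hl.le
    linarith
  rw [h3, h4]
  calc Real.exp (((w : ℝ) + 1) * Real.log 2) * ((primorial Y ^ e : ℕ) : ℝ) ^ (t + 1) *
        Real.exp (w * Real.log (5 / 4)) * (4 / 5) ^ N
      ≤ Real.exp (((w : ℝ) + 1) * Real.log 2) * Real.exp (((t : ℝ) + 1) * e * Y * Real.log 4) *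
        Real.exp (w * Real.log (5 / 4)) * Real.exp (-(Real.log (5 / 4) * B)) := by gcongr
    _ = Real.exp (((w : ℝ) + 1) * Real.log 2 + ((t : ℝ) + 1) * e * Y * Real.log 4 +
        w * Real.log (5 / 4) + -(Real.log (5 / 4) * B)) := by
        rw [Real.exp_add, Real.exp_add, Real.exp_add]
    _ ≤ Real.exp (-A) := Real.exp_le_exp.2 (by linarith)

theorem main4 (hR : FactR2) : ∃ c : ℝ, 0 < c ∧ ∀ g a b : ℤ, g ≠ 0 → IsCoprime a b → ¬ IsSquare (-(a * b)) →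
    ∀ n : ℕ, Even n → ∃ C : ℝ, ∀ H : ℕ, 1 ≤ H →
    (Nat.card {F : Fin (n + 4 + 1) → ℤ // (∀ i, |F i| ≤ (H : ℤ)) ∧ Sol4 g a b F} : ℝ) ≤
      C * (H : ℝ) ^ (n + 5) * Real.exp (-(Real.log H) ^ c) := by
  obtain ⟨C0, hR2⟩ := hR
  obtain ⟨A, hA, hA2, hsm⟩ := smoothQ
  obtain ⟨c₀, hc₀, hc₁, hpar⟩ := par4 hA hA2
  refine ⟨c₀, hc₀, fun g a b hg hab hsq n hn => ?_⟩
  have ha : a ≠ 0 := by
    rintro rfl
    exact hsq ⟨0, by ring⟩
  have hb : b ≠ 0 := by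
    rintro rfl
    exact hsq ⟨0, by ring⟩
  obtain ⟨K, hK, x₀, hx₀, hS⟩ := hsm (-(a * b)) hsq
  obtain ⟨H₀, hH₀⟩ := hpar K (2 * (a * b).natAbs.primeFactors.card + C0 + 1) hK x₀
  obtain ⟨CO, hCO⟩ := factO4 hg hab hc₀ hc₁ (n + 4)
  have hlog0 : ∀ H : ℕ, 1 ≤ H → 0 ≤ Real.log (H : ℝ) := fun H hH => Real.log_nonneg (by exact_mod_cast hH)
  obtain ⟨B, hB⟩ : ∃ B : ℝ, B = 2 ^ (n + 1) * (2 * (1 + |(a : ℝ)| + |(b : ℝ)|) + 1) ^ (n + 5) := ⟨_, rfl⟩
  have hB0 : 0 ≤ B := by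
    rw [hB]
    positivity
  refine ⟨|CO| + B + 3 ^ (n + 5) * Real.exp ((Real.log H₀) ^ c₀), fun H hH => ?_⟩
  have hE0 : 0 < Real.exp (-(Real.log H) ^ c₀) := Real.exp_pos _
  have hHp : 0 ≤ (H : ℝ) ^ (n + 5) := by positivity
  have hHE : 0 ≤ (H : ℝ) ^ (n + 5) * Real.exp (-(Real.log H) ^ c₀) := by positivity
  rcases lt_or_ge H H₀ with hlt | hge
  · have h1 := FM_small hH (fun F : Fin (n + 4 + 1) → ℤ => Sol4 g a b F)
    refine h1.trans ?_
    have h2 : (1 : ℝ) ≤ Real.exp ((Real.log H₀) ^ c₀) * Real.exp (-(Real.log H) ^ c₀) := by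
      rw [← Real.exp_add]
      refine Real.one_le_exp ?_
      have : (Real.log H) ^ c₀ ≤ (Real.log H₀) ^ c₀ := by
        refine Real.rpow_le_rpow (hlog0 H hH) ?_ hc₀.le
        exact Real.log_le_log (by exact_mod_cast hH) (by exact_mod_cast hlt.le)
      linarith
    have h3 : (0 : ℝ) ≤ 3 ^ (n + 5) * (H : ℝ) ^ (n + 5) := by positivity
    have h4 : (0 : ℝ) ≤ (|CO| + B) * ((H : ℝ) ^ (n + 5) * Real.exp (-(Real.log H) ^ c₀)) :=
      mul_nonneg (add_nonneg (abs_nonneg _) hB0) hHE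
    have h5 := mul_le_mul_of_nonneg_left h2 h3
    calc (3 : ℝ) ^ (n + 4 + 1) * (H : ℝ) ^ (n + 4 + 1)
        = 3 ^ (n + 5) * (H : ℝ) ^ (n + 5) * 1 := by ring
      _ ≤ 3 ^ (n + 5) * (H : ℝ) ^ (n + 5) * (Real.exp ((Real.log H₀) ^ c₀) * Real.exp (-(Real.log H) ^ c₀)) := h5
      _ ≤ (|CO| + B) * ((H : ℝ) ^ (n + 5) * Real.exp (-(Real.log H) ^ c₀)) +
          3 ^ (n + 5) * (H : ℝ) ^ (n + 5) * (Real.exp ((Real.log H₀) ^ c₀) * Real.exp (-(Real.log H) ^ c₀)) :=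
          le_add_of_nonneg_left h4
      _ = (|CO| + B + 3 ^ (n + 5) * Real.exp ((Real.log H₀) ^ c₀)) * (H : ℝ) ^ (n + 5) *
          Real.exp (-(Real.log H) ^ c₀) := by ring
  · obtain ⟨X, t, e, Y, w, hX, h4X, h29, he, hY4, hY, hw, ht, hp⟩ := hH₀ H hge
    have hcard := hS X hX
    have hmem := S2_mem (D := -(a * b)) hA hK h29 he hY4 hY
    have hL1 : 1 ≤ primorial Y ^ e := Nat.one_le_pow _ _ (primorial_pos Y)
    have hfib := fibre4 hR2 hn (g := g) ha hb hH ht (S2 (-(a * b)) A K X) hL1 hmem (S2_prod h4X)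
    have hfo := hCO H hH
    have hsp := FM_split (k := n + 4 + 1) (H := H) (fun F => Sol4 g a b F)
      (fun F => g * r4 a b F = 0 ∨ Real.log H ^ (3 * c₀) < ((g * r4 a b F).natAbs.primeFactors.card : ℝ))
      (fun F => Sol4 g a b F ∧ g * r4 a b F ≠ 0 ∧ (g * r4 a b F).natAbs.primeFactors.card ≤ w) (by
        intro F hF
        by_cases hb : g * r4 a b F = 0 ∨ Real.log H ^ (3 * c₀) < ((g * r4 a b F).natAbs.primeFactors.card : ℝ)
        · exact Or.inl hb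
        · right
          rw [not_or, not_lt] at hb
          refine ⟨hF, hb.1, ?_⟩
          exact_mod_cast hb.2.trans hw)
    have hexp := FM_exp (A := (Real.log H) ^ c₀) hcard hp
    refine hsp.trans ((add_le_add hfo hfib).trans ?_)
    have e1 : (H : ℝ) ^ (n + 4 + 1) = (H : ℝ) ^ (n + 5) := by ring
    have e2 : 2 ^ (n + 1) * ((2 * (1 + |(a : ℝ)| + |(b : ℝ)|) + 1) * (H : ℝ)) ^ (n + 5) = B * (H : ℝ) ^ (n + 5) := by
      rw [hB, mul_pow]
      ring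
    rw [e1, e2]
    have h6 : CO * (H : ℝ) ^ (n + 5) * Real.exp (-(Real.log H) ^ c₀) ≤
        |CO| * (H : ℝ) ^ (n + 5) * Real.exp (-(Real.log H) ^ c₀) := by
      gcongr
      exact le_abs_self _
    have h7 : (0 : ℝ) ≤ 3 ^ (n + 5) * Real.exp ((Real.log H₀) ^ c₀) *
        ((H : ℝ) ^ (n + 5) * Real.exp (-(Real.log H) ^ c₀)) := by positivity
    have h8 : B * (H : ℝ) ^ (n + 5) * (2 ^ (w + 1) * ((primorial Y ^ e : ℕ) : ℝ) ^ (t + 1) * (5 / 4) ^ w *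
        (4 / 5) ^ (S2 (-(a * b)) A K X).card) ≤ B * (H : ℝ) ^ (n + 5) * Real.exp (-(Real.log H) ^ c₀) :=
      mul_le_mul_of_nonneg_left hexp (mul_nonneg hB0 hHp)
    calc CO * (H : ℝ) ^ (n + 5) * Real.exp (-(Real.log H) ^ c₀) +
          B * (H : ℝ) ^ (n + 5) * (2 ^ (w + 1) * ((primorial Y ^ e : ℕ) : ℝ) ^ (t + 1) * (5 / 4) ^ w *
            (4 / 5) ^ (S2 (-(a * b)) A K X).card)
        ≤ |CO| * (H : ℝ) ^ (n + 5) * Real.exp (-(Real.log H) ^ c₀) +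
          B * (H : ℝ) ^ (n + 5) * Real.exp (-(Real.log H) ^ c₀) +
          3 ^ (n + 5) * Real.exp ((Real.log H₀) ^ c₀) * ((H : ℝ) ^ (n + 5) * Real.exp (-(Real.log H) ^ c₀)) := by
          linarith
      _ = (|CO| + B + 3 ^ (n + 5) * Real.exp ((Real.log H₀) ^ c₀)) * (H : ℝ) ^ (n + 5) *
          Real.exp (-(Real.log H) ^ c₀) := by ring

end HZ
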