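import Pool.Agent.Lib.MP_10e784_agHA.FM
import Pool.Agent.Lib.MP_10e784_agHA.PH4

/-!
# Fin: the final statement

PROOF.  `-(a b)` is not a square, so `a, b ≠ 0`; `g = gcd a b`, `a = g a₁`, `b = g b₁`, `a₁, b₁` coprime, `-(a₁ b₁)` is not a square (`-(a b) = g² (-(a₁ b₁))`).  `m = n + 4`.  `main4`, `sol_of_rat4`.
-/

set_option autoImplicit false

namespace HZ

open Finset MWS HY

private theorem Fin_coprime (a c : ℤ) (h : a ≠ 0) :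
    ∃ g X Z : ℤ, g ≠ 0 ∧ a = g * X ∧ c = g * Z ∧ IsCoprime X Z := by
  have hg : Int.gcd a c ≠ 0 := by
    intro h0
    rw [Int.gcd_eq_zero_iff] at h0
    exact h h0.1
  have hg' : ((Int.gcd a c : ℕ) : ℤ) ≠ 0 := Int.natCast_ne_zero.2 hg
  obtain ⟨X, hX⟩ := Int.gcd_dvd_left a c
  obtain ⟨Z, hZ⟩ := Int.gcd_dvd_right a c
  refine ⟨(Int.gcd a c : ℕ), X, Z, hg', hX, hZ, ?_⟩
  have hb := Int.gcd_eq_gcd_ab a c
  refine ⟨Int.gcdA a c, Int.gcdB a c, ?_⟩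
  have h1 : ((Int.gcd a c : ℕ) : ℤ) * (Int.gcdA a c * X + Int.gcdB a c * Z) =
      ((Int.gcd a c : ℕ) : ℤ) * 1 := by
    calc ((Int.gcd a c : ℕ) : ℤ) * (Int.gcdA a c * X + Int.gcdB a c * Z)
        = (((Int.gcd a c : ℕ) : ℤ) * X) * Int.gcdA a c + (((Int.gcd a c : ℕ) : ℤ) * Z) * Int.gcdB a c := by ring
      _ = a * Int.gcdA a c + c * Int.gcdB a c := by rw [← hX, ← hZ]
      _ = ((Int.gcd a c : ℕ) : ℤ) * 1 := by rw [← hb, mul_one]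
  exact mul_left_cancel₀ hg' h1

private theorem Fin_mono {α : Type*} {P Q : α → Prop} (h : ∀ x, P x → Q x) (hf : Finite {x // Q x}) :
    Nat.card {x // P x} ≤ Nat.card {x // Q x} := by
  refine Nat.card_le_card_of_injective (fun x : {x // P x} => (⟨x.1, h x.1 x.2⟩ : {x // Q x})) ?_
  intro x y hxy
  exact Subtype.ext (Subtype.mk.inj hxy)

theorem final4 (hR : FactR2) : ∃ c : ℝ, 0 < c ∧ ∀ a b : ℤ, ¬ IsSquare (-(a * b)) → ∀ m : ℕ, Even m → 4 ≤ m →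
    ∃ C : ℝ, ∀ H : ℕ, 1 ≤ H →
      (Nat.card {F : Fin (m + 1) → ℤ // (∀ i, |F i| ≤ (H : ℤ)) ∧ ∃ x z y : ℚ, (x ≠ 0 ∨ z ≠ 0) ∧
        y ^ 2 = ((a : ℚ) * x ^ 4 + (b : ℚ) * z ^ 4) * ∑ i : Fin (m + 1), (F i : ℚ) * x ^ (i : ℕ) * z ^ (m - (i : ℕ))} : ℝ) ≤
      C * (H : ℝ) ^ (m + 1) * Real.exp (-(Real.log H) ^ c) := by
  obtain ⟨c, hc, hmain⟩ := main4 hR
  refine ⟨c, hc, fun a b hab m hm hm4 => ?_⟩
  have ha : a ≠ 0 := by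
    rintro rfl
    exact hab ⟨0, by ring⟩
  obtain ⟨g, a₁, b₁, hg, rfl, rfl, hcop⟩ := Fin_coprime a b ha
  obtain ⟨n, rfl⟩ : ∃ n, m = n + 4 := ⟨m - 4, by omega⟩
  have hn : Even n := by
    rcases Nat.even_or_odd n with h | h
    · exact h
    · exfalso
      obtain ⟨k, hk⟩ := h
      obtain ⟨l, hl⟩ := hm
      omega
  have hab₁ : ¬ IsSquare (-(a₁ * b₁)) := by
    rintro ⟨r, hr⟩
    exact hab ⟨g * r, by linear_combination g ^ 2 * hr⟩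
  obtain ⟨C, hC⟩ := hmain g a₁ b₁ hg hcop hab₁ n hn
  refine ⟨C, fun H hH => ?_⟩
  refine le_trans ?_ (hC H hH)
  have hfin : Finite {F : Fin (n + 4 + 1) → ℤ // (∀ i, |F i| ≤ (H : ℤ)) ∧ Sol4 g a₁ b₁ F} := by
    have h1 : Set.Finite {F : Fin (n + 4 + 1) → ℤ | ∀ i, |F i| ≤ (H : ℤ)} := by
      refine Set.Finite.subset (Finset.finite_toSet (Fintype.piFinset fun _ : Fin (n + 4 + 1) => Icc (-(H : ℤ)) H)) ?_
      intro F hF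
      rw [Finset.mem_coe, Fintype.mem_piFinset]
      intro i
      rw [mem_Icc]
      exact abs_le.1 (hF i)
    exact (h1.subset fun F hF => hF.1).to_subtype
  have himp : ∀ F : Fin (n + 4 + 1) → ℤ, ((∀ i, |F i| ≤ (H : ℤ)) ∧ ∃ x z y : ℚ, (x ≠ 0 ∨ z ≠ 0) ∧
      y ^ 2 = (((g * a₁ : ℤ) : ℚ) * x ^ 4 + ((g * b₁ : ℤ) : ℚ) * z ^ 4) *
        ∑ i : Fin (n + 4 + 1), (F i : ℚ) * x ^ (i : ℕ) * z ^ (n + 4 - (i : ℕ))) →
      (∀ i, |F i| ≤ (H : ℤ)) ∧ Sol4 g a₁ b₁ F := by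
    rintro F ⟨hF, x, z, y, h, hy⟩
    refine ⟨hF, sol_of_rat4 hm g a₁ b₁ F x z y h ?_⟩
    rw [hy, Int.cast_mul, Int.cast_mul]
    unfold fe
    ring
  have hle := Fin_mono himp hfin
  exact_mod_cast hle

end HZ
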