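import Pool.Agent.Lib.MP_10e784_agHA.A1
import Pool.Agent.Lib.MP_10e784_agHO.ODefs

/-!
# LEAF O1: the resultant as a primitive polynomial

MODEL: `exists_RR`, `OK_rf` in `MP_10e784_agHO/OK.lean`, `rs_one` in `MP_10e784_agHO/OI.lean`.
PROOF.  `P = r4 (C a) (C b) (fun i => MvPolynomial.X i)` over `MvPolynomial (Fin (m + 1)) ℤ`.  `eval c P = r4 a b c`: `r4_map` for the ring homomorphism `MvPolynomial.eval c`.
`Prim P`: let `p` be a prime; `map P = r4 (C a) (C b) X` over `MvPolynomial _ (ZMod p)` (`r4_map`).  If it is `0` then `r4 (a : ZMod p) (b : ZMod p) c = 0` for all `c : Fin (m + 1) → ZMod p`.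
If `a ≠ 0` modulo `p`: `c = (1, 0, .., 0)`: `pol c = 1`, `resultant (C a * X ^ 4 + C b) 1 4 m = ± a ^ m ≠ 0` (`resultant` with a constant: as in `rs_one`: Mathlib `resultant_one_right`, `resultant_C_zero_right`, `resultant_add_right_deg`, ..).
If `a = 0` then `b ≠ 0` (coprime): `c = (0, .., 0, 1)`: `pol c = X ^ m`, `resultant (C b) (X ^ m) 4 m = ± b ^ m ≠ 0` (`resultant_X_pow_left` / `resultant_comm`, ..; the degree `4` is only formal, the product of the values at the roots of `X ^ m` is `b ^ m` up to the leading coefficient `1 ^ 4`).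
-/

set_option autoImplicit false

namespace HZ

open Finset Polynomial MWS HY

private theorem O1_one {R : Type} [CommRing R] (m : ℕ) (a b : R) :
    r4 a b (fun i : Fin (m + 1) => if (i : ℕ) = 0 then 1 else 0) = a ^ m := by
  have h1 : pol (fun i : Fin (m + 1) => if (i : ℕ) = 0 then (1 : R) else 0) = 1 := by
    unfold pol
    rw [Finset.sum_eq_single (0 : Fin (m + 1))]
    · beta_reduce
      rw [if_pos (by rfl)]
      rfl
    · intro i _ hi
      have h2 : (i : ℕ) ≠ 0 := fun h => hi (Fin.ext h)
      beta_reduce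
      rw [if_neg h2, monomial_zero_right]
    · intro h
      exact absurd (Finset.mem_univ _) h
  unfold r4
  rw [h1, resultant_one_right, coeff_add, coeff_C_mul, coeff_X_pow, coeff_C, if_pos rfl, if_neg (by norm_num),
    mul_one, add_zero]

private theorem O1_last {R : Type} [CommRing R] (m : ℕ) (a b : R) :
    r4 a b (fun i : Fin (m + 1) => if (i : ℕ) = m then 1 else 0) = (-1) ^ (4 * m) * b ^ m := by
  have h1 : pol (fun i : Fin (m + 1) => if (i : ℕ) = m then (1 : R) else 0) = X ^ m := by
    unfold pol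
    rw [Finset.sum_eq_single (Fin.last m)]
    · beta_reduce
      rw [Fin.val_last, if_pos rfl, monomial_one_right_eq_X_pow]
    · intro i _ hi
      have h2 : (i : ℕ) ≠ m := fun h => hi (Fin.ext h)
      beta_reduce
      rw [if_neg h2, monomial_zero_right]
    · intro h
      exact absurd (Finset.mem_univ _) h
  have h2 : (C a * X ^ 4 + C b : R[X]).natDegree ≤ 4 :=
    natDegree_add_le_of_degree_le (natDegree_C_mul_X_pow_le a 4) (by rw [natDegree_C]; norm_num)
  unfold r4
  rw [h1, resultant_X_pow_right _ _ _ h2, coeff_add, coeff_C_mul, coeff_X_pow, coeff_C, if_neg (by norm_num),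
    if_pos rfl, mul_zero, zero_add]

theorem exists_P4 {a b : ℤ} (hab : IsCoprime a b) (m : ℕ) :
    ∃ P : MvPolynomial (Fin (m + 1)) ℤ, HYO.Prim P ∧ ∀ c : Fin (m + 1) → ℤ, MvPolynomial.eval c P = r4 a b c := by
  classical
  refine ⟨r4 (MvPolynomial.C a) (MvPolynomial.C b) (fun i => MvPolynomial.X i), ?_, ?_⟩
  · intro p hp h0
    have hpf : Fact p.Prime := Fact.mk hp
    rw [← r4_map] at h0
    have h1 : ∀ c : Fin (m + 1) → ZMod p, r4 (Int.castRingHom (ZMod p) a) (Int.castRingHom (ZMod p) b) c = 0 := by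
      intro c
      have h2 := congrArg (MvPolynomial.eval c) h0
      rw [← r4_map, map_zero] at h2
      simp only [MvPolynomial.map_C, MvPolynomial.map_X, MvPolynomial.eval_C, MvPolynomial.eval_X] at h2
      exact h2
    have h3 := h1 fun i => if (i : ℕ) = 0 then 1 else 0
    have h4 := h1 fun i => if (i : ℕ) = m then 1 else 0
    rw [O1_one] at h3
    rw [O1_last] at h4
    have h5 : Int.castRingHom (ZMod p) a = 0 := eq_zero_of_pow_eq_zero h3
    have h6 : Int.castRingHom (ZMod p) b = 0 := by
      rcases mul_eq_zero.1 h4 with h | h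
      · exact absurd h (pow_ne_zero _ (neg_ne_zero.2 one_ne_zero))
      · exact eq_zero_of_pow_eq_zero h
    obtain ⟨u, v, huv⟩ := hab.map (Int.castRingHom (ZMod p))
    rw [h5, h6, mul_zero, mul_zero, add_zero] at huv
    exact zero_ne_one huv
  · intro c
    rw [← r4_map]
    simp only [MvPolynomial.eval_C, MvPolynomial.eval_X]

end HZ
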